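import Pool.Agent.P.MP_9682d1_al.KB.L33B0
import Pool.Agent.P.MP_9682d1_al.KB.L33B1

set_option autoImplicit false
set_option maxRecDepth 100000

namespace Pool.Agent.P.MP_9682d1_al.KB.L33

theorem tg : prvs 4 T (5 * 2 ^ 12) (fun _ => 0) tgs [18776, 0, 0] (fun _ => true) = true := by
  decide +kernel

theorem main {G : Type*} [Group G] (a g : G)
    (h4 : (a ^ 3) = 1)
    (h5 : ∀ x : G, cm (cm (cm (cm a x) x) x) x = 1) :
    ((a * (cj a g)) ^ 3) = 1 := by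
  obtain ⟨t0, -⟩ := targets (G := G) (g := nth (1 : G) [1, a, g, (cj a g), (cj a (g * g)), (cj a g⁻¹), (cj a (g⁻¹ * g⁻¹))]) (by decide) rfl
    (laws := laws) ⟨fun _ => rfl, fun _ => rfl, fun _ => rfl, fun _ => rfl, fun _ => h4, fun y => h5 (y 0), trivial⟩
    ((Upto.zero _ _ _ _ _ _) |>.succ b0 |>.succ b1 |>.succ b2 |>.succ b3 |>.succ b4) tgs _ tg
  exact t0

end Pool.Agent.P.MP_9682d1_al.KB.L33
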