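import Pool.Agent.P.MP_9682d1_al.KB.F5TbB0
import Pool.Agent.P.MP_9682d1_al.KB.F5TbB1
import Pool.Agent.P.MP_9682d1_al.KB.F5TbB2
import Pool.Agent.P.MP_9682d1_al.KB.F5TbB3

set_option autoImplicit false
set_option maxRecDepth 100000

namespace Pool.Agent.P.MP_9682d1_al.KB.F5Tb

theorem tg : prvs 6 T (16 * 2 ^ 10) (fun _ => 0) tgs [16157, 0, 16158, 0, 16159, 0] (fun _ => true) = true := by
  decide +kernel

theorem main {G : Type*} [Group G] (a b c : G)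
    (h0 : ∀ x : G, cm (cj a x) a = (1 : G) → cm (cj a x) (cj a x⁻¹) = (1 : G))
    (h1 : ∀ x : G, cm (cj a x) a = (1 : G) → cm (cj a (x * x)) (cj a x⁻¹) = (1 : G))
    (h2 : ∀ x : G, cm (cm (cj a x) a) a = (1 : G) → cm (cm (cj a x) a) (cj a x) = (1 : G) → cm (cm (cj a x) a) (cj a x⁻¹) = (1 : G))
    (h3 : ∀ x : G, cm (cm (cj a x) a) a = (1 : G) → cm (cm (cj a x) a) (cj a x) = (1 : G) → cm (cm (cj a x) a) (cj a (x * x)) = (1 : G))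
    (h4 : ∀ x : G, cm (cm (cj a x) a) a = (1 : G) → cm (cm (cj a x) a) (cj a x) = (1 : G) → cm (cm (cj a x) a) (cj a (x⁻¹ * x⁻¹)) = (1 : G))
    (h5 : ∀ x : G, cm (cm (cj a x) a) a = (1 : G) → cm (cm (cj a x) a) (cj a x) = (1 : G) → cm (cm (cj a x) (cj a x⁻¹)) a = (1 : G))
    (h6 : ∀ x : G, cm (cm (cj a x) a) a = (1 : G) → cm (cm (cj a x) a) (cj a x) = (1 : G) → cm (cm (cj a x) (cj a x⁻¹)) (cj a x) = (1 : G))
    (h7 : ∀ x : G, cm (cm (cj a x) a) a = (1 : G) → cm (cm (cj a x) a) (cj a x) = (1 : G) → cm (cm (cj a x) (cj a x⁻¹)) (cj a x⁻¹) = (1 : G))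
    (h8 : ∀ x : G, cm (cm (cj a x) a) a = (1 : G) → cm (cm (cj a x) a) (cj a x) = (1 : G) → cm (cm (cj a x) (cj a x⁻¹)) (cj a (x * x)) = (1 : G))
    (h9 : ∀ x : G, cm (cm (cj a x) a) a = (1 : G) → cm (cm (cj a x) a) (cj a x) = (1 : G) → cm (cm (cj a x) (cj a x⁻¹)) (cj a (x⁻¹ * x⁻¹)) = (1 : G))
    (h10 : ∀ x : G, cm (cm (cj a x) a) a = (1 : G) → cm (cm (cj a x) a) (cj a x) = (1 : G) → cm (cm (cm (cm (cj a x) a) x) x) x = (1 : G))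
    (h17 : ∀ x y : G, cm a y = (1 : G) → cm (cm (cm (cm (cj a x) a) a) a) y = (1 : G))
    (h19 : ∀ x : G, cm (cj b x) b = (1 : G) → cm (cj b x) (cj b x⁻¹) = (1 : G))
    (h20 : ∀ x : G, cm (cj b x) b = (1 : G) → cm (cj b (x * x)) (cj b x⁻¹) = (1 : G))
    (h21 : ∀ x : G, cm (cm (cj b x) b) b = (1 : G) → cm (cm (cj b x) b) (cj b x) = (1 : G) → cm (cm (cj b x) b) (cj b x⁻¹) = (1 : G))
    (h22 : ∀ x : G, cm (cm (cj b x) b) b = (1 : G) → cm (cm (cj b x) b) (cj b x) = (1 : G) → cm (cm (cj b x) b) (cj b (x * x)) = (1 : G))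
    (h23 : ∀ x : G, cm (cm (cj b x) b) b = (1 : G) → cm (cm (cj b x) b) (cj b x) = (1 : G) → cm (cm (cj b x) b) (cj b (x⁻¹ * x⁻¹)) = (1 : G))
    (h25 : ∀ x : G, cm (cm (cj b x) b) b = (1 : G) → cm (cm (cj b x) b) (cj b x) = (1 : G) → cm (cm (cj b x) (cj b x⁻¹)) (cj b x) = (1 : G))
    (h26 : ∀ x : G, cm (cm (cj b x) b) b = (1 : G) → cm (cm (cj b x) b) (cj b x) = (1 : G) → cm (cm (cj b x) (cj b x⁻¹)) (cj b x⁻¹) = (1 : G))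
    (h27 : ∀ x : G, cm (cm (cj b x) b) b = (1 : G) → cm (cm (cj b x) b) (cj b x) = (1 : G) → cm (cm (cj b x) (cj b x⁻¹)) (cj b (x * x)) = (1 : G))
    (h28 : ∀ x : G, cm (cm (cj b x) b) b = (1 : G) → cm (cm (cj b x) b) (cj b x) = (1 : G) → cm (cm (cj b x) (cj b x⁻¹)) (cj b (x⁻¹ * x⁻¹)) = (1 : G))
    (h31 : ∀ x : G, cm (cm (cm (cj b x) b) b) b = (1 : G) → cm (cm (cm (cj b x) b) b) (cj b x) = (1 : G) → cm (cm (cm (cj b x) b) (cj b x)) (cj b x⁻¹) = (1 : G))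
    (h33 : ∀ x : G, cm (cm (cm (cj b x) b) b) b = (1 : G) → cm (cm (cm (cj b x) b) b) (cj b x) = (1 : G) → cm (cm (cm (cj b x) b) (cj b x)) (cj b (x * x)) = (1 : G))
    (h35 : ∀ x y : G, cm b y = (1 : G) → cm (cj b x) y = (1 : G) → cm (cj b x⁻¹) y = (1 : G) → cm (cj b (x⁻¹ * x⁻¹)) y = (1 : G))
    (h36 : ∀ x y : G, cm b y = (1 : G) → cm (cm (cm (cm (cj b x) b) b) b) y = (1 : G))
    (h37 : ∀ x y : G, cm b y = (1 : G) → cm (cm (cm (cm (cj b x) b) (cj b x)) (cj b x)) y = (1 : G))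
    (h38 : ∀ x : G, cm (cj c x) c = (1 : G) → cm (cj c x) (cj c x⁻¹) = (1 : G))
    (h39 : ∀ x : G, cm (cj c x) c = (1 : G) → cm (cj c (x * x)) (cj c x⁻¹) = (1 : G))
    (h40 : ∀ x : G, cm (cm (cj c x) c) c = (1 : G) → cm (cm (cj c x) c) (cj c x) = (1 : G) → cm (cm (cj c x) c) (cj c x⁻¹) = (1 : G))
    (h41 : ∀ x : G, cm (cm (cj c x) c) c = (1 : G) → cm (cm (cj c x) c) (cj c x) = (1 : G) → cm (cm (cj c x) c) (cj c (x * x)) = (1 : G))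
    (h42 : ∀ x : G, cm (cm (cj c x) c) c = (1 : G) → cm (cm (cj c x) c) (cj c x) = (1 : G) → cm (cm (cj c x) c) (cj c (x⁻¹ * x⁻¹)) = (1 : G))
    (h43 : ∀ x : G, cm (cm (cj c x) c) c = (1 : G) → cm (cm (cj c x) c) (cj c x) = (1 : G) → cm (cm (cj c x) (cj c x⁻¹)) c = (1 : G))
    (h44 : ∀ x : G, cm (cm (cj c x) c) c = (1 : G) → cm (cm (cj c x) c) (cj c x) = (1 : G) → cm (cm (cj c x) (cj c x⁻¹)) (cj c x) = (1 : G))
    (h45 : ∀ x : G, cm (cm (cj c x) c) c = (1 : G) → cm (cm (cj c x) c) (cj c x) = (1 : G) → cm (cm (cj c x) (cj c x⁻¹)) (cj c x⁻¹) = (1 : G))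
    (h46 : ∀ x : G, cm (cm (cj c x) c) c = (1 : G) → cm (cm (cj c x) c) (cj c x) = (1 : G) → cm (cm (cj c x) (cj c x⁻¹)) (cj c (x * x)) = (1 : G))
    (h47 : ∀ x : G, cm (cm (cj c x) c) c = (1 : G) → cm (cm (cj c x) c) (cj c x) = (1 : G) → cm (cm (cj c x) (cj c x⁻¹)) (cj c (x⁻¹ * x⁻¹)) = (1 : G))
    (h48 : ∀ x : G, cm (cm (cj c x) c) c = (1 : G) → cm (cm (cj c x) c) (cj c x) = (1 : G) → cm (cm (cm (cm (cj c x) c) x) x) x = (1 : G))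
    (h55 : ∀ x y : G, cm c y = (1 : G) → cm (cm (cm (cm (cj c x) c) c) c) y = (1 : G))
    (h56 : ∀ x y : G, cm c y = (1 : G) → cm (cm (cm (cm (cj c x) c) (cj c x)) (cj c x)) y = (1 : G))
    (h57 : ∀ x : G, cm x a = (1 : G) → cm x b = (1 : G) → cm x c = (1 : G) → x = (1 : G))
    (h58 : ∀ x y : G, cm (cm x y) a = (1 : G) → cm (cm x y) b = (1 : G) → cm (cm x y) c = (1 : G) → cm x y = (1 : G))
    (h72 : cm a b = (1 : G))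
    (h73 : (cm (cm c a) a) = (1 : G))
    (h74 : cm (cm (cm c a) c) a = (1 : G))
    (h75 : cm (cm (cm c a) c) c = (1 : G))
    (h76 : (cm (cm c b) b) = (1 : G))
    (h77 : cm (cm (cm c b) c) b = (1 : G))
    (h78 : cm (cm (cm c b) c) c = (1 : G))
    (h79 : ∀ x : G, (x ^ (5 : ℕ)) = (1 : G))
    (h80 : ∀ x : G, cm (cm (cm (cm (cj a x) a) a) a) a = (1 : G))
    (h81 : ∀ x : G, cm (cm (cm (cm (cj a x) a) a) a) (cj a x) = (1 : G))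
    (h83 : ∀ x : G, cm (cm (cm (cm (cj a x) a) (cj a x)) (cj a x)) (cj a x) = (1 : G))
    (h84 : ∀ x : G, (cm (cm (cm (cj a x) a) a) a) = (cm (cm (cm (cj a x) a) (cj a x)) (cj a x)))
    (h85 : ∀ x : G, (cm (cm (cm (cj a x) a) a) a) = ((cm (cm (cm (cj a x) a) a) (cj a x)) ^ (2 : ℕ)))
    (h86 : ∀ x : G, cm (cm (cm (cm (cj b x) a) a) a) a = (1 : G))
    (h87 : ∀ x : G, cm (cm (cm (cm (cj b x) a) a) a) (cj b x) = (1 : G))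
    (h88 : ∀ x : G, cm (cm (cm (cm (cj b x) a) (cj b x)) (cj b x)) a = (1 : G))
    (h89 : ∀ x : G, cm (cm (cm (cm (cj b x) a) (cj b x)) (cj b x)) (cj b x) = (1 : G))
    (h90 : ∀ x : G, (cm (cm (cm (cj b x) a) a) a) = (cm (cm (cm (cj b x) a) (cj b x)) (cj b x)))
    (h91 : ∀ x : G, (cm (cm (cm (cj b x) a) a) a) = ((cm (cm (cm (cj b x) a) a) (cj b x)) ^ (2 : ℕ)))
    (h92 : ∀ x : G, cm (cm (cm (cm (cj c x) a) a) a) a = (1 : G))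
    (h93 : ∀ x : G, cm (cm (cm (cm (cj c x) a) a) a) (cj c x) = (1 : G))
    (h94 : ∀ x : G, cm (cm (cm (cm (cj c x) a) (cj c x)) (cj c x)) a = (1 : G))
    (h95 : ∀ x : G, cm (cm (cm (cm (cj c x) a) (cj c x)) (cj c x)) (cj c x) = (1 : G))
    (h96 : ∀ x : G, (cm (cm (cm (cj c x) a) a) a) = (cm (cm (cm (cj c x) a) (cj c x)) (cj c x)))
    (h97 : ∀ x : G, (cm (cm (cm (cj c x) a) a) a) = ((cm (cm (cm (cj c x) a) a) (cj c x)) ^ (2 : ℕ)))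
    (h98 : ∀ x : G, cm (cm (cm (cm (cj b x) b) b) b) b = (1 : G))
    (h99 : ∀ x : G, cm (cm (cm (cm (cj b x) b) b) b) (cj b x) = (1 : G))
    (h100 : ∀ x : G, cm (cm (cm (cm (cj b x) b) (cj b x)) (cj b x)) b = (1 : G))
    (h101 : ∀ x : G, cm (cm (cm (cm (cj b x) b) (cj b x)) (cj b x)) (cj b x) = (1 : G))
    (h102 : ∀ x : G, (cm (cm (cm (cj b x) b) b) b) = (cm (cm (cm (cj b x) b) (cj b x)) (cj b x)))
    (h103 : ∀ x : G, (cm (cm (cm (cj b x) b) b) b) = ((cm (cm (cm (cj b x) b) b) (cj b x)) ^ (2 : ℕ)))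
    (h104 : ∀ x : G, cm (cm (cm (cm (cj c x) b) b) b) b = (1 : G))
    (h105 : ∀ x : G, cm (cm (cm (cm (cj c x) b) b) b) (cj c x) = (1 : G))
    (h106 : ∀ x : G, cm (cm (cm (cm (cj c x) b) (cj c x)) (cj c x)) b = (1 : G))
    (h107 : ∀ x : G, cm (cm (cm (cm (cj c x) b) (cj c x)) (cj c x)) (cj c x) = (1 : G))
    (h108 : ∀ x : G, (cm (cm (cm (cj c x) b) b) b) = (cm (cm (cm (cj c x) b) (cj c x)) (cj c x)))
    (h109 : ∀ x : G, (cm (cm (cm (cj c x) b) b) b) = ((cm (cm (cm (cj c x) b) b) (cj c x)) ^ (2 : ℕ)))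
    (h110 : ∀ x : G, cm (cm (cm (cm (cj c x) c) c) c) c = (1 : G))
    (h111 : ∀ x : G, cm (cm (cm (cm (cj c x) c) c) c) (cj c x) = (1 : G))
    (h112 : ∀ x : G, cm (cm (cm (cm (cj c x) c) (cj c x)) (cj c x)) c = (1 : G))
    (h113 : ∀ x : G, cm (cm (cm (cm (cj c x) c) (cj c x)) (cj c x)) (cj c x) = (1 : G))
    (h114 : ∀ x : G, (cm (cm (cm (cj c x) c) c) c) = (cm (cm (cm (cj c x) c) (cj c x)) (cj c x)))
    (h115 : ∀ x : G, (cm (cm (cm (cj c x) c) c) c) = ((cm (cm (cm (cj c x) c) c) (cj c x)) ^ (2 : ℕ)))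
    (h116 : ∀ x : G, (((((a⁻¹ * (cj a x⁻¹)) * a⁻¹) * (cj a x)) * (cj a⁻¹ (x ^ (2 : ℕ)))) * (cj a x)) = ((((((cj a⁻¹ (x ^ (2 : ℕ))) * (cj a x)) * a⁻¹) * (cj a x)) * a⁻¹) * (cj a x⁻¹)))
    (h117 : ∀ x : G, (((((((a⁻¹ * (cj a x⁻¹)) * (cj a⁻¹ (x⁻¹ ^ (2 : ℕ)))) * (cj a x⁻¹)) * a⁻¹) * (cj a x⁻¹)) * a⁻¹) * (cj a x)) = ((((((((cj a⁻¹ x) * a) * (cj a⁻¹ x⁻¹)) * a) * (cj a⁻¹ x)) * a) * (cj a⁻¹ x)) * (cj a (x ^ (2 : ℕ)))))
    (h118 : ∀ x : G, (((((b⁻¹ * (cj b x⁻¹)) * b⁻¹) * (cj b x)) * (cj b⁻¹ (x ^ (2 : ℕ)))) * (cj b x)) = ((((((cj b⁻¹ (x ^ (2 : ℕ))) * (cj b x)) * b⁻¹) * (cj b x)) * b⁻¹) * (cj b x⁻¹)))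
    (h119 : ∀ x : G, (((((((b⁻¹ * (cj b x⁻¹)) * (cj b⁻¹ (x⁻¹ ^ (2 : ℕ)))) * (cj b x⁻¹)) * b⁻¹) * (cj b x⁻¹)) * b⁻¹) * (cj b x)) = ((((((((cj b⁻¹ x) * b) * (cj b⁻¹ x⁻¹)) * b) * (cj b⁻¹ x)) * b) * (cj b⁻¹ x)) * (cj b (x ^ (2 : ℕ)))))
    (h120 : ∀ x : G, (((((c⁻¹ * (cj c x⁻¹)) * c⁻¹) * (cj c x)) * (cj c⁻¹ (x ^ (2 : ℕ)))) * (cj c x)) = ((((((cj c⁻¹ (x ^ (2 : ℕ))) * (cj c x)) * c⁻¹) * (cj c x)) * c⁻¹) * (cj c x⁻¹)))
    (h121 : ∀ x : G, (((((((c⁻¹ * (cj c x⁻¹)) * (cj c⁻¹ (x⁻¹ ^ (2 : ℕ)))) * (cj c x⁻¹)) * c⁻¹) * (cj c x⁻¹)) * c⁻¹) * (cj c x)) = ((((((((cj c⁻¹ x) * c) * (cj c⁻¹ x⁻¹)) * c) * (cj c⁻¹ x)) * c) * (cj c⁻¹ x)) * (cj c (x ^ (2 : ℕ)))))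
    (h123 : ∀ x : G, cm (cm (cm (cm (cj b x) a) a) a) b = (1 : G))
    (h124 : ∀ x : G, cm (cm (cm (cm (cj c x) a) a) a) b = (1 : G))
    (h125 : ∀ x : G, cm (cm (cm (cm (cj a x) b) b) b) a = (1 : G))
    (h127 : ∀ x : G, cm (cm (cm (cm (cj c x) b) b) b) a = (1 : G)) :
    a = (1 : G) ∧
    b = (1 : G) ∧
    c = (1 : G) := by
  obtain ⟨t0, t1, t2, -⟩ := targets (G := G) (g := nth (1 : G) [1, a, b, c, (cm c a), (cm c b), (cm (cm c a) c), (cm (cm c b) c), (cm (cm c a) a), (cm (cm c b) b), (cm (cm c b) a), (cm (cm (cm c b) b) a), (cm (cm (cm c a) a) b), (cm (cm (cm c a) c) b), (cm (cm (cm c b) a) c), (cm (cm (cm (cm c b) b) a) c), (cm (cm (cm (cm c a) a) b) c)]) (by decide) rfl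
    (laws := laws) ⟨fun _ => rfl, fun _ => rfl, fun _ => rfl, fun _ => rfl, fun _ => rfl, fun _ => rfl, fun _ => rfl, fun _ => rfl, fun _ => rfl, fun _ => h72, fun _ => h73, fun _ => h74, fun _ => h75, fun _ => h76, fun _ => h77, fun _ => h78, fun y => h125 (y 0), fun y => h79 (y 0), fun y => h112 (y 0), fun y => h113 (y 0), fun y => h119 (y 0), fun y => h120 (y 0), fun y => h94 (y 0), fun y => h95 (y 0), fun y => h96 (y 0), fun y => h104 (y 0), fun y => h105 (y 0), fun y => h106 (y 0), fun y => h107 (y 0), fun y => h108 (y 0), fun y => h124 (y 0), fun y => h127 (y 0), fun y => h121 (y 0), fun y => h116 (y 0), fun y => h117 (y 0), fun y => h118 (y 0), fun y => h80 (y 0), fun y => h81 (y 0), fun y => h98 (y 0), fun y => h99 (y 0), fun y => h86 (y 0), fun y => h89 (y 0), fun y => h90 (y 0), fun y => h110 (y 0), fun y => h111 (y 0), fun y =>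 h114 (y 0), fun y => h115 (y 0), fun y => h92 (y 0), fun y => h93 (y 0), fun y => h109 (y 0), fun y => h83 (y 0), fun y => h84 (y 0), fun y => h85 (y 0), fun y => h87 (y 0), fun y => h100 (y 0), fun y => h102 (y 0), fun y => h103 (y 0), fun y => h123 (y 0), fun y => h88 (y 0), fun y => h101 (y 0), fun y => h17 (y 0) (y 1), fun y => h36 (y 0) (y 1), fun y => h55 (y 0) (y 1), fun y => h56 (y 0) (y 1), fun y => h91 (y 0), fun y => h0 (y 0), fun y => h1 (y 0), fun y => h5 (y 0), fun y => h6 (y 0), fun y => h7 (y 0), fun y => h8 (y 0), fun y => h9 (y 0), fun y => h19 (y 0), fun y => h20 (y 0), fun y => h25 (y 0), fun y => h26 (y 0), fun y => h27 (y 0), fun y => h28 (y 0), fun y => h37 (y 0) (y 1), fun y => h38 (y 0), fun y => h39 (y 0), fun y => h40 (y 0), fun y => h43 (y 0), fun y => h44 (y 0), fun y => h45 (y 0), fun y => h46 (y 0), fun y =>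 h48 (y 0), fun y => h42 (y 0), fun y => h41 (y 0), fun y => h47 (y 0), fun y => h97 (y 0), fun y => h2 (y 0), fun y => h3 (y 0), fun y => h4 (y 0), fun y => h10 (y 0), fun y => h31 (y 0), fun y => h33 (y 0), fun y => h21 (y 0), fun y => h22 (y 0), fun y => h23 (y 0), fun y => h58 (y 0) (y 1), fun y => h35 (y 0) (y 1), fun y => h57 (y 0), trivial⟩
    ((Upto.zero _ _ _ _ _ _) |>.succ b0 |>.succ b1 |>.succ b2 |>.succ b3 |>.succ b4 |>.succ b5 |>.succ b6 |>.succ b7 |>.succ b8 |>.succ b9 |>.succ b10 |>.succ b11 |>.succ b12 |>.succ b13 |>.succ b14 |>.succ b15) tgs _ tg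
  exact ⟨t0, t1, t2⟩

end Pool.Agent.P.MP_9682d1_al.KB.F5Tb
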