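import Pool.Agent.P.MP_9682d1_al.KB.ENB0
import Pool.Agent.P.MP_9682d1_al.KB.ENB1
import Pool.Agent.P.MP_9682d1_al.KB.ENB2
import Pool.Agent.P.MP_9682d1_al.KB.ENB3

set_option autoImplicit false
set_option maxRecDepth 100000
set_option linter.unusedSimpArgs false

namespace Pool.Agent.P.MP_9682d1_al.KB.EN

theorem sd : side 7 27 8191 37 M 1781 (57 * 2 ^ 5) U = true := by decide +kernel
theorem base {G : Type*} [Group G] (H : Subgroup G) (hH : Group.IsNilpotent H) (a g : G)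
    (ma : a ∈ H) (mg : g ∈ H)
    (h0 : ∀ x ∈ H, cm (cm (cm (cm a x) x) x) x = (1 : G)) :
    Base 7 27 8191 37 (gen [1, a, g] defs) U C 1824 :=
  nbase (n := 24) (L := [1, a, g]) (defs := defs) hH ⟨H.one_mem, ma, mg, trivial⟩ rfl rfl (laws := laws) ⟨gen_def rfl, gen_def rfl, gen_def rfl, gen_def rfl, gen_def rfl, gen_def rfl, gen_def rfl, gen_def rfl, gen_def rfl, gen_def rfl, gen_def rfl, gen_def rfl, gen_def rfl, gen_def rfl, gen_def rfl, gen_def rfl, gen_def rfl, gen_def rfl, gen_def rfl, gen_def rfl, gen_def rfl, gen_def rfl, fun y e => h0 (y 0) (e 0), trivial⟩ sd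
    (Upto2.zero |>.succ b0 |>.succ b1 |>.succ b2 |>.succ b3 |>.succ b4 |>.succ b5 |>.succ b6 |>.succ b7 |>.succ b8 |>.succ b9 |>.succ b10 |>.succ b11 |>.succ b12 |>.succ b13 |>.succ b14 |>.succ b15 |>.succ b16 |>.succ b17 |>.succ b18 |>.succ b19 |>.succ b20 |>.succ b21 |>.succ b22 |>.succ b23 |>.succ b24 |>.succ b25 |>.succ b26 |>.succ b27 |>.succ b28 |>.succ b29 |>.succ b30 |>.succ b31 |>.succ b32 |>.succ b33 |>.succ b34 |>.succ b35 |>.succ b36 |>.succ b37 |>.succ b38 |>.succ b39 |>.succ b40 |>.succ b41 |>.succ b42 |>.succ b43 |>.succ b44 |>.succ b45 |>.succ b46 |>.succ b47 |>.succ b48 |>.succ b49 |>.succ b50 |>.succ b51 |>.succ b52 |>.succ b53 |>.succ b54 |>.succ b55 |>.succ b56)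

theorem tg : prvs 7 (fun f => tr (U f)) 1824 (fun _ => 0) tgs [1417, 1419, 1422, 1425, 1427, 1428, 1428, 0, 0, 0, 0, 1417, 1419, 1422, 1425, 1427, 1428, 1428, 0, 0, 0, 0, 1417, 1419, 1422, 1425, 1427, 1428, 1429, 0, 0, 0, 0, 1417, 1419, 1422, 1425, 1427, 1428, 1429, 0, 0, 0, 0, 1417, 1419, 1422, 1425, 1427, 1429, 1428, 0, 0, 0, 0, 1417, 1419, 1422, 1425, 1427, 1429, 1428, 0, 0, 0, 0, 1417, 1419, 1422, 1425, 1427, 1429, 1429, 0, 0, 0, 0, 1417, 1419, 1422, 1425, 1427, 1429, 1429, 0, 0, 0, 0, 1417, 1419, 1422, 1425, 1432, 1434, 1428, 0, 0, 0, 0, 1417, 1419, 1422, 1425, 1432, 1434, 1428, 0, 0, 0, 0, 1417, 1419, 1422, 1425, 1432, 1434, 1429, 0, 0, 0, 0, 1417, 1419, 1422, 1425, 1432, 1434, 1429, 0, 0, 0, 0, 1417, 1419, 1422, 1425, 1432, 1437, 1439, 0, 0, 0, 0, 1417, 1419, 1422, 1425, 1432, 1437, 1439, 0, 0, 0, 0, 1417, 1419, 1422,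 1425, 1432, 1437, 1441, 0, 0, 0, 0, 1417, 1419, 1422, 1425, 1432, 1437, 1441, 0, 0, 0, 0, 1417, 1419, 1422, 1444, 1447, 1449, 1428, 0, 0, 0, 0, 1417, 1419, 1422, 1444, 1447, 1449, 1428, 0, 0, 0, 0, 1417, 1419, 1422, 1444, 1447, 1449, 1429, 0, 0, 0, 0, 1417, 1419, 1422, 1444, 1447, 1449, 1429, 0, 0, 0, 0, 1417, 1419, 1422, 1444, 1447, 1451, 1453, 0, 0, 0, 0, 1417, 1419, 1422, 1444, 1447, 1451, 1453, 0, 0, 0, 0, 1417, 1419, 1422, 1444, 1447, 1451, 1455, 0, 0, 1438, 0, 1417, 1419, 1422, 1444, 1447, 1451, 1455, 0, 0, 1440, 0, 1417, 1419, 1422, 1444, 1458, 1461, 1463, 0, 0, 0, 0, 1417, 1419, 1422, 1444, 1458, 1461, 1463, 0, 0, 0, 0, 1417, 1419, 1422, 1444, 1458, 1461, 1465, 0, 0, 1466, 0, 1417, 1419, 1422, 1444, 1458, 1461, 1465, 0, 0, 1467, 0, 1417, 1419, 1422, 1444, 1458, 1470, 1472, 0, 0, 1438, 0, 1417, 1419, 1422, 1444, 1458,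 1470, 1472, 0, 0, 1440, 0, 1417, 1419, 1422, 1444, 1458, 1470, 1474, 0, 0, 0, 0, 1417, 1419, 1422, 1444, 1458, 1470, 1474, 0, 0, 0, 0, 1417, 1419, 1477, 1480, 1483, 1485, 1428, 0, 0, 0, 0, 1417, 1419, 1477, 1480, 1483, 1485, 1428, 0, 0, 0, 0, 1417, 1419, 1477, 1480, 1483, 1485, 1429, 0, 0, 0, 0, 1417, 1419, 1477, 1480, 1483, 1485, 1429, 0, 0, 0, 0, 1417, 1419, 1477, 1480, 1483, 1488, 1490, 0, 0, 0, 0, 1417, 1419, 1477, 1480, 1483, 1488, 1490, 0, 0, 0, 0, 1417, 1419, 1477, 1480, 1483, 1488, 1493, 0, 0, 1494, 0, 1417, 1419, 1477, 1480, 1483, 1488, 1493, 0, 0, 1495, 0, 1417, 1419, 1477, 1480, 1498, 1501, 1503, 0, 0, 0, 0, 1417, 1419, 1477, 1480, 1498, 1501, 1503, 0, 0, 0, 0, 1417, 1419, 1477, 1480, 1498, 1501, 1505, 0, 0, 1438, 0, 1417, 1419, 1477, 1480, 1498, 1501, 1505, 0, 0, 1440, 0, 1417, 1419, 1477, 1480, 1498, 1508, 1510,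 0, 0, 1494, 0, 1417, 1419, 1477, 1480, 1498, 1508, 1510, 0, 0, 1495, 0, 1417, 1419, 1477, 1480, 1498, 1508, 1512, 0, 0, 0, 0, 1417, 1419, 1477, 1480, 1498, 1508, 1512, 0, 0, 0, 0, 1417, 1419, 1477, 1515, 1518, 1521, 1523, 0, 0, 0, 0, 1417, 1419, 1477, 1515, 1518, 1521, 1523, 0, 0, 0, 0, 1417, 1419, 1477, 1515, 1518, 1521, 1526, 0, 0, 1466, 0, 1417, 1419, 1477, 1515, 1518, 1521, 1526, 0, 0, 1467, 0, 1417, 1419, 1477, 1515, 1518, 1529, 1531, 0, 0, 1532, 0, 1417, 1419, 1477, 1515, 1518, 1529, 1531, 0, 0, 1533, 0, 1417, 1419, 1477, 1515, 1518, 1529, 1535, 0, 0, 0, 0, 1417, 1419, 1477, 1515, 1518, 1529, 1535, 0, 0, 0, 0, 1417, 1419, 1477, 1515, 1538, 1540, 1543, 0, 0, 1466, 0, 1417, 1419, 1477, 1515, 1538, 1540, 1543, 0, 0, 1467, 0, 1417, 1419, 1477, 1515, 1538, 1540, 1545, 0, 0, 0, 0, 1417, 1419, 1477, 1515, 1538, 1540, 1545, 0,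 0, 0, 0, 1417, 1419, 1477, 1515, 1538, 1547, 1428, 0, 0, 0, 0, 1417, 1419, 1477, 1515, 1538, 1547, 1428, 0, 0, 0, 0, 1417, 1419, 1477, 1515, 1538, 1547, 1429, 0, 0, 0, 0, 1417, 1419, 1477, 1515, 1538, 1547, 1429, 0, 0, 0, 0, 1417, 1549, 1552, 1555, 1558, 1560, 1428, 0, 0, 0, 0, 1417, 1549, 1552, 1555, 1558, 1560, 1428, 0, 0, 0, 0, 1417, 1549, 1552, 1555, 1558, 1560, 1429, 0, 0, 0, 0, 1417, 1549, 1552, 1555, 1558, 1560, 1429, 0, 0, 0, 0, 1417, 1549, 1552, 1555, 1558, 1563, 1565, 0, 0, 0, 0, 1417, 1549, 1552, 1555, 1558, 1563, 1565, 0, 0, 0, 0, 1417, 1549, 1552, 1555, 1558, 1563, 1567, 0, 0, 1494, 0, 1417, 1549, 1552, 1555, 1558, 1563, 1567, 0, 0, 1495, 0, 1417, 1549, 1552, 1555, 1570, 1573, 1575, 0, 0, 0, 0, 1417, 1549, 1552, 1555, 1570, 1573, 1575, 0, 0, 0, 0, 1417, 1549, 1552, 1555, 1570, 1573, 1578, 0, 0, 1438, 0, 1417, 1549,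 1552, 1555, 1570, 1573, 1578, 0, 0, 1440, 0, 1417, 1549, 1552, 1555, 1570, 1581, 1584, 0, 0, 1494, 0, 1417, 1549, 1552, 1555, 1570, 1581, 1584, 0, 0, 1495, 0, 1417, 1549, 1552, 1555, 1570, 1581, 1586, 0, 0, 0, 0, 1417, 1549, 1552, 1555, 1570, 1581, 1586, 0, 0, 0, 0, 1417, 1549, 1552, 1589, 1592, 1595, 1597, 0, 0, 0, 0, 1417, 1549, 1552, 1589, 1592, 1595, 1597, 0, 0, 0, 0, 1417, 1549, 1552, 1589, 1592, 1595, 1600, 0, 0, 1466, 0, 1417, 1549, 1552, 1589, 1592, 1595, 1600, 0, 0, 1467, 0, 1417, 1549, 1552, 1589, 1592, 1603, 1606, 0, 0, 1532, 0, 1417, 1549, 1552, 1589, 1592, 1603, 1606, 0, 0, 1533, 0, 1417, 1549, 1552, 1589, 1592, 1603, 1608, 0, 0, 0, 0, 1417, 1549, 1552, 1589, 1592, 1603, 1608, 0, 0, 0, 0, 1417, 1549, 1552, 1589, 1611, 1614, 1616, 0, 0, 1466, 0, 1417, 1549, 1552, 1589, 1611, 1614, 1616, 0, 0, 1467, 0, 1417, 1549,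 1552, 1589, 1611, 1614, 1618, 0, 0, 0, 0, 1417, 1549, 1552, 1589, 1611, 1614, 1618, 0, 0, 0, 0, 1417, 1549, 1552, 1589, 1611, 1620, 1428, 0, 0, 0, 0, 1417, 1549, 1552, 1589, 1611, 1620, 1428, 0, 0, 0, 0, 1417, 1549, 1552, 1589, 1611, 1620, 1429, 0, 0, 0, 0, 1417, 1549, 1552, 1589, 1611, 1620, 1429, 0, 0, 0, 0, 1417, 1549, 1623, 1626, 1629, 1632, 1634, 0, 0, 0, 0, 1417, 1549, 1623, 1626, 1629, 1632, 1634, 0, 0, 0, 0, 1417, 1549, 1623, 1626, 1629, 1632, 1637, 0, 0, 1532, 0, 1417, 1549, 1623, 1626, 1629, 1632, 1637, 0, 0, 1533, 0, 1417, 1549, 1623, 1626, 1629, 1640, 1643, 0, 0, 1494, 0, 1417, 1549, 1623, 1626, 1629, 1640, 1643, 0, 0, 1495, 0, 1417, 1549, 1623, 1626, 1629, 1640, 1645, 0, 0, 0, 0, 1417, 1549, 1623, 1626, 1629, 1640, 1645, 0, 0, 0, 0, 1417, 1549, 1623, 1626, 1648, 1651, 1654, 0, 0, 1532, 0, 1417, 1549, 1623, 1626,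 1648, 1651, 1654, 0, 0, 1533, 0, 1417, 1549, 1623, 1626, 1648, 1651, 1656, 0, 0, 0, 0, 1417, 1549, 1623, 1626, 1648, 1651, 1656, 0, 0, 0, 0, 1417, 1549, 1623, 1626, 1648, 1658, 1428, 0, 0, 0, 0, 1417, 1549, 1623, 1626, 1648, 1658, 1428, 0, 0, 0, 0, 1417, 1549, 1623, 1626, 1648, 1658, 1429, 0, 0, 0, 0, 1417, 1549, 1623, 1626, 1648, 1658, 1429, 0, 0, 0, 0, 1417, 1549, 1623, 1660, 1428, 1428, 1428, 0, 0, 0, 0, 1417, 1549, 1623, 1660, 1428, 1428, 1428, 0, 0, 0, 0, 1417, 1549, 1623, 1660, 1428, 1428, 1429, 0, 0, 0, 0, 1417, 1549, 1623, 1660, 1428, 1428, 1429, 0, 0, 0, 0, 1417, 1549, 1623, 1660, 1428, 1429, 1428, 0, 0, 0, 0, 1417, 1549, 1623, 1660, 1428, 1429, 1428, 0, 0, 0, 0, 1417, 1549, 1623, 1660, 1428, 1429, 1429, 0, 0, 0, 0, 1417, 1549, 1623, 1660, 1428, 1429, 1429, 0, 0, 0, 0, 1417, 1549, 1623, 1660, 1429, 1428, 1428, 0, 0,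 0, 0, 1417, 1549, 1623, 1660, 1429, 1428, 1428, 0, 0, 0, 0, 1417, 1549, 1623, 1660, 1429, 1428, 1429, 0, 0, 0, 0, 1417, 1549, 1623, 1660, 1429, 1428, 1429, 0, 0, 0, 0, 1417, 1549, 1623, 1660, 1429, 1429, 1428, 0, 0, 0, 0, 1417, 1549, 1623, 1660, 1429, 1429, 1428, 0, 0, 0, 0, 1417, 1549, 1623, 1660, 1429, 1429, 1429, 0, 0, 0, 0, 1417, 1549, 1623, 1660, 1429, 1429, 1429, 0, 0, 0, 0, 0, 1662, 1665, 1668, 1671, 1672, 1673, 1674, 0, 0, 0, 1678, 1684, 1687, 1690, 1691, 1692, 1693, 0, 0, 0, 1702, 1715, 1718, 1721, 1722, 1723, 1674, 0, 0, 0, 1662, 1665, 1668, 1671, 0, 0, 1678, 1684, 1687, 1690, 0, 0, 1724, 0, 1662, 1665, 1668, 1671, 0, 0, 1702, 1715, 1718, 1721, 0, 0, 1725, 0, 1678, 1684, 1687, 1690, 0, 0, 1702, 1715, 1718, 1721, 0, 1726, 1727, 1728, 1730, 1732, 1734, 0, 0, 1735, 0, 1728, 1730, 1732, 1734, 0, 1728, 0, 1736, 0, 1728,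 1730, 1732, 1728, 1738, 0, 0, 1739, 0, 1728, 1730, 1732, 1728, 1738, 0, 1728, 0, 1740, 0, 1728, 1730, 1728, 1742, 1745, 0, 0, 1739, 0, 1728, 1730, 1728, 1742, 1745, 0, 1728, 0, 1740, 0, 1728, 1730, 1728, 1742, 1728, 1748, 0, 0, 1749, 0, 1728, 1730, 1728, 1742, 1728, 1748, 0, 1728, 0, 1750, 0, 1728, 1730, 1732, 1734, 1752, 1754, 0, 0, 1728, 1730, 1732, 1728, 1738, 1756, 1758, 0, 0, 1728, 1730, 1728, 1742, 1745, 1756, 1758, 0, 0, 1728, 1730, 1728, 1742, 1728, 1748, 1760, 1761, 0, 0, 1728, 860, 1763, 1765, 1767, 1769, 0, 0, 1728, 860, 1763, 1728, 1771, 1773, 1774, 0, 0, 1728, 860, 1728, 862, 1777, 1773, 1774, 0, 0, 1728, 860, 1728, 862, 1728, 865, 1779, 1780, 0, 0] (fun _ => true) = true := by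
  decide +kernel

theorem main {G : Type*} [Group G] (H : Subgroup G) (hH : Group.IsNilpotent H) (a g : G)
    (ma : a ∈ H) (mg : g ∈ H)
    (h0 : ∀ x ∈ H, cm (cm (cm (cm a x) x) x) x = (1 : G)) :
    cm (cm (cm (cm (cm (cm (cm (cm g a) a) a) a) a) a) a) a = (1 : G) ∧
    cm (cm (cm (cm (cm (cm (cm (cm g a) a) a) a) a) a) a) g = (1 : G) ∧
    cm (cm (cm (cm (cm (cm (cm (cm g a) a) a) a) a) a) g) a = (1 : G) ∧
    cm (cm (cm (cm (cm (cm (cm (cm g a) a) a) a) a) a) g) g = (1 : G) ∧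
    cm (cm (cm (cm (cm (cm (cm (cm g a) a) a) a) a) g) a) a = (1 : G) ∧
    cm (cm (cm (cm (cm (cm (cm (cm g a) a) a) a) a) g) a) g = (1 : G) ∧
    cm (cm (cm (cm (cm (cm (cm (cm g a) a) a) a) a) g) g) a = (1 : G) ∧
    cm (cm (cm (cm (cm (cm (cm (cm g a) a) a) a) a) g) g) g = (1 : G) ∧
    cm (cm (cm (cm (cm (cm (cm (cm g a) a) a) a) g) a) a) a = (1 : G) ∧
    cm (cm (cm (cm (cm (cm (cm (cm g a) a) a) a) g) a) a) g = (1 : G) ∧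
    cm (cm (cm (cm (cm (cm (cm (cm g a) a) a) a) g) a) g) a = (1 : G) ∧
    cm (cm (cm (cm (cm (cm (cm (cm g a) a) a) a) g) a) g) g = (1 : G) ∧
    cm (cm (cm (cm (cm (cm (cm (cm g a) a) a) a) g) g) a) a = (1 : G) ∧
    cm (cm (cm (cm (cm (cm (cm (cm g a) a) a) a) g) g) a) g = (1 : G) ∧
    cm (cm (cm (cm (cm (cm (cm (cm g a) a) a) a) g) g) g) a = (1 : G) ∧
    cm (cm (cm (cm (cm (cm (cm (cm g a) a) a) a) g) g) g) g = (1 : G) ∧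
    cm (cm (cm (cm (cm (cm (cm (cm g a) a) a) g) a) a) a) a = (1 : G) ∧
    cm (cm (cm (cm (cm (cm (cm (cm g a) a) a) g) a) a) a) g = (1 : G) ∧
    cm (cm (cm (cm (cm (cm (cm (cm g a) a) a) g) a) a) g) a = (1 : G) ∧
    cm (cm (cm (cm (cm (cm (cm (cm g a) a) a) g) a) a) g) g = (1 : G) ∧
    cm (cm (cm (cm (cm (cm (cm (cm g a) a) a) g) a) g) a) a = (1 : G) ∧
    cm (cm (cm (cm (cm (cm (cm (cm g a) a) a) g) a) g) a) g = (1 : G) ∧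
    cm (cm (cm (cm (cm (cm (cm (cm g a) a) a) g) a) g) g) a = (1 : G) ∧
    cm (cm (cm (cm (cm (cm (cm (cm g a) a) a) g) a) g) g) g = (1 : G) ∧
    cm (cm (cm (cm (cm (cm (cm (cm g a) a) a) g) g) a) a) a = (1 : G) ∧
    cm (cm (cm (cm (cm (cm (cm (cm g a) a) a) g) g) a) a) g = (1 : G) ∧
    cm (cm (cm (cm (cm (cm (cm (cm g a) a) a) g) g) a) g) a = (1 : G) ∧
    cm (cm (cm (cm (cm (cm (cm (cm g a) a) a) g) g) a) g) g = (1 : G) ∧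
    cm (cm (cm (cm (cm (cm (cm (cm g a) a) a) g) g) g) a) a = (1 : G) ∧
    cm (cm (cm (cm (cm (cm (cm (cm g a) a) a) g) g) g) a) g = (1 : G) ∧
    cm (cm (cm (cm (cm (cm (cm (cm g a) a) a) g) g) g) g) a = (1 : G) ∧
    cm (cm (cm (cm (cm (cm (cm (cm g a) a) a) g) g) g) g) g = (1 : G) ∧
    cm (cm (cm (cm (cm (cm (cm (cm g a) a) g) a) a) a) a) a = (1 : G) ∧
    cm (cm (cm (cm (cm (cm (cm (cm g a) a) g) a) a) a) a) g = (1 : G) ∧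
    cm (cm (cm (cm (cm (cm (cm (cm g a) a) g) a) a) a) g) a = (1 : G) ∧
    cm (cm (cm (cm (cm (cm (cm (cm g a) a) g) a) a) a) g) g = (1 : G) ∧
    cm (cm (cm (cm (cm (cm (cm (cm g a) a) g) a) a) g) a) a = (1 : G) ∧
    cm (cm (cm (cm (cm (cm (cm (cm g a) a) g) a) a) g) a) g = (1 : G) ∧
    cm (cm (cm (cm (cm (cm (cm (cm g a) a) g) a) a) g) g) a = (1 : G) ∧
    cm (cm (cm (cm (cm (cm (cm (cm g a) a) g) a) a) g) g) g = (1 : G) ∧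
    cm (cm (cm (cm (cm (cm (cm (cm g a) a) g) a) g) a) a) a = (1 : G) ∧
    cm (cm (cm (cm (cm (cm (cm (cm g a) a) g) a) g) a) a) g = (1 : G) ∧
    cm (cm (cm (cm (cm (cm (cm (cm g a) a) g) a) g) a) g) a = (1 : G) ∧
    cm (cm (cm (cm (cm (cm (cm (cm g a) a) g) a) g) a) g) g = (1 : G) ∧
    cm (cm (cm (cm (cm (cm (cm (cm g a) a) g) a) g) g) a) a = (1 : G) ∧
    cm (cm (cm (cm (cm (cm (cm (cm g a) a) g) a) g) g) a) g = (1 : G) ∧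
    cm (cm (cm (cm (cm (cm (cm (cm g a) a) g) a) g) g) g) a = (1 : G) ∧
    cm (cm (cm (cm (cm (cm (cm (cm g a) a) g) a) g) g) g) g = (1 : G) ∧
    cm (cm (cm (cm (cm (cm (cm (cm g a) a) g) g) a) a) a) a = (1 : G) ∧
    cm (cm (cm (cm (cm (cm (cm (cm g a) a) g) g) a) a) a) g = (1 : G) ∧
    cm (cm (cm (cm (cm (cm (cm (cm g a) a) g) g) a) a) g) a = (1 : G) ∧
    cm (cm (cm (cm (cm (cm (cm (cm g a) a) g) g) a) a) g) g = (1 : G) ∧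
    cm (cm (cm (cm (cm (cm (cm (cm g a) a) g) g) a) g) a) a = (1 : G) ∧
    cm (cm (cm (cm (cm (cm (cm (cm g a) a) g) g) a) g) a) g = (1 : G) ∧
    cm (cm (cm (cm (cm (cm (cm (cm g a) a) g) g) a) g) g) a = (1 : G) ∧
    cm (cm (cm (cm (cm (cm (cm (cm g a) a) g) g) a) g) g) g = (1 : G) ∧
    cm (cm (cm (cm (cm (cm (cm (cm g a) a) g) g) g) a) a) a = (1 : G) ∧
    cm (cm (cm (cm (cm (cm (cm (cm g a) a) g) g) g) a) a) g = (1 : G) ∧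
    cm (cm (cm (cm (cm (cm (cm (cm g a) a) g) g) g) a) g) a = (1 : G) ∧
    cm (cm (cm (cm (cm (cm (cm (cm g a) a) g) g) g) a) g) g = (1 : G) ∧
    cm (cm (cm (cm (cm (cm (cm (cm g a) a) g) g) g) g) a) a = (1 : G) ∧
    cm (cm (cm (cm (cm (cm (cm (cm g a) a) g) g) g) g) a) g = (1 : G) ∧
    cm (cm (cm (cm (cm (cm (cm (cm g a) a) g) g) g) g) g) a = (1 : G) ∧
    cm (cm (cm (cm (cm (cm (cm (cm g a) a) g) g) g) g) g) g = (1 : G) ∧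
    cm (cm (cm (cm (cm (cm (cm (cm g a) g) a) a) a) a) a) a = (1 : G) ∧
    cm (cm (cm (cm (cm (cm (cm (cm g a) g) a) a) a) a) a) g = (1 : G) ∧
    cm (cm (cm (cm (cm (cm (cm (cm g a) g) a) a) a) a) g) a = (1 : G) ∧
    cm (cm (cm (cm (cm (cm (cm (cm g a) g) a) a) a) a) g) g = (1 : G) ∧
    cm (cm (cm (cm (cm (cm (cm (cm g a) g) a) a) a) g) a) a = (1 : G) ∧
    cm (cm (cm (cm (cm (cm (cm (cm g a) g) a) a) a) g) a) g = (1 : G) ∧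
    cm (cm (cm (cm (cm (cm (cm (cm g a) g) a) a) a) g) g) a = (1 : G) ∧
    cm (cm (cm (cm (cm (cm (cm (cm g a) g) a) a) a) g) g) g = (1 : G) ∧
    cm (cm (cm (cm (cm (cm (cm (cm g a) g) a) a) g) a) a) a = (1 : G) ∧
    cm (cm (cm (cm (cm (cm (cm (cm g a) g) a) a) g) a) a) g = (1 : G) ∧
    cm (cm (cm (cm (cm (cm (cm (cm g a) g) a) a) g) a) g) a = (1 : G) ∧
    cm (cm (cm (cm (cm (cm (cm (cm g a) g) a) a) g) a) g) g = (1 : G) ∧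
    cm (cm (cm (cm (cm (cm (cm (cm g a) g) a) a) g) g) a) a = (1 : G) ∧
    cm (cm (cm (cm (cm (cm (cm (cm g a) g) a) a) g) g) a) g = (1 : G) ∧
    cm (cm (cm (cm (cm (cm (cm (cm g a) g) a) a) g) g) g) a = (1 : G) ∧
    cm (cm (cm (cm (cm (cm (cm (cm g a) g) a) a) g) g) g) g = (1 : G) ∧
    cm (cm (cm (cm (cm (cm (cm (cm g a) g) a) g) a) a) a) a = (1 : G) ∧
    cm (cm (cm (cm (cm (cm (cm (cm g a) g) a) g) a) a) a) g = (1 : G) ∧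
    cm (cm (cm (cm (cm (cm (cm (cm g a) g) a) g) a) a) g) a = (1 : G) ∧
    cm (cm (cm (cm (cm (cm (cm (cm g a) g) a) g) a) a) g) g = (1 : G) ∧
    cm (cm (cm (cm (cm (cm (cm (cm g a) g) a) g) a) g) a) a = (1 : G) ∧
    cm (cm (cm (cm (cm (cm (cm (cm g a) g) a) g) a) g) a) g = (1 : G) ∧
    cm (cm (cm (cm (cm (cm (cm (cm g a) g) a) g) a) g) g) a = (1 : G) ∧
    cm (cm (cm (cm (cm (cm (cm (cm g a) g) a) g) a) g) g) g = (1 : G) ∧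
    cm (cm (cm (cm (cm (cm (cm (cm g a) g) a) g) g) a) a) a = (1 : G) ∧
    cm (cm (cm (cm (cm (cm (cm (cm g a) g) a) g) g) a) a) g = (1 : G) ∧
    cm (cm (cm (cm (cm (cm (cm (cm g a) g) a) g) g) a) g) a = (1 : G) ∧
    cm (cm (cm (cm (cm (cm (cm (cm g a) g) a) g) g) a) g) g = (1 : G) ∧
    cm (cm (cm (cm (cm (cm (cm (cm g a) g) a) g) g) g) a) a = (1 : G) ∧
    cm (cm (cm (cm (cm (cm (cm (cm g a) g) a) g) g) g) a) g = (1 : G) ∧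
    cm (cm (cm (cm (cm (cm (cm (cm g a) g) a) g) g) g) g) a = (1 : G) ∧
    cm (cm (cm (cm (cm (cm (cm (cm g a) g) a) g) g) g) g) g = (1 : G) ∧
    cm (cm (cm (cm (cm (cm (cm (cm g a) g) g) a) a) a) a) a = (1 : G) ∧
    cm (cm (cm (cm (cm (cm (cm (cm g a) g) g) a) a) a) a) g = (1 : G) ∧
    cm (cm (cm (cm (cm (cm (cm (cm g a) g) g) a) a) a) g) a = (1 : G) ∧
    cm (cm (cm (cm (cm (cm (cm (cm g a) g) g) a) a) a) g) g = (1 : G) ∧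
    cm (cm (cm (cm (cm (cm (cm (cm g a) g) g) a) a) g) a) a = (1 : G) ∧
    cm (cm (cm (cm (cm (cm (cm (cm g a) g) g) a) a) g) a) g = (1 : G) ∧
    cm (cm (cm (cm (cm (cm (cm (cm g a) g) g) a) a) g) g) a = (1 : G) ∧
    cm (cm (cm (cm (cm (cm (cm (cm g a) g) g) a) a) g) g) g = (1 : G) ∧
    cm (cm (cm (cm (cm (cm (cm (cm g a) g) g) a) g) a) a) a = (1 : G) ∧
    cm (cm (cm (cm (cm (cm (cm (cm g a) g) g) a) g) a) a) g = (1 : G) ∧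
    cm (cm (cm (cm (cm (cm (cm (cm g a) g) g) a) g) a) g) a = (1 : G) ∧
    cm (cm (cm (cm (cm (cm (cm (cm g a) g) g) a) g) a) g) g = (1 : G) ∧
    cm (cm (cm (cm (cm (cm (cm (cm g a) g) g) a) g) g) a) a = (1 : G) ∧
    cm (cm (cm (cm (cm (cm (cm (cm g a) g) g) a) g) g) a) g = (1 : G) ∧
    cm (cm (cm (cm (cm (cm (cm (cm g a) g) g) a) g) g) g) a = (1 : G) ∧
    cm (cm (cm (cm (cm (cm (cm (cm g a) g) g) a) g) g) g) g = (1 : G) ∧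
    cm (cm (cm (cm (cm (cm (cm (cm g a) g) g) g) a) a) a) a = (1 : G) ∧
    cm (cm (cm (cm (cm (cm (cm (cm g a) g) g) g) a) a) a) g = (1 : G) ∧
    cm (cm (cm (cm (cm (cm (cm (cm g a) g) g) g) a) a) g) a = (1 : G) ∧
    cm (cm (cm (cm (cm (cm (cm (cm g a) g) g) g) a) a) g) g = (1 : G) ∧
    cm (cm (cm (cm (cm (cm (cm (cm g a) g) g) g) a) g) a) a = (1 : G) ∧
    cm (cm (cm (cm (cm (cm (cm (cm g a) g) g) g) a) g) a) g = (1 : G) ∧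
    cm (cm (cm (cm (cm (cm (cm (cm g a) g) g) g) a) g) g) a = (1 : G) ∧
    cm (cm (cm (cm (cm (cm (cm (cm g a) g) g) g) a) g) g) g = (1 : G) ∧
    cm (cm (cm (cm (cm (cm (cm (cm g a) g) g) g) g) a) a) a = (1 : G) ∧
    cm (cm (cm (cm (cm (cm (cm (cm g a) g) g) g) g) a) a) g = (1 : G) ∧
    cm (cm (cm (cm (cm (cm (cm (cm g a) g) g) g) g) a) g) a = (1 : G) ∧
    cm (cm (cm (cm (cm (cm (cm (cm g a) g) g) g) g) a) g) g = (1 : G) ∧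
    cm (cm (cm (cm (cm (cm (cm (cm g a) g) g) g) g) g) a) a = (1 : G) ∧
    cm (cm (cm (cm (cm (cm (cm (cm g a) g) g) g) g) g) a) g = (1 : G) ∧
    cm (cm (cm (cm (cm (cm (cm (cm g a) g) g) g) g) g) g) a = (1 : G) ∧
    cm (cm (cm (cm (cm (cm (cm (cm g a) g) g) g) g) g) g) g = (1 : G) ∧
    ((((cm (cm (cm (cm (a ^ (2 : ℕ)) g) g) g) g) ^ (15 : ℕ)) ^ (5 : ℕ)) ^ (5 : ℕ)) = (1 : G) ∧
    ((((cm (cm (cm (cm (a ^ (3 : ℕ)) g) g) g) g) ^ (15 : ℕ)) ^ (5 : ℕ)) ^ (5 : ℕ)) = (1 : G) ∧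
    ((((cm (cm (cm (cm (a ^ (4 : ℕ)) g) g) g) g) ^ (15 : ℕ)) ^ (5 : ℕ)) ^ (5 : ℕ)) = (1 : G) ∧
    cm (cm (cm (cm (cm (a ^ (2 : ℕ)) g) g) g) g) (cm (cm (cm (cm (a ^ (3 : ℕ)) g) g) g) g) = (1 : G) ∧
    cm (cm (cm (cm (cm (a ^ (2 : ℕ)) g) g) g) g) (cm (cm (cm (cm (a ^ (4 : ℕ)) g) g) g) g) = (1 : G) ∧
    cm (cm (cm (cm (cm (a ^ (3 : ℕ)) g) g) g) g) (cm (cm (cm (cm (a ^ (4 : ℕ)) g) g) g) g) = (1 : G) ∧
    cm (cm (cm (cm (cj a g) a) a) a) a = (1 : G) ∧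
    cm (cm (cm (cm (cj a g) a) a) a) (cj a g) = (1 : G) ∧
    cm (cm (cm (cm (cj a g) a) a) (cj a g)) a = (1 : G) ∧
    cm (cm (cm (cm (cj a g) a) a) (cj a g)) (cj a g) = (1 : G) ∧
    cm (cm (cm (cm (cj a g) a) (cj a g)) a) a = (1 : G) ∧
    cm (cm (cm (cm (cj a g) a) (cj a g)) a) (cj a g) = (1 : G) ∧
    cm (cm (cm (cm (cj a g) a) (cj a g)) (cj a g)) a = (1 : G) ∧
    cm (cm (cm (cm (cj a g) a) (cj a g)) (cj a g)) (cj a g) = (1 : G) ∧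
    (((cm (cm (cm (cj a g) a) a) a) ^ (6 : ℕ)) ^ (10 : ℕ)) = (1 : G) ∧
    (((cm (cm (cm (cj a g) a) a) (cj a g)) ^ (6 : ℕ)) ^ (10 : ℕ)) = (1 : G) ∧
    (((cm (cm (cm (cj a g) a) (cj a g)) a) ^ (6 : ℕ)) ^ (10 : ℕ)) = (1 : G) ∧
    (((cm (cm (cm (cj a g) a) (cj a g)) (cj a g)) ^ (6 : ℕ)) ^ (10 : ℕ)) = (1 : G) ∧
    (((cm (cm (cm a (cj a g)) a) a) ^ (6 : ℕ)) ^ (10 : ℕ)) = (1 : G) ∧
    (((cm (cm (cm a (cj a g)) a) (cj a g)) ^ (6 : ℕ)) ^ (10 : ℕ)) = (1 : G) ∧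
    (((cm (cm (cm a (cj a g)) (cj a g)) a) ^ (6 : ℕ)) ^ (10 : ℕ)) = (1 : G) ∧
    (((cm (cm (cm a (cj a g)) (cj a g)) (cj a g)) ^ (6 : ℕ)) ^ (10 : ℕ)) = (1 : G) := by
  have h := (base H hH a g ma mg h0).targets (by decide) rfl tgs _ tg
  have eg : gen [1, a, g] defs 1 = g := rfl
  have ea : gen [1, a, g] defs 2 = a := rfl
  simp only [AllE, tgs, Eqn.Holds, Ex.ev, ea, eg, and_true] at h
  exact h

end Pool.Agent.P.MP_9682d1_al.KB.EN
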