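import Pool.Agent.P.MP_9682d1_al.KB.F5SaB0
import Pool.Agent.P.MP_9682d1_al.KB.F5SaB1

set_option autoImplicit false
set_option maxRecDepth 100000

namespace Pool.Agent.P.MP_9682d1_al.KB.F5Sa

theorem tg : prvs 5 T (5 * 2 ^ 10) (fun _ => 0) tgs [0, 0, 4342, 0, 1353, 0, 0, 4343, 0, 1353, 0, 0, 4344, 0, 2120, 0, 0, 4345, 0, 2120, 0, 0, 4346, 0, 1349, 0, 0, 4347, 0, 1353, 4198, 0, 0, 4199, 0, 1353, 4198, 0, 0, 4348, 0, 1349, 1360, 0, 0, 4200, 0, 1349, 1360, 0, 0, 4201, 0, 1349, 2126, 0, 0, 4202, 0, 1349, 2126, 0, 0, 4203, 0] (fun _ => true) = true := by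
  decide +kernel

theorem main {G : Type*} [Group G] (a b c : G)
    (h24 : ∀ x : G, cm (cm (cj b x) b) b = (1 : G) → cm (cm (cj b x) b) (cj b x) = (1 : G) → cm (cm (cj b x) (cj b x⁻¹)) b = (1 : G))
    (h25 : ∀ x : G, cm (cm (cj b x) b) b = (1 : G) → cm (cm (cj b x) b) (cj b x) = (1 : G) → cm (cm (cj b x) (cj b x⁻¹)) (cj b x) = (1 : G))
    (h31 : ∀ x : G, cm (cm (cm (cj b x) b) b) b = (1 : G) → cm (cm (cm (cj b x) b) b) (cj b x) = (1 : G) → cm (cm (cm (cj b x) b) (cj b x)) (cj b x⁻¹) = (1 : G))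
    (h36 : ∀ x y : G, cm b y = (1 : G) → cm (cm (cm (cm (cj b x) b) b) b) y = (1 : G))
    (h55 : ∀ x y : G, cm c y = (1 : G) → cm (cm (cm (cm (cj c x) c) c) c) y = (1 : G))
    (h57 : ∀ x y : G, cm (cm a x) a = (1 : G) → cm (cm a x) x = (1 : G) → cm (cm (cm (cj a y) (cm a x)) (cm a x)) a = (1 : G))
    (h58 : ∀ x y : G, cm (cm a x) a = (1 : G) → cm (cm a x) x = (1 : G) → cm (cm (cm (cj a y) (cm a x)) (cm a x)) (cm a x) = (1 : G))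
    (h59 : ∀ x y : G, cm (cm a x) a = (1 : G) → cm (cm a x) x = (1 : G) → cm (cm (cm (cj a y) (cm a x)) (cm a x)) (cj a y) = (1 : G))
    (h60 : ∀ x y : G, cm (cm a x) a = (1 : G) → cm (cm a x) x = (1 : G) → cm (cm (cm (cj a y) (cm a x)) (cj a y)) (cm a x) = (1 : G))
    (h61 : ∀ x y : G, cm (cm a x) a = (1 : G) → cm (cm a x) x = (1 : G) → cm (cm (cm (cj a y) a) (cm a x)) (cm a x) = (1 : G))
    (h62 : ∀ x y : G, cm (cm a x) a = (1 : G) → cm (cm a x) x = (1 : G) → (cm (cm (cm (cm a x) (cj a y)) (cj a y)) (cj a y)) = ((cm (cm (cm (cj a y) a) a) (cm a x)) ^ (2 : ℕ)))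
    (h63 : ∀ x y : G, cm (cm a x) a = (1 : G) → cm (cm a x) x = (1 : G) → (cm (cm (cm (cm a x) (cj a y)) a) (cj a y)) = ((cm (cm (cm (cj a y) a) a) (cm a x))⁻¹ ^ (2 : ℕ)))
    (h64 : ∀ x y : G, cm (cm a x) a = (1 : G) → cm (cm a x) x = (1 : G) → (cm (cm (cm (cm a x) (cj a y)) a) a) = ((cm (cm (cm (cj a y) a) a) (cm a x))⁻¹ ^ (1 : ℕ)))
    (h67 : ∀ x y : G, cm (cm a x) a = (1 : G) → cm (cm a x) x = (1 : G) → cm (cm (cm (cm (cj a y) a) a) (cm a x)) (cm a x) = (1 : G))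
    (h73 : ∀ x y : G, cm (cm a x) a = (1 : G) → cm (cm a x) x = (1 : G) → cm (cm (cm (cj b y) (cm a x)) (cm a x)) a = (1 : G))
    (h74 : ∀ x y : G, cm (cm a x) a = (1 : G) → cm (cm a x) x = (1 : G) → cm (cm (cm (cj b y) (cm a x)) (cm a x)) (cm a x) = (1 : G))
    (h75 : ∀ x y : G, cm (cm a x) a = (1 : G) → cm (cm a x) x = (1 : G) → cm (cm (cm (cj b y) (cm a x)) (cm a x)) (cj b y) = (1 : G))
    (h76 : ∀ x y : G, cm (cm a x) a = (1 : G) → cm (cm a x) x = (1 : G) → cm (cm (cm (cj b y) (cm a x)) (cj b y)) (cm a x) = (1 : G))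
    (h78 : ∀ x y : G, cm (cm a x) a = (1 : G) → cm (cm a x) x = (1 : G) → (cm (cm (cm (cm a x) (cj b y)) (cj b y)) (cj b y)) = ((cm (cm (cm (cj b y) a) a) (cm a x)) ^ (2 : ℕ)))
    (h79 : ∀ x y : G, cm (cm a x) a = (1 : G) → cm (cm a x) x = (1 : G) → (cm (cm (cm (cm a x) (cj b y)) a) (cj b y)) = ((cm (cm (cm (cj b y) a) a) (cm a x))⁻¹ ^ (2 : ℕ)))
    (h80 : ∀ x y : G, cm (cm a x) a = (1 : G) → cm (cm a x) x = (1 : G) → (cm (cm (cm (cm a x) (cj b y)) a) a) = ((cm (cm (cm (cj b y) a) a) (cm a x))⁻¹ ^ (1 : ℕ)))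
    (h81 : ∀ x y : G, cm (cm a x) a = (1 : G) → cm (cm a x) x = (1 : G) → (cm (cm (cm (cm a x) (cj b y)) (cj b y)) a) = ((cm (cm (cm (cj b y) a) a) (cm a x)) * (cm (cm (cm (cj b y) a) (cj b y)) (cm a x))))
    (h89 : ∀ x y : G, cm (cm a x) a = (1 : G) → cm (cm a x) x = (1 : G) → cm (cm (cm (cj c y) (cm a x)) (cm a x)) a = (1 : G))
    (h90 : ∀ x y : G, cm (cm a x) a = (1 : G) → cm (cm a x) x = (1 : G) → cm (cm (cm (cj c y) (cm a x)) (cm a x)) (cm a x) = (1 : G))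
    (h91 : ∀ x y : G, cm (cm a x) a = (1 : G) → cm (cm a x) x = (1 : G) → cm (cm (cm (cj c y) (cm a x)) (cm a x)) (cj c y) = (1 : G))
    (h92 : ∀ x y : G, cm (cm a x) a = (1 : G) → cm (cm a x) x = (1 : G) → cm (cm (cm (cj c y) (cm a x)) (cj c y)) (cm a x) = (1 : G))
    (h93 : ∀ x y : G, cm (cm a x) a = (1 : G) → cm (cm a x) x = (1 : G) → cm (cm (cm (cj c y) a) (cm a x)) (cm a x) = (1 : G))
    (h94 : ∀ x y : G, cm (cm a x) a = (1 : G) → cm (cm a x) x = (1 : G) → (cm (cm (cm (cm a x) (cj c y)) (cj c y)) (cj c y)) = ((cm (cm (cm (cj c y) a) a) (cm a x)) ^ (2 : ℕ)))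
    (h95 : ∀ x y : G, cm (cm a x) a = (1 : G) → cm (cm a x) x = (1 : G) → (cm (cm (cm (cm a x) (cj c y)) a) (cj c y)) = ((cm (cm (cm (cj c y) a) a) (cm a x))⁻¹ ^ (2 : ℕ)))
    (h96 : ∀ x y : G, cm (cm a x) a = (1 : G) → cm (cm a x) x = (1 : G) → (cm (cm (cm (cm a x) (cj c y)) a) a) = ((cm (cm (cm (cj c y) a) a) (cm a x))⁻¹ ^ (1 : ℕ)))
    (h97 : ∀ x y : G, cm (cm a x) a = (1 : G) → cm (cm a x) x = (1 : G) → (cm (cm (cm (cm a x) (cj c y)) (cj c y)) a) = ((cm (cm (cm (cj c y) a) a) (cm a x)) * (cm (cm (cm (cj c y) a) (cj c y)) (cm a x))))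
    (h98 : ∀ x y : G, cm (cm a x) a = (1 : G) → cm (cm a x) x = (1 : G) → cm (cm (cm (cm (cj c y) a) a) (cm a x)) a = (1 : G))
    (h99 : ∀ x y : G, cm (cm a x) a = (1 : G) → cm (cm a x) x = (1 : G) → cm (cm (cm (cm (cj c y) a) a) (cm a x)) (cm a x) = (1 : G))
    (h100 : ∀ x y : G, cm (cm a x) a = (1 : G) → cm (cm a x) x = (1 : G) → cm (cm (cm (cm (cj c y) a) a) (cm a x)) (cj c y) = (1 : G))
    (h101 : ∀ x y : G, cm (cm a x) a = (1 : G) → cm (cm a x) x = (1 : G) → cm (cm (cm (cm (cj c y) a) (cj c y)) (cm a x)) a = (1 : G))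
    (h102 : ∀ x y : G, cm (cm a x) a = (1 : G) → cm (cm a x) x = (1 : G) → cm (cm (cm (cm (cj c y) a) (cj c y)) (cm a x)) (cm a x) = (1 : G))
    (h103 : ∀ x y : G, cm (cm a x) a = (1 : G) → cm (cm a x) x = (1 : G) → cm (cm (cm (cm (cj c y) a) (cj c y)) (cm a x)) (cj c y) = (1 : G))
    (h105 : ∀ x y : G, cm (cm b x) b = (1 : G) → cm (cm b x) x = (1 : G) → cm (cm (cm (cj a y) (cm b x)) (cm b x)) b = (1 : G))
    (h106 : ∀ x y : G, cm (cm b x) b = (1 : G) → cm (cm b x) x = (1 : G) → cm (cm (cm (cj a y) (cm b x)) (cm b x)) (cm b x) = (1 : G))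
    (h107 : ∀ x y : G, cm (cm b x) b = (1 : G) → cm (cm b x) x = (1 : G) → cm (cm (cm (cj a y) (cm b x)) (cm b x)) (cj a y) = (1 : G))
    (h108 : ∀ x y : G, cm (cm b x) b = (1 : G) → cm (cm b x) x = (1 : G) → cm (cm (cm (cj a y) (cm b x)) (cj a y)) (cm b x) = (1 : G))
    (h109 : ∀ x y : G, cm (cm b x) b = (1 : G) → cm (cm b x) x = (1 : G) → cm (cm (cm (cj a y) b) (cm b x)) (cm b x) = (1 : G))
    (h110 : ∀ x y : G, cm (cm b x) b = (1 : G) → cm (cm b x) x = (1 : G) → (cm (cm (cm (cm b x) (cj a y)) (cj a y)) (cj a y)) = ((cm (cm (cm (cj a y) b) b) (cm b x)) ^ (2 : ℕ)))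
    (h112 : ∀ x y : G, cm (cm b x) b = (1 : G) → cm (cm b x) x = (1 : G) → (cm (cm (cm (cm b x) (cj a y)) b) b) = ((cm (cm (cm (cj a y) b) b) (cm b x))⁻¹ ^ (1 : ℕ)))
    (h113 : ∀ x y : G, cm (cm b x) b = (1 : G) → cm (cm b x) x = (1 : G) → (cm (cm (cm (cm b x) (cj a y)) (cj a y)) b) = ((cm (cm (cm (cj a y) b) b) (cm b x)) * (cm (cm (cm (cj a y) b) (cj a y)) (cm b x))))
    (h114 : ∀ x y : G, cm (cm b x) b = (1 : G) → cm (cm b x) x = (1 : G) → cm (cm (cm (cm (cj a y) b) b) (cm b x)) b = (1 : G))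
    (h115 : ∀ x y : G, cm (cm b x) b = (1 : G) → cm (cm b x) x = (1 : G) → cm (cm (cm (cm (cj a y) b) b) (cm b x)) (cm b x) = (1 : G))
    (h117 : ∀ x y : G, cm (cm b x) b = (1 : G) → cm (cm b x) x = (1 : G) → cm (cm (cm (cm (cj a y) b) (cj a y)) (cm b x)) b = (1 : G))
    (h120 : ∀ x y : G, cm (cm b x) b = (1 : G) → cm (cm b x) x = (1 : G) → cm (cm (cm (cm (cj a y) b) b) (cj a y)) (cm b x) = (1 : G))
    (h121 : ∀ x y : G, cm (cm b x) b = (1 : G) → cm (cm b x) x = (1 : G) → cm (cm (cm (cj b y) (cm b x)) (cm b x)) b = (1 : G))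
    (h124 : ∀ x y : G, cm (cm b x) b = (1 : G) → cm (cm b x) x = (1 : G) → cm (cm (cm (cj b y) (cm b x)) (cj b y)) (cm b x) = (1 : G))
    (h125 : ∀ x y : G, cm (cm b x) b = (1 : G) → cm (cm b x) x = (1 : G) → cm (cm (cm (cj b y) b) (cm b x)) (cm b x) = (1 : G))
    (h126 : ∀ x y : G, cm (cm b x) b = (1 : G) → cm (cm b x) x = (1 : G) → (cm (cm (cm (cm b x) (cj b y)) (cj b y)) (cj b y)) = ((cm (cm (cm (cj b y) b) b) (cm b x)) ^ (2 : ℕ)))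
    (h129 : ∀ x y : G, cm (cm b x) b = (1 : G) → cm (cm b x) x = (1 : G) → (cm (cm (cm (cm b x) (cj b y)) (cj b y)) b) = ((cm (cm (cm (cj b y) b) b) (cm b x)) * (cm (cm (cm (cj b y) b) (cj b y)) (cm b x))))
    (h136 : ∀ x y : G, cm (cm b x) b = (1 : G) → cm (cm b x) x = (1 : G) → cm (cm (cm (cm (cj b y) b) b) (cj b y)) (cm b x) = (1 : G))
    (h137 : ∀ x y : G, cm (cm b x) b = (1 : G) → cm (cm b x) x = (1 : G) → cm (cm (cm (cj c y) (cm b x)) (cm b x)) b = (1 : G))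
    (h138 : ∀ x y : G, cm (cm b x) b = (1 : G) → cm (cm b x) x = (1 : G) → cm (cm (cm (cj c y) (cm b x)) (cm b x)) (cm b x) = (1 : G))
    (h139 : ∀ x y : G, cm (cm b x) b = (1 : G) → cm (cm b x) x = (1 : G) → cm (cm (cm (cj c y) (cm b x)) (cm b x)) (cj c y) = (1 : G))
    (h140 : ∀ x y : G, cm (cm b x) b = (1 : G) → cm (cm b x) x = (1 : G) → cm (cm (cm (cj c y) (cm b x)) (cj c y)) (cm b x) = (1 : G))
    (h141 : ∀ x y : G, cm (cm b x) b = (1 : G) → cm (cm b x) x = (1 : G) → cm (cm (cm (cj c y) b) (cm b x)) (cm b x) = (1 : G))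
    (h142 : ∀ x y : G, cm (cm b x) b = (1 : G) → cm (cm b x) x = (1 : G) → (cm (cm (cm (cm b x) (cj c y)) (cj c y)) (cj c y)) = ((cm (cm (cm (cj c y) b) b) (cm b x)) ^ (2 : ℕ)))
    (h143 : ∀ x y : G, cm (cm b x) b = (1 : G) → cm (cm b x) x = (1 : G) → (cm (cm (cm (cm b x) (cj c y)) b) (cj c y)) = ((cm (cm (cm (cj c y) b) b) (cm b x))⁻¹ ^ (2 : ℕ)))
    (h144 : ∀ x y : G, cm (cm b x) b = (1 : G) → cm (cm b x) x = (1 : G) → (cm (cm (cm (cm b x) (cj c y)) b) b) = ((cm (cm (cm (cj c y) b) b) (cm b x))⁻¹ ^ (1 : ℕ)))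
    (h145 : ∀ x y : G, cm (cm b x) b = (1 : G) → cm (cm b x) x = (1 : G) → (cm (cm (cm (cm b x) (cj c y)) (cj c y)) b) = ((cm (cm (cm (cj c y) b) b) (cm b x)) * (cm (cm (cm (cj c y) b) (cj c y)) (cm b x))))
    (h146 : ∀ x y : G, cm (cm b x) b = (1 : G) → cm (cm b x) x = (1 : G) → cm (cm (cm (cm (cj c y) b) b) (cm b x)) b = (1 : G))
    (h147 : ∀ x y : G, cm (cm b x) b = (1 : G) → cm (cm b x) x = (1 : G) → cm (cm (cm (cm (cj c y) b) b) (cm b x)) (cm b x) = (1 : G))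
    (h148 : ∀ x y : G, cm (cm b x) b = (1 : G) → cm (cm b x) x = (1 : G) → cm (cm (cm (cm (cj c y) b) b) (cm b x)) (cj c y) = (1 : G))
    (h149 : ∀ x y : G, cm (cm b x) b = (1 : G) → cm (cm b x) x = (1 : G) → cm (cm (cm (cm (cj c y) b) (cj c y)) (cm b x)) b = (1 : G))
    (h150 : ∀ x y : G, cm (cm b x) b = (1 : G) → cm (cm b x) x = (1 : G) → cm (cm (cm (cm (cj c y) b) (cj c y)) (cm b x)) (cm b x) = (1 : G))
    (h151 : ∀ x y : G, cm (cm b x) b = (1 : G) → cm (cm b x) x = (1 : G) → cm (cm (cm (cm (cj c y) b) (cj c y)) (cm b x)) (cj c y) = (1 : G))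
    (h158 : ∀ x y : G, cm (cm c x) c = (1 : G) → cm (cm c x) x = (1 : G) → (cm (cm (cm (cm c x) (cj a y)) (cj a y)) (cj a y)) = ((cm (cm (cm (cj a y) c) c) (cm c x)) ^ (2 : ℕ)))
    (h161 : ∀ x y : G, cm (cm c x) c = (1 : G) → cm (cm c x) x = (1 : G) → (cm (cm (cm (cm c x) (cj a y)) (cj a y)) c) = ((cm (cm (cm (cj a y) c) c) (cm c x)) * (cm (cm (cm (cj a y) c) (cj a y)) (cm c x))))
    (h174 : ∀ x y : G, cm (cm c x) c = (1 : G) → cm (cm c x) x = (1 : G) → (cm (cm (cm (cm c x) (cj b y)) (cj b y)) (cj b y)) = ((cm (cm (cm (cj b y) c) c) (cm c x)) ^ (2 : ℕ)))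
    (h175 : ∀ x y : G, cm (cm c x) c = (1 : G) → cm (cm c x) x = (1 : G) → (cm (cm (cm (cm c x) (cj b y)) c) (cj b y)) = ((cm (cm (cm (cj b y) c) c) (cm c x))⁻¹ ^ (2 : ℕ)))
    (h176 : ∀ x y : G, cm (cm c x) c = (1 : G) → cm (cm c x) x = (1 : G) → (cm (cm (cm (cm c x) (cj b y)) c) c) = ((cm (cm (cm (cj b y) c) c) (cm c x))⁻¹ ^ (1 : ℕ)))
    (h177 : ∀ x y : G, cm (cm c x) c = (1 : G) → cm (cm c x) x = (1 : G) → (cm (cm (cm (cm c x) (cj b y)) (cj b y)) c) = ((cm (cm (cm (cj b y) c) c) (cm c x)) * (cm (cm (cm (cj b y) c) (cj b y)) (cm c x))))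
    (h190 : ∀ x y : G, cm (cm c x) c = (1 : G) → cm (cm c x) x = (1 : G) → (cm (cm (cm (cm c x) (cj c y)) (cj c y)) (cj c y)) = ((cm (cm (cm (cj c y) c) c) (cm c x)) ^ (2 : ℕ)))
    (h191 : ∀ x y : G, cm (cm c x) c = (1 : G) → cm (cm c x) x = (1 : G) → (cm (cm (cm (cm c x) (cj c y)) c) (cj c y)) = ((cm (cm (cm (cj c y) c) c) (cm c x))⁻¹ ^ (2 : ℕ)))
    (h192 : ∀ x y : G, cm (cm c x) c = (1 : G) → cm (cm c x) x = (1 : G) → (cm (cm (cm (cm c x) (cj c y)) c) c) = ((cm (cm (cm (cj c y) c) c) (cm c x))⁻¹ ^ (1 : ℕ)))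
    (h202 : ∀ x y : G, cm (cm x y) a = (1 : G) → cm (cm x y) b = (1 : G) → cm (cm x y) c = (1 : G) → cm x y = (1 : G))
    (h213 : cm (cm a b) a = (1 : G))
    (h214 : cm (cm a b) b = (1 : G))
    (h215 : ∀ x : G, (x ^ (5 : ℕ)) = (1 : G))
    (h216 : ∀ x : G, cm (cm (cm (cm (cj a x) a) a) a) a = (1 : G))
    (h217 : ∀ x : G, cm (cm (cm (cm (cj a x) a) a) a) (cj a x) = (1 : G))
    (h222 : ∀ x : G, cm (cm (cm (cm (cj b x) a) a) a) a = (1 : G))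
    (h223 : ∀ x : G, cm (cm (cm (cm (cj b x) a) a) a) (cj b x) = (1 : G))
    (h224 : ∀ x : G, cm (cm (cm (cm (cj b x) a) (cj b x)) (cj b x)) a = (1 : G))
    (h225 : ∀ x : G, cm (cm (cm (cm (cj b x) a) (cj b x)) (cj b x)) (cj b x) = (1 : G))
    (h226 : ∀ x : G, (cm (cm (cm (cj b x) a) a) a) = (cm (cm (cm (cj b x) a) (cj b x)) (cj b x)))
    (h227 : ∀ x : G, (cm (cm (cm (cj b x) a) a) a) = ((cm (cm (cm (cj b x) a) a) (cj b x)) ^ (2 : ℕ)))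
    (h228 : ∀ x : G, cm (cm (cm (cm (cj c x) a) a) a) a = (1 : G))
    (h234 : ∀ x : G, cm (cm (cm (cm (cj b x) b) b) b) b = (1 : G))
    (h235 : ∀ x : G, cm (cm (cm (cm (cj b x) b) b) b) (cj b x) = (1 : G))
    (h240 : ∀ x : G, cm (cm (cm (cm (cj c x) b) b) b) b = (1 : G))
    (h241 : ∀ x : G, cm (cm (cm (cm (cj c x) b) b) b) (cj c x) = (1 : G))
    (h242 : ∀ x : G, cm (cm (cm (cm (cj c x) b) (cj c x)) (cj c x)) b = (1 : G))
    (h243 : ∀ x : G, cm (cm (cm (cm (cj c x) b) (cj c x)) (cj c x)) (cj c x) = (1 : G))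
    (h244 : ∀ x : G, (cm (cm (cm (cj c x) b) b) b) = (cm (cm (cm (cj c x) b) (cj c x)) (cj c x)))
    (h245 : ∀ x : G, (cm (cm (cm (cj c x) b) b) b) = ((cm (cm (cm (cj c x) b) b) (cj c x)) ^ (2 : ℕ)))
    (h246 : ∀ x : G, cm (cm (cm (cm (cj c x) c) c) c) c = (1 : G))
    (h247 : ∀ x : G, cm (cm (cm (cm (cj c x) c) c) c) (cj c x) = (1 : G))
    (h248 : ∀ x : G, cm (cm (cm (cm (cj c x) c) (cj c x)) (cj c x)) c = (1 : G))
    (h249 : ∀ x : G, cm (cm (cm (cm (cj c x) c) (cj c x)) (cj c x)) (cj c x) = (1 : G))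
    (h250 : ∀ x : G, (cm (cm (cm (cj c x) c) c) c) = (cm (cm (cm (cj c x) c) (cj c x)) (cj c x)))
    (h252 : ∀ x : G, (((((a⁻¹ * (cj a x⁻¹)) * a⁻¹) * (cj a x)) * (cj a⁻¹ (x ^ (2 : ℕ)))) * (cj a x)) = ((((((cj a⁻¹ (x ^ (2 : ℕ))) * (cj a x)) * a⁻¹) * (cj a x)) * a⁻¹) * (cj a x⁻¹)))
    (h253 : ∀ x : G, (((((((a⁻¹ * (cj a x⁻¹)) * (cj a⁻¹ (x⁻¹ ^ (2 : ℕ)))) * (cj a x⁻¹)) * a⁻¹) * (cj a x⁻¹)) * a⁻¹) * (cj a x)) = ((((((((cj a⁻¹ x) * a) * (cj a⁻¹ x⁻¹)) * a) * (cj a⁻¹ x)) * a) * (cj a⁻¹ x)) * (cj a (x ^ (2 : ℕ)))))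
    (h254 : ∀ x : G, (((((b⁻¹ * (cj b x⁻¹)) * b⁻¹) * (cj b x)) * (cj b⁻¹ (x ^ (2 : ℕ)))) * (cj b x)) = ((((((cj b⁻¹ (x ^ (2 : ℕ))) * (cj b x)) * b⁻¹) * (cj b x)) * b⁻¹) * (cj b x⁻¹)))
    (h255 : ∀ x : G, (((((((b⁻¹ * (cj b x⁻¹)) * (cj b⁻¹ (x⁻¹ ^ (2 : ℕ)))) * (cj b x⁻¹)) * b⁻¹) * (cj b x⁻¹)) * b⁻¹) * (cj b x)) = ((((((((cj b⁻¹ x) * b) * (cj b⁻¹ x⁻¹)) * b) * (cj b⁻¹ x)) * b) * (cj b⁻¹ x)) * (cj b (x ^ (2 : ℕ)))))
    (h256 : ∀ x : G, (((((c⁻¹ * (cj c x⁻¹)) * c⁻¹) * (cj c x)) * (cj c⁻¹ (x ^ (2 : ℕ)))) * (cj c x)) = ((((((cj c⁻¹ (x ^ (2 : ℕ))) * (cj c x)) * c⁻¹) * (cj c x)) * c⁻¹) * (cj c x⁻¹)))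
    (h257 : ∀ x : G, (((((((c⁻¹ * (cj c x⁻¹)) * (cj c⁻¹ (x⁻¹ ^ (2 : ℕ)))) * (cj c x⁻¹)) * c⁻¹) * (cj c x⁻¹)) * c⁻¹) * (cj c x)) = ((((((((cj c⁻¹ x) * c) * (cj c⁻¹ x⁻¹)) * c) * (cj c⁻¹ x)) * c) * (cj c⁻¹ x)) * (cj c (x ^ (2 : ℕ))))) :
    cm (cm (cm a b) c) (cm a b) = (1 : G) ∧
    cm (cm (cm (cm a b) c) a) a = (1 : G) ∧
    cm (cm (cm (cm a b) c) a) c = (1 : G) ∧
    cm (cm (cm (cm a b) c) b) b = (1 : G) ∧
    cm (cm (cm (cm a b) c) b) c = (1 : G) ∧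
    cm (cm (cm (cm a b) c) c) c = (1 : G) ∧
    cm (cm (cm (cm (cm a b) c) a) b) a = (1 : G) ∧
    cm (cm (cm (cm (cm a b) c) a) b) b = (1 : G) ∧
    cm (cm (cm (cm (cm a b) c) c) a) a = (1 : G) ∧
    cm (cm (cm (cm (cm a b) c) c) a) c = (1 : G) ∧
    cm (cm (cm (cm (cm a b) c) c) b) b = (1 : G) ∧
    cm (cm (cm (cm (cm a b) c) c) b) c = (1 : G) := by
  obtain ⟨t0, t1, t2, t3, t4, t5, t6, t7, t8, t9, t10, t11, -⟩ := targets (G := G) (g := nth (1 : G) [1, a, b, c, (cm a b), (cm (cm a b) c), (cm c a), (cm c b), (cm (cm (cm a b) c) a), (cm (cm (cm a b) c) b), (cm (cm (cm a b) c) c), (cm (cm (cm (cm a b) c) a) b), (cm (cm (cm (cm a b) c) c) a), (cm (cm (cm (cm a b) c) c) b)]) (by decide) rfl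
    (laws := laws) ⟨fun _ => rfl, fun _ => rfl, fun _ => rfl, fun _ => rfl, fun _ => rfl, fun _ => rfl, fun _ => rfl, fun _ => rfl, fun _ => rfl, fun _ => rfl, fun _ => h213, fun _ => h214, fun y => h222 (y 0), fun y => h223 (y 0), fun y => h224 (y 0), fun y => h225 (y 0), fun y => h226 (y 0), fun y => h227 (y 0), fun y => h228 (y 0), fun y => h240 (y 0), fun y => h241 (y 0), fun y => h242 (y 0), fun y => h243 (y 0), fun y => h244 (y 0), fun y => h245 (y 0), fun y => h215 (y 0), fun y => h254 (y 0), fun y => h255 (y 0), fun y => h234 (y 0), fun y => h235 (y 0), fun y => h252 (y 0), fun y => h253 (y 0), fun y => h256 (y 0), fun y => h216 (y 0), fun y => h217 (y 0), fun y => h257 (y 0), fun y => h246 (y 0), fun y => h247 (y 0), fun y => h250 (y 0), fun y => h55 (y 0) (y 1), fun y => h62 (y 0) (y 1), fun y => h57 (y 0) (y 1), fun y => h63 (y 0) (y 1),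 fun y => h78 (y 0) (y 1), fun y => h73 (y 0) (y 1), fun y => h75 (y 0) (y 1), fun y => h79 (y 0) (y 1), fun y => h80 (y 0) (y 1), fun y => h81 (y 0) (y 1), fun y => h94 (y 0) (y 1), fun y => h97 (y 0) (y 1), fun y => h89 (y 0) (y 1), fun y => h91 (y 0) (y 1), fun y => h95 (y 0) (y 1), fun y => h96 (y 0) (y 1), fun y => h103 (y 0) (y 1), fun y => h110 (y 0) (y 1), fun y => h126 (y 0) (y 1), fun y => h129 (y 0) (y 1), fun y => h145 (y 0) (y 1), fun y => h142 (y 0) (y 1), fun y => h158 (y 0) (y 1), fun y => h161 (y 0) (y 1), fun y => h174 (y 0) (y 1), fun y => h175 (y 0) (y 1), fun y => h176 (y 0) (y 1), fun y => h177 (y 0) (y 1), fun y => h190 (y 0) (y 1), fun y => h191 (y 0) (y 1), fun y => h192 (y 0) (y 1), fun y => h248 (y 0), fun y => h249 (y 0), fun y => h31 (y 0), fun y => h58 (y 0) (y 1), fun y => h59 (y 0) (y 1), fun y => h60 (y 0) (y 1), fun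 y => h64 (y 0) (y 1), fun y => h61 (y 0) (y 1), fun y => h67 (y 0) (y 1), fun y => h74 (y 0) (y 1), fun y => h76 (y 0) (y 1), fun y => h90 (y 0) (y 1), fun y => h92 (y 0) (y 1), fun y => h93 (y 0) (y 1), fun y => h98 (y 0) (y 1), fun y => h99 (y 0) (y 1), fun y => h100 (y 0) (y 1), fun y => h101 (y 0) (y 1), fun y => h102 (y 0) (y 1), fun y => h105 (y 0) (y 1), fun y => h108 (y 0) (y 1), fun y => h112 (y 0) (y 1), fun y => h106 (y 0) (y 1), fun y => h107 (y 0) (y 1), fun y => h109 (y 0) (y 1), fun y => h113 (y 0) (y 1), fun y => h120 (y 0) (y 1), fun y => h114 (y 0) (y 1), fun y => h115 (y 0) (y 1), fun y => h121 (y 0) (y 1), fun y => h124 (y 0) (y 1), fun y => h125 (y 0) (y 1), fun y => h136 (y 0) (y 1), fun y => h137 (y 0) (y 1), fun y => h141 (y 0) (y 1), fun y => h143 (y 0) (y 1), fun y => h144 (y 0) (y 1), fun y => h146 (y 0) (y 1), fun y => h147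 (y 0) (y 1), fun y => h148 (y 0) (y 1), fun y => h149 (y 0) (y 1), fun y => h150 (y 0) (y 1), fun y => h151 (y 0) (y 1), fun y => h139 (y 0) (y 1), fun y => h138 (y 0) (y 1), fun y => h140 (y 0) (y 1), fun y => h36 (y 0) (y 1), fun y => h117 (y 0) (y 1), fun y => h24 (y 0), fun y => h25 (y 0), fun y => h202 (y 0) (y 1), trivial⟩
    ((Upto.zero _ _ _ _ _ _) |>.succ b0 |>.succ b1 |>.succ b2 |>.succ b3 |>.succ b4) tgs _ tg
  exact ⟨t0, t1, t2, t3, t4, t5, t6, t7, t8, t9, t10, t11⟩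

end Pool.Agent.P.MP_9682d1_al.KB.F5Sa
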