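import Pool.Agent.P.MP_9682d1_al.KB.F5SbB0
import Pool.Agent.P.MP_9682d1_al.KB.F5SbB1
import Pool.Agent.P.MP_9682d1_al.KB.F5SbB2
import Pool.Agent.P.MP_9682d1_al.KB.F5SbB3

set_option autoImplicit false
set_option maxRecDepth 100000

namespace Pool.Agent.P.MP_9682d1_al.KB.F5Sb

theorem tg : prvs 6 T (16 * 2 ^ 10) (fun _ => 0) tgs [16113, 0] (fun _ => true) = true := by
  decide +kernel

theorem main {G : Type*} [Group G] (a b c : G)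
    (h0 : ∀ x : G, cm (cj a x) a = (1 : G) → cm (cj a x) (cj a x⁻¹) = (1 : G))
    (h1 : ∀ x : G, cm (cj a x) a = (1 : G) → cm (cj a (x * x)) (cj a x⁻¹) = (1 : G))
    (h2 : ∀ x : G, cm (cm (cj a x) a) a = (1 : G) → cm (cm (cj a x) a) (cj a x) = (1 : G) → cm (cm (cj a x) a) (cj a x⁻¹) = (1 : G))
    (h3 : ∀ x : G, cm (cm (cj a x) a) a = (1 : G) → cm (cm (cj a x) a) (cj a x) = (1 : G) → cm (cm (cj a x) a) (cj a (x * x)) = (1 : G))
    (h4 : ∀ x : G, cm (cm (cj a x) a) a = (1 : G) → cm (cm (cj a x) a) (cj a x) = (1 : G) → cm (cm (cj a x) a) (cj a (x⁻¹ * x⁻¹)) = (1 : G))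
    (h5 : ∀ x : G, cm (cm (cj a x) a) a = (1 : G) → cm (cm (cj a x) a) (cj a x) = (1 : G) → cm (cm (cj a x) (cj a x⁻¹)) a = (1 : G))
    (h6 : ∀ x : G, cm (cm (cj a x) a) a = (1 : G) → cm (cm (cj a x) a) (cj a x) = (1 : G) → cm (cm (cj a x) (cj a x⁻¹)) (cj a x) = (1 : G))
    (h7 : ∀ x : G, cm (cm (cj a x) a) a = (1 : G) → cm (cm (cj a x) a) (cj a x) = (1 : G) → cm (cm (cj a x) (cj a x⁻¹)) (cj a x⁻¹) = (1 : G))
    (h8 : ∀ x : G, cm (cm (cj a x) a) a = (1 : G) → cm (cm (cj a x) a) (cj a x) = (1 : G) → cm (cm (cj a x) (cj a x⁻¹)) (cj a (x * x)) = (1 : G))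
    (h10 : ∀ x : G, cm (cm (cj a x) a) a = (1 : G) → cm (cm (cj a x) a) (cj a x) = (1 : G) → cm (cm (cm (cm (cj a x) a) x) x) x = (1 : G))
    (h11 : ∀ x : G, cm (cm (cm (cj a x) a) a) a = (1 : G) → cm (cm (cm (cj a x) a) a) (cj a x) = (1 : G) → cm (cm (cm (cj a x) a) a) (cj a x⁻¹) = (1 : G))
    (h12 : ∀ x : G, cm (cm (cm (cj a x) a) a) a = (1 : G) → cm (cm (cm (cj a x) a) a) (cj a x) = (1 : G) → cm (cm (cm (cj a x) a) (cj a x)) (cj a x⁻¹) = (1 : G))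
    (h13 : ∀ x : G, cm (cm (cm (cj a x) a) a) a = (1 : G) → cm (cm (cm (cj a x) a) a) (cj a x) = (1 : G) → cm (cm (cm (cj a x) a) a) (cj a (x * x)) = (1 : G))
    (h14 : ∀ x : G, cm (cm (cm (cj a x) a) a) a = (1 : G) → cm (cm (cm (cj a x) a) a) (cj a x) = (1 : G) → cm (cm (cm (cj a x) a) (cj a x)) (cj a (x * x)) = (1 : G))
    (h17 : ∀ x y : G, cm a y = (1 : G) → cm (cm (cm (cm (cj a x) a) a) a) y = (1 : G))
    (h18 : ∀ x y : G, cm a y = (1 : G) → cm (cm (cm (cm (cj a x) a) (cj a x)) (cj a x)) y = (1 : G))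
    (h19 : ∀ x : G, cm (cj b x) b = (1 : G) → cm (cj b x) (cj b x⁻¹) = (1 : G))
    (h20 : ∀ x : G, cm (cj b x) b = (1 : G) → cm (cj b (x * x)) (cj b x⁻¹) = (1 : G))
    (h21 : ∀ x : G, cm (cm (cj b x) b) b = (1 : G) → cm (cm (cj b x) b) (cj b x) = (1 : G) → cm (cm (cj b x) b) (cj b x⁻¹) = (1 : G))
    (h24 : ∀ x : G, cm (cm (cj b x) b) b = (1 : G) → cm (cm (cj b x) b) (cj b x) = (1 : G) → cm (cm (cj b x) (cj b x⁻¹)) b = (1 : G))
    (h25 : ∀ x : G, cm (cm (cj b x) b) b = (1 : G) → cm (cm (cj b x) b) (cj b x) = (1 : G) → cm (cm (cj b x) (cj b x⁻¹)) (cj b x) = (1 : G))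
    (h26 : ∀ x : G, cm (cm (cj b x) b) b = (1 : G) → cm (cm (cj b x) b) (cj b x) = (1 : G) → cm (cm (cj b x) (cj b x⁻¹)) (cj b x⁻¹) = (1 : G))
    (h27 : ∀ x : G, cm (cm (cj b x) b) b = (1 : G) → cm (cm (cj b x) b) (cj b x) = (1 : G) → cm (cm (cj b x) (cj b x⁻¹)) (cj b (x * x)) = (1 : G))
    (h28 : ∀ x : G, cm (cm (cj b x) b) b = (1 : G) → cm (cm (cj b x) b) (cj b x) = (1 : G) → cm (cm (cj b x) (cj b x⁻¹)) (cj b (x⁻¹ * x⁻¹)) = (1 : G))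
    (h31 : ∀ x : G, cm (cm (cm (cj b x) b) b) b = (1 : G) → cm (cm (cm (cj b x) b) b) (cj b x) = (1 : G) → cm (cm (cm (cj b x) b) (cj b x)) (cj b x⁻¹) = (1 : G))
    (h32 : ∀ x : G, cm (cm (cm (cj b x) b) b) b = (1 : G) → cm (cm (cm (cj b x) b) b) (cj b x) = (1 : G) → cm (cm (cm (cj b x) b) b) (cj b (x * x)) = (1 : G))
    (h33 : ∀ x : G, cm (cm (cm (cj b x) b) b) b = (1 : G) → cm (cm (cm (cj b x) b) b) (cj b x) = (1 : G) → cm (cm (cm (cj b x) b) (cj b x)) (cj b (x * x)) = (1 : G))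
    (h34 : ∀ x y : G, cm b y = (1 : G) → cm (cj b x) y = (1 : G) → cm (cj b x⁻¹) y = (1 : G) → cm (cj b (x * x)) y = (1 : G))
    (h36 : ∀ x y : G, cm b y = (1 : G) → cm (cm (cm (cm (cj b x) b) b) b) y = (1 : G))
    (h37 : ∀ x y : G, cm b y = (1 : G) → cm (cm (cm (cm (cj b x) b) (cj b x)) (cj b x)) y = (1 : G))
    (h41 : ∀ x : G, cm (cm (cj c x) c) c = (1 : G) → cm (cm (cj c x) c) (cj c x) = (1 : G) → cm (cm (cj c x) c) (cj c (x * x)) = (1 : G))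
    (h42 : ∀ x : G, cm (cm (cj c x) c) c = (1 : G) → cm (cm (cj c x) c) (cj c x) = (1 : G) → cm (cm (cj c x) c) (cj c (x⁻¹ * x⁻¹)) = (1 : G))
    (h43 : ∀ x : G, cm (cm (cj c x) c) c = (1 : G) → cm (cm (cj c x) c) (cj c x) = (1 : G) → cm (cm (cj c x) (cj c x⁻¹)) c = (1 : G))
    (h44 : ∀ x : G, cm (cm (cj c x) c) c = (1 : G) → cm (cm (cj c x) c) (cj c x) = (1 : G) → cm (cm (cj c x) (cj c x⁻¹)) (cj c x) = (1 : G))
    (h46 : ∀ x : G, cm (cm (cj c x) c) c = (1 : G) → cm (cm (cj c x) c) (cj c x) = (1 : G) → cm (cm (cj c x) (cj c x⁻¹)) (cj c (x * x)) = (1 : G))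
    (h47 : ∀ x : G, cm (cm (cj c x) c) c = (1 : G) → cm (cm (cj c x) c) (cj c x) = (1 : G) → cm (cm (cj c x) (cj c x⁻¹)) (cj c (x⁻¹ * x⁻¹)) = (1 : G))
    (h50 : ∀ x : G, cm (cm (cm (cj c x) c) c) c = (1 : G) → cm (cm (cm (cj c x) c) c) (cj c x) = (1 : G) → cm (cm (cm (cj c x) c) (cj c x)) (cj c x⁻¹) = (1 : G))
    (h52 : ∀ x : G, cm (cm (cm (cj c x) c) c) c = (1 : G) → cm (cm (cm (cj c x) c) c) (cj c x) = (1 : G) → cm (cm (cm (cj c x) c) (cj c x)) (cj c (x * x)) = (1 : G))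
    (h55 : ∀ x y : G, cm c y = (1 : G) → cm (cm (cm (cm (cj c x) c) c) c) y = (1 : G))
    (h56 : ∀ x y : G, cm c y = (1 : G) → cm (cm (cm (cm (cj c x) c) (cj c x)) (cj c x)) y = (1 : G))
    (h57 : ∀ x y : G, cm (cm a x) a = (1 : G) → cm (cm a x) x = (1 : G) → cm (cm (cm (cj a y) (cm a x)) (cm a x)) a = (1 : G))
    (h58 : ∀ x y : G, cm (cm a x) a = (1 : G) → cm (cm a x) x = (1 : G) → cm (cm (cm (cj a y) (cm a x)) (cm a x)) (cm a x) = (1 : G))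
    (h59 : ∀ x y : G, cm (cm a x) a = (1 : G) → cm (cm a x) x = (1 : G) → cm (cm (cm (cj a y) (cm a x)) (cm a x)) (cj a y) = (1 : G))
    (h60 : ∀ x y : G, cm (cm a x) a = (1 : G) → cm (cm a x) x = (1 : G) → cm (cm (cm (cj a y) (cm a x)) (cj a y)) (cm a x) = (1 : G))
    (h62 : ∀ x y : G, cm (cm a x) a = (1 : G) → cm (cm a x) x = (1 : G) → (cm (cm (cm (cm a x) (cj a y)) (cj a y)) (cj a y)) = ((cm (cm (cm (cj a y) a) a) (cm a x)) ^ (2 : ℕ)))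
    (h63 : ∀ x y : G, cm (cm a x) a = (1 : G) → cm (cm a x) x = (1 : G) → (cm (cm (cm (cm a x) (cj a y)) a) (cj a y)) = ((cm (cm (cm (cj a y) a) a) (cm a x))⁻¹ ^ (2 : ℕ)))
    (h64 : ∀ x y : G, cm (cm a x) a = (1 : G) → cm (cm a x) x = (1 : G) → (cm (cm (cm (cm a x) (cj a y)) a) a) = ((cm (cm (cm (cj a y) a) a) (cm a x))⁻¹ ^ (1 : ℕ)))
    (h65 : ∀ x y : G, cm (cm a x) a = (1 : G) → cm (cm a x) x = (1 : G) → (cm (cm (cm (cm a x) (cj a y)) (cj a y)) a) = ((cm (cm (cm (cj a y) a) a) (cm a x)) * (cm (cm (cm (cj a y) a) (cj a y)) (cm a x))))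
    (h66 : ∀ x y : G, cm (cm a x) a = (1 : G) → cm (cm a x) x = (1 : G) → cm (cm (cm (cm (cj a y) a) a) (cm a x)) a = (1 : G))
    (h68 : ∀ x y : G, cm (cm a x) a = (1 : G) → cm (cm a x) x = (1 : G) → cm (cm (cm (cm (cj a y) a) a) (cm a x)) (cj a y) = (1 : G))
    (h69 : ∀ x y : G, cm (cm a x) a = (1 : G) → cm (cm a x) x = (1 : G) → cm (cm (cm (cm (cj a y) a) (cj a y)) (cm a x)) a = (1 : G))
    (h71 : ∀ x y : G, cm (cm a x) a = (1 : G) → cm (cm a x) x = (1 : G) → cm (cm (cm (cm (cj a y) a) (cj a y)) (cm a x)) (cj a y) = (1 : G))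
    (h72 : ∀ x y : G, cm (cm a x) a = (1 : G) → cm (cm a x) x = (1 : G) → cm (cm (cm (cm (cj a y) a) a) (cj a y)) (cm a x) = (1 : G))
    (h73 : ∀ x y : G, cm (cm a x) a = (1 : G) → cm (cm a x) x = (1 : G) → cm (cm (cm (cj b y) (cm a x)) (cm a x)) a = (1 : G))
    (h74 : ∀ x y : G, cm (cm a x) a = (1 : G) → cm (cm a x) x = (1 : G) → cm (cm (cm (cj b y) (cm a x)) (cm a x)) (cm a x) = (1 : G))
    (h75 : ∀ x y : G, cm (cm a x) a = (1 : G) → cm (cm a x) x = (1 : G) → cm (cm (cm (cj b y) (cm a x)) (cm a x)) (cj b y) = (1 : G))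
    (h76 : ∀ x y : G, cm (cm a x) a = (1 : G) → cm (cm a x) x = (1 : G) → cm (cm (cm (cj b y) (cm a x)) (cj b y)) (cm a x) = (1 : G))
    (h77 : ∀ x y : G, cm (cm a x) a = (1 : G) → cm (cm a x) x = (1 : G) → cm (cm (cm (cj b y) a) (cm a x)) (cm a x) = (1 : G))
    (h78 : ∀ x y : G, cm (cm a x) a = (1 : G) → cm (cm a x) x = (1 : G) → (cm (cm (cm (cm a x) (cj b y)) (cj b y)) (cj b y)) = ((cm (cm (cm (cj b y) a) a) (cm a x)) ^ (2 : ℕ)))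
    (h79 : ∀ x y : G, cm (cm a x) a = (1 : G) → cm (cm a x) x = (1 : G) → (cm (cm (cm (cm a x) (cj b y)) a) (cj b y)) = ((cm (cm (cm (cj b y) a) a) (cm a x))⁻¹ ^ (2 : ℕ)))
    (h80 : ∀ x y : G, cm (cm a x) a = (1 : G) → cm (cm a x) x = (1 : G) → (cm (cm (cm (cm a x) (cj b y)) a) a) = ((cm (cm (cm (cj b y) a) a) (cm a x))⁻¹ ^ (1 : ℕ)))
    (h81 : ∀ x y : G, cm (cm a x) a = (1 : G) → cm (cm a x) x = (1 : G) → (cm (cm (cm (cm a x) (cj b y)) (cj b y)) a) = ((cm (cm (cm (cj b y) a) a) (cm a x)) * (cm (cm (cm (cj b y) a) (cj b y)) (cm a x))))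
    (h82 : ∀ x y : G, cm (cm a x) a = (1 : G) → cm (cm a x) x = (1 : G) → cm (cm (cm (cm (cj b y) a) a) (cm a x)) a = (1 : G))
    (h83 : ∀ x y : G, cm (cm a x) a = (1 : G) → cm (cm a x) x = (1 : G) → cm (cm (cm (cm (cj b y) a) a) (cm a x)) (cm a x) = (1 : G))
    (h84 : ∀ x y : G, cm (cm a x) a = (1 : G) → cm (cm a x) x = (1 : G) → cm (cm (cm (cm (cj b y) a) a) (cm a x)) (cj b y) = (1 : G))
    (h85 : ∀ x y : G, cm (cm a x) a = (1 : G) → cm (cm a x) x = (1 : G) → cm (cm (cm (cm (cj b y) a) (cj b y)) (cm a x)) a = (1 : G))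
    (h86 : ∀ x y : G, cm (cm a x) a = (1 : G) → cm (cm a x) x = (1 : G) → cm (cm (cm (cm (cj b y) a) (cj b y)) (cm a x)) (cm a x) = (1 : G))
    (h87 : ∀ x y : G, cm (cm a x) a = (1 : G) → cm (cm a x) x = (1 : G) → cm (cm (cm (cm (cj b y) a) (cj b y)) (cm a x)) (cj b y) = (1 : G))
    (h88 : ∀ x y : G, cm (cm a x) a = (1 : G) → cm (cm a x) x = (1 : G) → cm (cm (cm (cm (cj b y) a) a) (cj b y)) (cm a x) = (1 : G))
    (h89 : ∀ x y : G, cm (cm a x) a = (1 : G) → cm (cm a x) x = (1 : G) → cm (cm (cm (cj c y) (cm a x)) (cm a x)) a = (1 : G))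
    (h90 : ∀ x y : G, cm (cm a x) a = (1 : G) → cm (cm a x) x = (1 : G) → cm (cm (cm (cj c y) (cm a x)) (cm a x)) (cm a x) = (1 : G))
    (h91 : ∀ x y : G, cm (cm a x) a = (1 : G) → cm (cm a x) x = (1 : G) → cm (cm (cm (cj c y) (cm a x)) (cm a x)) (cj c y) = (1 : G))
    (h92 : ∀ x y : G, cm (cm a x) a = (1 : G) → cm (cm a x) x = (1 : G) → cm (cm (cm (cj c y) (cm a x)) (cj c y)) (cm a x) = (1 : G))
    (h93 : ∀ x y : G, cm (cm a x) a = (1 : G) → cm (cm a x) x = (1 : G) → cm (cm (cm (cj c y) a) (cm a x)) (cm a x) = (1 : G))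
    (h94 : ∀ x y : G, cm (cm a x) a = (1 : G) → cm (cm a x) x = (1 : G) → (cm (cm (cm (cm a x) (cj c y)) (cj c y)) (cj c y)) = ((cm (cm (cm (cj c y) a) a) (cm a x)) ^ (2 : ℕ)))
    (h95 : ∀ x y : G, cm (cm a x) a = (1 : G) → cm (cm a x) x = (1 : G) → (cm (cm (cm (cm a x) (cj c y)) a) (cj c y)) = ((cm (cm (cm (cj c y) a) a) (cm a x))⁻¹ ^ (2 : ℕ)))
    (h96 : ∀ x y : G, cm (cm a x) a = (1 : G) → cm (cm a x) x = (1 : G) → (cm (cm (cm (cm a x) (cj c y)) a) a) = ((cm (cm (cm (cj c y) a) a) (cm a x))⁻¹ ^ (1 : ℕ)))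
    (h97 : ∀ x y : G, cm (cm a x) a = (1 : G) → cm (cm a x) x = (1 : G) → (cm (cm (cm (cm a x) (cj c y)) (cj c y)) a) = ((cm (cm (cm (cj c y) a) a) (cm a x)) * (cm (cm (cm (cj c y) a) (cj c y)) (cm a x))))
    (h98 : ∀ x y : G, cm (cm a x) a = (1 : G) → cm (cm a x) x = (1 : G) → cm (cm (cm (cm (cj c y) a) a) (cm a x)) a = (1 : G))
    (h99 : ∀ x y : G, cm (cm a x) a = (1 : G) → cm (cm a x) x = (1 : G) → cm (cm (cm (cm (cj c y) a) a) (cm a x)) (cm a x) = (1 : G))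
    (h100 : ∀ x y : G, cm (cm a x) a = (1 : G) → cm (cm a x) x = (1 : G) → cm (cm (cm (cm (cj c y) a) a) (cm a x)) (cj c y) = (1 : G))
    (h101 : ∀ x y : G, cm (cm a x) a = (1 : G) → cm (cm a x) x = (1 : G) → cm (cm (cm (cm (cj c y) a) (cj c y)) (cm a x)) a = (1 : G))
    (h102 : ∀ x y : G, cm (cm a x) a = (1 : G) → cm (cm a x) x = (1 : G) → cm (cm (cm (cm (cj c y) a) (cj c y)) (cm a x)) (cm a x) = (1 : G))
    (h103 : ∀ x y : G, cm (cm a x) a = (1 : G) → cm (cm a x) x = (1 : G) → cm (cm (cm (cm (cj c y) a) (cj c y)) (cm a x)) (cj c y) = (1 : G))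
    (h104 : ∀ x y : G, cm (cm a x) a = (1 : G) → cm (cm a x) x = (1 : G) → cm (cm (cm (cm (cj c y) a) a) (cj c y)) (cm a x) = (1 : G))
    (h105 : ∀ x y : G, cm (cm b x) b = (1 : G) → cm (cm b x) x = (1 : G) → cm (cm (cm (cj a y) (cm b x)) (cm b x)) b = (1 : G))
    (h106 : ∀ x y : G, cm (cm b x) b = (1 : G) → cm (cm b x) x = (1 : G) → cm (cm (cm (cj a y) (cm b x)) (cm b x)) (cm b x) = (1 : G))
    (h108 : ∀ x y : G, cm (cm b x) b = (1 : G) → cm (cm b x) x = (1 : G) → cm (cm (cm (cj a y) (cm b x)) (cj a y)) (cm b x) = (1 : G))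
    (h109 : ∀ x y : G, cm (cm b x) b = (1 : G) → cm (cm b x) x = (1 : G) → cm (cm (cm (cj a y) b) (cm b x)) (cm b x) = (1 : G))
    (h110 : ∀ x y : G, cm (cm b x) b = (1 : G) → cm (cm b x) x = (1 : G) → (cm (cm (cm (cm b x) (cj a y)) (cj a y)) (cj a y)) = ((cm (cm (cm (cj a y) b) b) (cm b x)) ^ (2 : ℕ)))
    (h111 : ∀ x y : G, cm (cm b x) b = (1 : G) → cm (cm b x) x = (1 : G) → (cm (cm (cm (cm b x) (cj a y)) b) (cj a y)) = ((cm (cm (cm (cj a y) b) b) (cm b x))⁻¹ ^ (2 : ℕ)))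
    (h112 : ∀ x y : G, cm (cm b x) b = (1 : G) → cm (cm b x) x = (1 : G) → (cm (cm (cm (cm b x) (cj a y)) b) b) = ((cm (cm (cm (cj a y) b) b) (cm b x))⁻¹ ^ (1 : ℕ)))
    (h113 : ∀ x y : G, cm (cm b x) b = (1 : G) → cm (cm b x) x = (1 : G) → (cm (cm (cm (cm b x) (cj a y)) (cj a y)) b) = ((cm (cm (cm (cj a y) b) b) (cm b x)) * (cm (cm (cm (cj a y) b) (cj a y)) (cm b x))))
    (h114 : ∀ x y : G, cm (cm b x) b = (1 : G) → cm (cm b x) x = (1 : G) → cm (cm (cm (cm (cj a y) b) b) (cm b x)) b = (1 : G))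
    (h116 : ∀ x y : G, cm (cm b x) b = (1 : G) → cm (cm b x) x = (1 : G) → cm (cm (cm (cm (cj a y) b) b) (cm b x)) (cj a y) = (1 : G))
    (h120 : ∀ x y : G, cm (cm b x) b = (1 : G) → cm (cm b x) x = (1 : G) → cm (cm (cm (cm (cj a y) b) b) (cj a y)) (cm b x) = (1 : G))
    (h121 : ∀ x y : G, cm (cm b x) b = (1 : G) → cm (cm b x) x = (1 : G) → cm (cm (cm (cj b y) (cm b x)) (cm b x)) b = (1 : G))
    (h122 : ∀ x y : G, cm (cm b x) b = (1 : G) → cm (cm b x) x = (1 : G) → cm (cm (cm (cj b y) (cm b x)) (cm b x)) (cm b x) = (1 : G))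
    (h123 : ∀ x y : G, cm (cm b x) b = (1 : G) → cm (cm b x) x = (1 : G) → cm (cm (cm (cj b y) (cm b x)) (cm b x)) (cj b y) = (1 : G))
    (h125 : ∀ x y : G, cm (cm b x) b = (1 : G) → cm (cm b x) x = (1 : G) → cm (cm (cm (cj b y) b) (cm b x)) (cm b x) = (1 : G))
    (h126 : ∀ x y : G, cm (cm b x) b = (1 : G) → cm (cm b x) x = (1 : G) → (cm (cm (cm (cm b x) (cj b y)) (cj b y)) (cj b y)) = ((cm (cm (cm (cj b y) b) b) (cm b x)) ^ (2 : ℕ)))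
    (h127 : ∀ x y : G, cm (cm b x) b = (1 : G) → cm (cm b x) x = (1 : G) → (cm (cm (cm (cm b x) (cj b y)) b) (cj b y)) = ((cm (cm (cm (cj b y) b) b) (cm b x))⁻¹ ^ (2 : ℕ)))
    (h128 : ∀ x y : G, cm (cm b x) b = (1 : G) → cm (cm b x) x = (1 : G) → (cm (cm (cm (cm b x) (cj b y)) b) b) = ((cm (cm (cm (cj b y) b) b) (cm b x))⁻¹ ^ (1 : ℕ)))
    (h129 : ∀ x y : G, cm (cm b x) b = (1 : G) → cm (cm b x) x = (1 : G) → (cm (cm (cm (cm b x) (cj b y)) (cj b y)) b) = ((cm (cm (cm (cj b y) b) b) (cm b x)) * (cm (cm (cm (cj b y) b) (cj b y)) (cm b x))))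
    (h130 : ∀ x y : G, cm (cm b x) b = (1 : G) → cm (cm b x) x = (1 : G) → cm (cm (cm (cm (cj b y) b) b) (cm b x)) b = (1 : G))
    (h132 : ∀ x y : G, cm (cm b x) b = (1 : G) → cm (cm b x) x = (1 : G) → cm (cm (cm (cm (cj b y) b) b) (cm b x)) (cj b y) = (1 : G))
    (h133 : ∀ x y : G, cm (cm b x) b = (1 : G) → cm (cm b x) x = (1 : G) → cm (cm (cm (cm (cj b y) b) (cj b y)) (cm b x)) b = (1 : G))
    (h135 : ∀ x y : G, cm (cm b x) b = (1 : G) → cm (cm b x) x = (1 : G) → cm (cm (cm (cm (cj b y) b) (cj b y)) (cm b x)) (cj b y) = (1 : G))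
    (h137 : ∀ x y : G, cm (cm b x) b = (1 : G) → cm (cm b x) x = (1 : G) → cm (cm (cm (cj c y) (cm b x)) (cm b x)) b = (1 : G))
    (h140 : ∀ x y : G, cm (cm b x) b = (1 : G) → cm (cm b x) x = (1 : G) → cm (cm (cm (cj c y) (cm b x)) (cj c y)) (cm b x) = (1 : G))
    (h141 : ∀ x y : G, cm (cm b x) b = (1 : G) → cm (cm b x) x = (1 : G) → cm (cm (cm (cj c y) b) (cm b x)) (cm b x) = (1 : G))
    (h142 : ∀ x y : G, cm (cm b x) b = (1 : G) → cm (cm b x) x = (1 : G) → (cm (cm (cm (cm b x) (cj c y)) (cj c y)) (cj c y)) = ((cm (cm (cm (cj c y) b) b) (cm b x)) ^ (2 : ℕ)))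
    (h143 : ∀ x y : G, cm (cm b x) b = (1 : G) → cm (cm b x) x = (1 : G) → (cm (cm (cm (cm b x) (cj c y)) b) (cj c y)) = ((cm (cm (cm (cj c y) b) b) (cm b x))⁻¹ ^ (2 : ℕ)))
    (h144 : ∀ x y : G, cm (cm b x) b = (1 : G) → cm (cm b x) x = (1 : G) → (cm (cm (cm (cm b x) (cj c y)) b) b) = ((cm (cm (cm (cj c y) b) b) (cm b x))⁻¹ ^ (1 : ℕ)))
    (h145 : ∀ x y : G, cm (cm b x) b = (1 : G) → cm (cm b x) x = (1 : G) → (cm (cm (cm (cm b x) (cj c y)) (cj c y)) b) = ((cm (cm (cm (cj c y) b) b) (cm b x)) * (cm (cm (cm (cj c y) b) (cj c y)) (cm b x))))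
    (h146 : ∀ x y : G, cm (cm b x) b = (1 : G) → cm (cm b x) x = (1 : G) → cm (cm (cm (cm (cj c y) b) b) (cm b x)) b = (1 : G))
    (h147 : ∀ x y : G, cm (cm b x) b = (1 : G) → cm (cm b x) x = (1 : G) → cm (cm (cm (cm (cj c y) b) b) (cm b x)) (cm b x) = (1 : G))
    (h148 : ∀ x y : G, cm (cm b x) b = (1 : G) → cm (cm b x) x = (1 : G) → cm (cm (cm (cm (cj c y) b) b) (cm b x)) (cj c y) = (1 : G))
    (h149 : ∀ x y : G, cm (cm b x) b = (1 : G) → cm (cm b x) x = (1 : G) → cm (cm (cm (cm (cj c y) b) (cj c y)) (cm b x)) b = (1 : G))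
    (h150 : ∀ x y : G, cm (cm b x) b = (1 : G) → cm (cm b x) x = (1 : G) → cm (cm (cm (cm (cj c y) b) (cj c y)) (cm b x)) (cm b x) = (1 : G))
    (h151 : ∀ x y : G, cm (cm b x) b = (1 : G) → cm (cm b x) x = (1 : G) → cm (cm (cm (cm (cj c y) b) (cj c y)) (cm b x)) (cj c y) = (1 : G))
    (h152 : ∀ x y : G, cm (cm b x) b = (1 : G) → cm (cm b x) x = (1 : G) → cm (cm (cm (cm (cj c y) b) b) (cj c y)) (cm b x) = (1 : G))
    (h153 : ∀ x y : G, cm (cm c x) c = (1 : G) → cm (cm c x) x = (1 : G) → cm (cm (cm (cj a y) (cm c x)) (cm c x)) c = (1 : G))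
    (h155 : ∀ x y : G, cm (cm c x) c = (1 : G) → cm (cm c x) x = (1 : G) → cm (cm (cm (cj a y) (cm c x)) (cm c x)) (cj a y) = (1 : G))
    (h156 : ∀ x y : G, cm (cm c x) c = (1 : G) → cm (cm c x) x = (1 : G) → cm (cm (cm (cj a y) (cm c x)) (cj a y)) (cm c x) = (1 : G))
    (h157 : ∀ x y : G, cm (cm c x) c = (1 : G) → cm (cm c x) x = (1 : G) → cm (cm (cm (cj a y) c) (cm c x)) (cm c x) = (1 : G))
    (h158 : ∀ x y : G, cm (cm c x) c = (1 : G) → cm (cm c x) x = (1 : G) → (cm (cm (cm (cm c x) (cj a y)) (cj a y)) (cj a y)) = ((cm (cm (cm (cj a y) c) c) (cm c x)) ^ (2 : ℕ)))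
    (h159 : ∀ x y : G, cm (cm c x) c = (1 : G) → cm (cm c x) x = (1 : G) → (cm (cm (cm (cm c x) (cj a y)) c) (cj a y)) = ((cm (cm (cm (cj a y) c) c) (cm c x))⁻¹ ^ (2 : ℕ)))
    (h160 : ∀ x y : G, cm (cm c x) c = (1 : G) → cm (cm c x) x = (1 : G) → (cm (cm (cm (cm c x) (cj a y)) c) c) = ((cm (cm (cm (cj a y) c) c) (cm c x))⁻¹ ^ (1 : ℕ)))
    (h161 : ∀ x y : G, cm (cm c x) c = (1 : G) → cm (cm c x) x = (1 : G) → (cm (cm (cm (cm c x) (cj a y)) (cj a y)) c) = ((cm (cm (cm (cj a y) c) c) (cm c x)) * (cm (cm (cm (cj a y) c) (cj a y)) (cm c x))))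
    (h162 : ∀ x y : G, cm (cm c x) c = (1 : G) → cm (cm c x) x = (1 : G) → cm (cm (cm (cm (cj a y) c) c) (cm c x)) c = (1 : G))
    (h165 : ∀ x y : G, cm (cm c x) c = (1 : G) → cm (cm c x) x = (1 : G) → cm (cm (cm (cm (cj a y) c) (cj a y)) (cm c x)) c = (1 : G))
    (h166 : ∀ x y : G, cm (cm c x) c = (1 : G) → cm (cm c x) x = (1 : G) → cm (cm (cm (cm (cj a y) c) (cj a y)) (cm c x)) (cm c x) = (1 : G))
    (h167 : ∀ x y : G, cm (cm c x) c = (1 : G) → cm (cm c x) x = (1 : G) → cm (cm (cm (cm (cj a y) c) (cj a y)) (cm c x)) (cj a y) = (1 : G))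
    (h168 : ∀ x y : G, cm (cm c x) c = (1 : G) → cm (cm c x) x = (1 : G) → cm (cm (cm (cm (cj a y) c) c) (cj a y)) (cm c x) = (1 : G))
    (h169 : ∀ x y : G, cm (cm c x) c = (1 : G) → cm (cm c x) x = (1 : G) → cm (cm (cm (cj b y) (cm c x)) (cm c x)) c = (1 : G))
    (h170 : ∀ x y : G, cm (cm c x) c = (1 : G) → cm (cm c x) x = (1 : G) → cm (cm (cm (cj b y) (cm c x)) (cm c x)) (cm c x) = (1 : G))
    (h171 : ∀ x y : G, cm (cm c x) c = (1 : G) → cm (cm c x) x = (1 : G) → cm (cm (cm (cj b y) (cm c x)) (cm c x)) (cj b y) = (1 : G))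
    (h172 : ∀ x y : G, cm (cm c x) c = (1 : G) → cm (cm c x) x = (1 : G) → cm (cm (cm (cj b y) (cm c x)) (cj b y)) (cm c x) = (1 : G))
    (h173 : ∀ x y : G, cm (cm c x) c = (1 : G) → cm (cm c x) x = (1 : G) → cm (cm (cm (cj b y) c) (cm c x)) (cm c x) = (1 : G))
    (h174 : ∀ x y : G, cm (cm c x) c = (1 : G) → cm (cm c x) x = (1 : G) → (cm (cm (cm (cm c x) (cj b y)) (cj b y)) (cj b y)) = ((cm (cm (cm (cj b y) c) c) (cm c x)) ^ (2 : ℕ)))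
    (h175 : ∀ x y : G, cm (cm c x) c = (1 : G) → cm (cm c x) x = (1 : G) → (cm (cm (cm (cm c x) (cj b y)) c) (cj b y)) = ((cm (cm (cm (cj b y) c) c) (cm c x))⁻¹ ^ (2 : ℕ)))
    (h176 : ∀ x y : G, cm (cm c x) c = (1 : G) → cm (cm c x) x = (1 : G) → (cm (cm (cm (cm c x) (cj b y)) c) c) = ((cm (cm (cm (cj b y) c) c) (cm c x))⁻¹ ^ (1 : ℕ)))
    (h177 : ∀ x y : G, cm (cm c x) c = (1 : G) → cm (cm c x) x = (1 : G) → (cm (cm (cm (cm c x) (cj b y)) (cj b y)) c) = ((cm (cm (cm (cj b y) c) c) (cm c x)) * (cm (cm (cm (cj b y) c) (cj b y)) (cm c x))))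
    (h178 : ∀ x y : G, cm (cm c x) c = (1 : G) → cm (cm c x) x = (1 : G) → cm (cm (cm (cm (cj b y) c) c) (cm c x)) c = (1 : G))
    (h179 : ∀ x y : G, cm (cm c x) c = (1 : G) → cm (cm c x) x = (1 : G) → cm (cm (cm (cm (cj b y) c) c) (cm c x)) (cm c x) = (1 : G))
    (h180 : ∀ x y : G, cm (cm c x) c = (1 : G) → cm (cm c x) x = (1 : G) → cm (cm (cm (cm (cj b y) c) c) (cm c x)) (cj b y) = (1 : G))
    (h181 : ∀ x y : G, cm (cm c x) c = (1 : G) → cm (cm c x) x = (1 : G) → cm (cm (cm (cm (cj b y) c) (cj b y)) (cm c x)) c = (1 : G))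
    (h182 : ∀ x y : G, cm (cm c x) c = (1 : G) → cm (cm c x) x = (1 : G) → cm (cm (cm (cm (cj b y) c) (cj b y)) (cm c x)) (cm c x) = (1 : G))
    (h183 : ∀ x y : G, cm (cm c x) c = (1 : G) → cm (cm c x) x = (1 : G) → cm (cm (cm (cm (cj b y) c) (cj b y)) (cm c x)) (cj b y) = (1 : G))
    (h184 : ∀ x y : G, cm (cm c x) c = (1 : G) → cm (cm c x) x = (1 : G) → cm (cm (cm (cm (cj b y) c) c) (cj b y)) (cm c x) = (1 : G))
    (h185 : ∀ x y : G, cm (cm c x) c = (1 : G) → cm (cm c x) x = (1 : G) → cm (cm (cm (cj c y) (cm c x)) (cm c x)) c = (1 : G))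
    (h186 : ∀ x y : G, cm (cm c x) c = (1 : G) → cm (cm c x) x = (1 : G) → cm (cm (cm (cj c y) (cm c x)) (cm c x)) (cm c x) = (1 : G))
    (h187 : ∀ x y : G, cm (cm c x) c = (1 : G) → cm (cm c x) x = (1 : G) → cm (cm (cm (cj c y) (cm c x)) (cm c x)) (cj c y) = (1 : G))
    (h189 : ∀ x y : G, cm (cm c x) c = (1 : G) → cm (cm c x) x = (1 : G) → cm (cm (cm (cj c y) c) (cm c x)) (cm c x) = (1 : G))
    (h190 : ∀ x y : G, cm (cm c x) c = (1 : G) → cm (cm c x) x = (1 : G) → (cm (cm (cm (cm c x) (cj c y)) (cj c y)) (cj c y)) = ((cm (cm (cm (cj c y) c) c) (cm c x)) ^ (2 : ℕ)))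
    (h191 : ∀ x y : G, cm (cm c x) c = (1 : G) → cm (cm c x) x = (1 : G) → (cm (cm (cm (cm c x) (cj c y)) c) (cj c y)) = ((cm (cm (cm (cj c y) c) c) (cm c x))⁻¹ ^ (2 : ℕ)))
    (h192 : ∀ x y : G, cm (cm c x) c = (1 : G) → cm (cm c x) x = (1 : G) → (cm (cm (cm (cm c x) (cj c y)) c) c) = ((cm (cm (cm (cj c y) c) c) (cm c x))⁻¹ ^ (1 : ℕ)))
    (h193 : ∀ x y : G, cm (cm c x) c = (1 : G) → cm (cm c x) x = (1 : G) → (cm (cm (cm (cm c x) (cj c y)) (cj c y)) c) = ((cm (cm (cm (cj c y) c) c) (cm c x)) * (cm (cm (cm (cj c y) c) (cj c y)) (cm c x))))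
    (h194 : ∀ x y : G, cm (cm c x) c = (1 : G) → cm (cm c x) x = (1 : G) → cm (cm (cm (cm (cj c y) c) c) (cm c x)) c = (1 : G))
    (h197 : ∀ x y : G, cm (cm c x) c = (1 : G) → cm (cm c x) x = (1 : G) → cm (cm (cm (cm (cj c y) c) (cj c y)) (cm c x)) c = (1 : G))
    (h198 : ∀ x y : G, cm (cm c x) c = (1 : G) → cm (cm c x) x = (1 : G) → cm (cm (cm (cm (cj c y) c) (cj c y)) (cm c x)) (cm c x) = (1 : G))
    (h200 : ∀ x y : G, cm (cm c x) c = (1 : G) → cm (cm c x) x = (1 : G) → cm (cm (cm (cm (cj c y) c) c) (cj c y)) (cm c x) = (1 : G))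
    (h201 : ∀ x : G, cm x a = (1 : G) → cm x b = (1 : G) → cm x c = (1 : G) → x = (1 : G))
    (h202 : ∀ x y : G, cm (cm x y) a = (1 : G) → cm (cm x y) b = (1 : G) → cm (cm x y) c = (1 : G) → cm x y = (1 : G))
    (h217 : cm (cm a b) a = (1 : G))
    (h218 : cm (cm a b) b = (1 : G))
    (h219 : cm (cm (cm a b) c) (cm a b) = (1 : G))
    (h220 : cm (cm (cm (cm a b) c) a) a = (1 : G))
    (h221 : cm (cm (cm (cm a b) c) a) c = (1 : G))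
    (h222 : cm (cm (cm (cm a b) c) b) b = (1 : G))
    (h223 : cm (cm (cm (cm a b) c) b) c = (1 : G))
    (h224 : cm (cm (cm (cm a b) c) c) c = (1 : G))
    (h225 : cm (cm (cm (cm (cm a b) c) a) b) a = (1 : G))
    (h226 : cm (cm (cm (cm (cm a b) c) a) b) b = (1 : G))
    (h227 : cm (cm (cm (cm (cm a b) c) c) a) a = (1 : G))
    (h228 : cm (cm (cm (cm (cm a b) c) c) a) c = (1 : G))
    (h229 : cm (cm (cm (cm (cm a b) c) c) b) b = (1 : G))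
    (h230 : cm (cm (cm (cm (cm a b) c) c) b) c = (1 : G))
    (h231 : ∀ x : G, (x ^ (5 : ℕ)) = (1 : G))
    (h232 : ∀ x : G, cm (cm (cm (cm (cj a x) a) a) a) a = (1 : G))
    (h233 : ∀ x : G, cm (cm (cm (cm (cj a x) a) a) a) (cj a x) = (1 : G))
    (h234 : ∀ x : G, cm (cm (cm (cm (cj a x) a) (cj a x)) (cj a x)) a = (1 : G))
    (h235 : ∀ x : G, cm (cm (cm (cm (cj a x) a) (cj a x)) (cj a x)) (cj a x) = (1 : G))
    (h236 : ∀ x : G, (cm (cm (cm (cj a x) a) a) a) = (cm (cm (cm (cj a x) a) (cj a x)) (cj a x)))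
    (h238 : ∀ x : G, cm (cm (cm (cm (cj b x) a) a) a) a = (1 : G))
    (h239 : ∀ x : G, cm (cm (cm (cm (cj b x) a) a) a) (cj b x) = (1 : G))
    (h240 : ∀ x : G, cm (cm (cm (cm (cj b x) a) (cj b x)) (cj b x)) a = (1 : G))
    (h241 : ∀ x : G, cm (cm (cm (cm (cj b x) a) (cj b x)) (cj b x)) (cj b x) = (1 : G))
    (h242 : ∀ x : G, (cm (cm (cm (cj b x) a) a) a) = (cm (cm (cm (cj b x) a) (cj b x)) (cj b x)))
    (h243 : ∀ x : G, (cm (cm (cm (cj b x) a) a) a) = ((cm (cm (cm (cj b x) a) a) (cj b x)) ^ (2 : ℕ)))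
    (h244 : ∀ x : G, cm (cm (cm (cm (cj c x) a) a) a) a = (1 : G))
    (h245 : ∀ x : G, cm (cm (cm (cm (cj c x) a) a) a) (cj c x) = (1 : G))
    (h246 : ∀ x : G, cm (cm (cm (cm (cj c x) a) (cj c x)) (cj c x)) a = (1 : G))
    (h247 : ∀ x : G, cm (cm (cm (cm (cj c x) a) (cj c x)) (cj c x)) (cj c x) = (1 : G))
    (h248 : ∀ x : G, (cm (cm (cm (cj c x) a) a) a) = (cm (cm (cm (cj c x) a) (cj c x)) (cj c x)))
    (h249 : ∀ x : G, (cm (cm (cm (cj c x) a) a) a) = ((cm (cm (cm (cj c x) a) a) (cj c x)) ^ (2 : ℕ)))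
    (h250 : ∀ x : G, cm (cm (cm (cm (cj b x) b) b) b) b = (1 : G))
    (h251 : ∀ x : G, cm (cm (cm (cm (cj b x) b) b) b) (cj b x) = (1 : G))
    (h252 : ∀ x : G, cm (cm (cm (cm (cj b x) b) (cj b x)) (cj b x)) b = (1 : G))
    (h253 : ∀ x : G, cm (cm (cm (cm (cj b x) b) (cj b x)) (cj b x)) (cj b x) = (1 : G))
    (h254 : ∀ x : G, (cm (cm (cm (cj b x) b) b) b) = (cm (cm (cm (cj b x) b) (cj b x)) (cj b x)))
    (h256 : ∀ x : G, cm (cm (cm (cm (cj c x) b) b) b) b = (1 : G))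
    (h257 : ∀ x : G, cm (cm (cm (cm (cj c x) b) b) b) (cj c x) = (1 : G))
    (h258 : ∀ x : G, cm (cm (cm (cm (cj c x) b) (cj c x)) (cj c x)) b = (1 : G))
    (h259 : ∀ x : G, cm (cm (cm (cm (cj c x) b) (cj c x)) (cj c x)) (cj c x) = (1 : G))
    (h260 : ∀ x : G, (cm (cm (cm (cj c x) b) b) b) = (cm (cm (cm (cj c x) b) (cj c x)) (cj c x)))
    (h261 : ∀ x : G, (cm (cm (cm (cj c x) b) b) b) = ((cm (cm (cm (cj c x) b) b) (cj c x)) ^ (2 : ℕ)))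
    (h262 : ∀ x : G, cm (cm (cm (cm (cj c x) c) c) c) c = (1 : G))
    (h263 : ∀ x : G, cm (cm (cm (cm (cj c x) c) c) c) (cj c x) = (1 : G))
    (h264 : ∀ x : G, cm (cm (cm (cm (cj c x) c) (cj c x)) (cj c x)) c = (1 : G))
    (h265 : ∀ x : G, cm (cm (cm (cm (cj c x) c) (cj c x)) (cj c x)) (cj c x) = (1 : G))
    (h266 : ∀ x : G, (cm (cm (cm (cj c x) c) c) c) = (cm (cm (cm (cj c x) c) (cj c x)) (cj c x)))
    (h267 : ∀ x : G, (cm (cm (cm (cj c x) c) c) c) = ((cm (cm (cm (cj c x) c) c) (cj c x)) ^ (2 : ℕ)))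
    (h268 : ∀ x : G, (((((a⁻¹ * (cj a x⁻¹)) * a⁻¹) * (cj a x)) * (cj a⁻¹ (x ^ (2 : ℕ)))) * (cj a x)) = ((((((cj a⁻¹ (x ^ (2 : ℕ))) * (cj a x)) * a⁻¹) * (cj a x)) * a⁻¹) * (cj a x⁻¹)))
    (h269 : ∀ x : G, (((((((a⁻¹ * (cj a x⁻¹)) * (cj a⁻¹ (x⁻¹ ^ (2 : ℕ)))) * (cj a x⁻¹)) * a⁻¹) * (cj a x⁻¹)) * a⁻¹) * (cj a x)) = ((((((((cj a⁻¹ x) * a) * (cj a⁻¹ x⁻¹)) * a) * (cj a⁻¹ x)) * a) * (cj a⁻¹ x)) * (cj a (x ^ (2 : ℕ)))))
    (h270 : ∀ x : G, (((((b⁻¹ * (cj b x⁻¹)) * b⁻¹) * (cj b x)) * (cj b⁻¹ (x ^ (2 : ℕ)))) * (cj b x)) = ((((((cj b⁻¹ (x ^ (2 : ℕ))) * (cj b x)) * b⁻¹) * (cj b x)) * b⁻¹) * (cj b x⁻¹)))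
    (h271 : ∀ x : G, (((((((b⁻¹ * (cj b x⁻¹)) * (cj b⁻¹ (x⁻¹ ^ (2 : ℕ)))) * (cj b x⁻¹)) * b⁻¹) * (cj b x⁻¹)) * b⁻¹) * (cj b x)) = ((((((((cj b⁻¹ x) * b) * (cj b⁻¹ x⁻¹)) * b) * (cj b⁻¹ x)) * b) * (cj b⁻¹ x)) * (cj b (x ^ (2 : ℕ)))))
    (h272 : ∀ x : G, (((((c⁻¹ * (cj c x⁻¹)) * c⁻¹) * (cj c x)) * (cj c⁻¹ (x ^ (2 : ℕ)))) * (cj c x)) = ((((((cj c⁻¹ (x ^ (2 : ℕ))) * (cj c x)) * c⁻¹) * (cj c x)) * c⁻¹) * (cj c x⁻¹)))
    (h273 : ∀ x : G, (((((((c⁻¹ * (cj c x⁻¹)) * (cj c⁻¹ (x⁻¹ ^ (2 : ℕ)))) * (cj c x⁻¹)) * c⁻¹) * (cj c x⁻¹)) * c⁻¹) * (cj c x)) = ((((((((cj c⁻¹ x) * c) * (cj c⁻¹ x⁻¹)) * c) * (cj c⁻¹ x)) * c) * (cj c⁻¹ x)) * (cj c (x ^ (2 : ℕ))))) :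
    (cm (cm (cm c a) a) c) = (1 : G) := by
  obtain ⟨t0, -⟩ := targets (G := G) (g := nth (1 : G) [1, a, b, c, (cm a b), (cm c a), (cm c b), (cm (cm a b) c), (cm (cm c a) a), (cm (cm c a) c), (cm (cm c a) b), (cm (cm (cm a b) c) a), (cm (cm (cm c a) a) c), (cm (cm (cm (cm c a) a) c) b), (cm (cm (cm c a) a) b), (cm (cm (cm (cm (cm c a) a) c) b) c), (cm (cm (cm (cm (cm c a) a) c) b) b), (cm (cm (cm (cm (cm (cm c a) a) c) b) b) c)]) (by decide) rfl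
    (laws := laws) ⟨fun _ => rfl, fun _ => rfl, fun _ => rfl, fun _ => rfl, fun _ => rfl, fun _ => rfl, fun _ => rfl, fun _ => rfl, fun _ => rfl, fun _ => rfl, fun _ => rfl, fun _ => rfl, fun _ => rfl, fun _ => rfl, fun _ => h217, fun _ => h218, fun _ => h219, fun _ => h220, fun _ => h221, fun _ => h222, fun _ => h223, fun _ => h224, fun _ => h225, fun _ => h226, fun _ => h227, fun _ => h228, fun _ => h229, fun _ => h230, fun y => h238 (y 0), fun y => h239 (y 0), fun y => h240 (y 0), fun y => h241 (y 0), fun y => h242 (y 0), fun y => h243 (y 0), fun y => h244 (y 0), fun y => h247 (y 0), fun y => h248 (y 0), fun y => h249 (y 0), fun y => h256 (y 0), fun y => h257 (y 0), fun y => h258 (y 0), fun y => h259 (y 0), fun y => h260 (y 0), fun y => h261 (y 0), fun y => h231 (y 0), fun y => h262 (y 0), fun y => h263 (y 0), fun y => h264 (y 0), fun y => h265 (y 0), fun y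 => h266 (y 0), fun y => h267 (y 0), fun y => h270 (y 0), fun y => h271 (y 0), fun y => h272 (y 0), fun y => h245 (y 0), fun y => h246 (y 0), fun y => h250 (y 0), fun y => h251 (y 0), fun y => h273 (y 0), fun y => h269 (y 0), fun y => h232 (y 0), fun y => h233 (y 0), fun y => h268 (y 0), fun y => h234 (y 0), fun y => h236 (y 0), fun y => h235 (y 0), fun y => h252 (y 0), fun y => h254 (y 0), fun y => h253 (y 0), fun y => h17 (y 0) (y 1), fun y => h18 (y 0) (y 1), fun y => h36 (y 0) (y 1), fun y => h55 (y 0) (y 1), fun y => h56 (y 0) (y 1), fun y => h62 (y 0) (y 1), fun y => h65 (y 0) (y 1), fun y => h57 (y 0) (y 1), fun y => h63 (y 0) (y 1), fun y => h64 (y 0) (y 1), fun y => h59 (y 0) (y 1), fun y => h69 (y 0) (y 1), fun y => h71 (y 0) (y 1), fun y => h66 (y 0) (y 1), fun y => h68 (y 0) (y 1), fun y => h78 (y 0) (y 1), fun y => h80 (y 0) (y 1), fun y => h81 (y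 0) (y 1), fun y => h75 (y 0) (y 1), fun y => h73 (y 0) (y 1), fun y => h79 (y 0) (y 1), fun y => h85 (y 0) (y 1), fun y => h87 (y 0) (y 1), fun y => h89 (y 0) (y 1), fun y => h91 (y 0) (y 1), fun y => h94 (y 0) (y 1), fun y => h95 (y 0) (y 1), fun y => h96 (y 0) (y 1), fun y => h97 (y 0) (y 1), fun y => h101 (y 0) (y 1), fun y => h103 (y 0) (y 1), fun y => h110 (y 0) (y 1), fun y => h113 (y 0) (y 1), fun y => h114 (y 0) (y 1), fun y => h116 (y 0) (y 1), fun y => h126 (y 0) (y 1), fun y => h129 (y 0) (y 1), fun y => h130 (y 0) (y 1), fun y => h132 (y 0) (y 1), fun y => h133 (y 0) (y 1), fun y => h135 (y 0) (y 1), fun y => h145 (y 0) (y 1), fun y => h142 (y 0) (y 1), fun y => h158 (y 0) (y 1), fun y => h159 (y 0) (y 1), fun y => h160 (y 0) (y 1), fun y => h161 (y 0) (y 1), fun y => h162 (y 0) (y 1), fun y => h165 (y 0) (y 1), fun y => h167 (y 0) (y 1), fun y =>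 h153 (y 0) (y 1), fun y => h155 (y 0) (y 1), fun y => h174 (y 0) (y 1), fun y => h177 (y 0) (y 1), fun y => h175 (y 0) (y 1), fun y => h176 (y 0) (y 1), fun y => h169 (y 0) (y 1), fun y => h190 (y 0) (y 1), fun y => h193 (y 0) (y 1), fun y => h37 (y 0) (y 1), fun y => h192 (y 0) (y 1), fun y => h0 (y 0), fun y => h1 (y 0), fun y => h10 (y 0), fun y => h4 (y 0), fun y => h2 (y 0), fun y => h5 (y 0), fun y => h6 (y 0), fun y => h8 (y 0), fun y => h3 (y 0), fun y => h7 (y 0), fun y => h12 (y 0), fun y => h14 (y 0), fun y => h11 (y 0), fun y => h13 (y 0), fun y => h19 (y 0), fun y => h20 (y 0), fun y => h25 (y 0), fun y => h26 (y 0), fun y => h27 (y 0), fun y => h28 (y 0), fun y => h21 (y 0), fun y => h24 (y 0), fun y => h33 (y 0), fun y => h32 (y 0), fun y => h31 (y 0), fun y => h34 (y 0) (y 1), fun y => h47 (y 0), fun y => h46 (y 0), fun y => h43 (y 0), fun y =>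 h41 (y 0), fun y => h44 (y 0), fun y => h42 (y 0), fun y => h50 (y 0), fun y => h52 (y 0), fun y => h58 (y 0) (y 1), fun y => h60 (y 0) (y 1), fun y => h72 (y 0) (y 1), fun y => h76 (y 0) (y 1), fun y => h88 (y 0) (y 1), fun y => h74 (y 0) (y 1), fun y => h83 (y 0) (y 1), fun y => h82 (y 0) (y 1), fun y => h86 (y 0) (y 1), fun y => h77 (y 0) (y 1), fun y => h84 (y 0) (y 1), fun y => h92 (y 0) (y 1), fun y => h90 (y 0) (y 1), fun y => h93 (y 0) (y 1), fun y => h104 (y 0) (y 1), fun y => h98 (y 0) (y 1), fun y => h100 (y 0) (y 1), fun y => h102 (y 0) (y 1), fun y => h99 (y 0) (y 1), fun y => h109 (y 0) (y 1), fun y => h120 (y 0) (y 1), fun y => h105 (y 0) (y 1), fun y => h106 (y 0) (y 1), fun y => h111 (y 0) (y 1), fun y => h108 (y 0) (y 1), fun y => h112 (y 0) (y 1), fun y => h121 (y 0) (y 1), fun y => h123 (y 0) (y 1), fun y => h125 (y 0) (y 1), fun y => h127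 (y 0) (y 1), fun y => h128 (y 0) (y 1), fun y => h141 (y 0) (y 1), fun y => h144 (y 0) (y 1), fun y => h149 (y 0) (y 1), fun y => h150 (y 0) (y 1), fun y => h151 (y 0) (y 1), fun y => h143 (y 0) (y 1), fun y => h148 (y 0) (y 1), fun y => h147 (y 0) (y 1), fun y => h146 (y 0) (y 1), fun y => h140 (y 0) (y 1), fun y => h152 (y 0) (y 1), fun y => h137 (y 0) (y 1), fun y => h168 (y 0) (y 1), fun y => h156 (y 0) (y 1), fun y => h157 (y 0) (y 1), fun y => h166 (y 0) (y 1), fun y => h170 (y 0) (y 1), fun y => h171 (y 0) (y 1), fun y => h172 (y 0) (y 1), fun y => h184 (y 0) (y 1), fun y => h181 (y 0) (y 1), fun y => h182 (y 0) (y 1), fun y => h178 (y 0) (y 1), fun y => h173 (y 0) (y 1), fun y => h179 (y 0) (y 1), fun y => h180 (y 0) (y 1), fun y => h183 (y 0) (y 1), fun y => h191 (y 0) (y 1), fun y => h185 (y 0) (y 1), fun y => h186 (y 0) (y 1), fun y => h187 (y 0) (y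 1), fun y => h189 (y 0) (y 1), fun y => h197 (y 0) (y 1), fun y => h198 (y 0) (y 1), fun y => h194 (y 0) (y 1), fun y => h200 (y 0) (y 1), fun y => h122 (y 0) (y 1), fun y => h201 (y 0), fun y => h202 (y 0) (y 1), trivial⟩
    ((Upto.zero _ _ _ _ _ _) |>.succ b0 |>.succ b1 |>.succ b2 |>.succ b3 |>.succ b4 |>.succ b5 |>.succ b6 |>.succ b7 |>.succ b8 |>.succ b9 |>.succ b10 |>.succ b11 |>.succ b12 |>.succ b13 |>.succ b14 |>.succ b15) tgs _ tg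
  exact t0

end Pool.Agent.P.MP_9682d1_al.KB.F5Sb
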