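import Pool.Agent.P.MP_9682d1_al.KB.F5TB0
import Pool.Agent.P.MP_9682d1_al.KB.F5TB1
import Pool.Agent.P.MP_9682d1_al.KB.F5TB2

set_option autoImplicit false
set_option maxRecDepth 100000
set_option linter.unusedSimpArgs false

namespace Pool.Agent.P.MP_9682d1_al.KB.F5T

theorem sd : side 7 25 2047 76 M 1659 (55 * 2 ^ 5) U = true := by decide +kernel
theorem base {G : Type*} [Group G] (H : Subgroup G) (hH : Group.IsNilpotent H) (a b c : G)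
    (ma : a ∈ H) (mb : b ∈ H) (mc : c ∈ H)
    (h0 : (a ^ (5 : ℕ)) = (1 : G))
    (h1 : (b ^ (5 : ℕ)) = (1 : G))
    (h2 : (c ^ (5 : ℕ)) = (1 : G))
    (h3 : cm (cm a b) a = (1 : G))
    (h4 : cm (cm a b) b = (1 : G))
    (_h5 : ∀ x ∈ H, (x ^ (5 : ℕ)) = (1 : G))
    (h6 : ∀ x ∈ H, cm (cm (cm (cm (cj c x) a) a) a) a = (1 : G))
    (_h7 : ∀ x ∈ H, cm (cm (cm (cm (cj c x) a) a) a) (cj c x) = (1 : G))
    (_h8 : ∀ x ∈ H, cm (cm (cm (cm (cj c x) a) (cj c x)) (cj c x)) a = (1 : G))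
    (_h9 : ∀ x ∈ H, cm (cm (cm (cm (cj c x) a) (cj c x)) (cj c x)) (cj c x) = (1 : G))
    (h10 : ∀ x ∈ H, ((cm (cm (cm (cj c x) a) a) a)⁻¹ * (cm (cm (cm (cj c x) a) (cj c x)) (cj c x))) = (1 : G))
    (h11 : ∀ x ∈ H, ((cm (cm (cm (cj c x) a) a) a)⁻¹ * ((cm (cm (cm (cj c x) a) a) (cj c x)) ^ (2 : ℕ))) = (1 : G))
    (h12 : ∀ x ∈ H, cm (cm (cm (cm (cj c x) b) b) b) b = (1 : G))
    (_h13 : ∀ x ∈ H, cm (cm (cm (cm (cj c x) b) b) b) (cj c x) = (1 : G))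
    (_h14 : ∀ x ∈ H, cm (cm (cm (cm (cj c x) b) (cj c x)) (cj c x)) b = (1 : G))
    (_h15 : ∀ x ∈ H, cm (cm (cm (cm (cj c x) b) (cj c x)) (cj c x)) (cj c x) = (1 : G))
    (h16 : ∀ x ∈ H, ((cm (cm (cm (cj c x) b) b) b)⁻¹ * (cm (cm (cm (cj c x) b) (cj c x)) (cj c x))) = (1 : G))
    (h17 : ∀ x ∈ H, ((cm (cm (cm (cj c x) b) b) b)⁻¹ * ((cm (cm (cm (cj c x) b) b) (cj c x)) ^ (2 : ℕ))) = (1 : G))
    (_h18 : ∀ x ∈ H, cm (cm (cm (cm (cj b x) a) a) a) a = (1 : G))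
    (_h19 : ∀ x ∈ H, cm (cm (cm (cm (cj b x) a) a) a) (cj b x) = (1 : G))
    (_h20 : ∀ x ∈ H, cm (cm (cm (cm (cj b x) a) (cj b x)) (cj b x)) a = (1 : G))
    (_h21 : ∀ x ∈ H, cm (cm (cm (cm (cj b x) a) (cj b x)) (cj b x)) (cj b x) = (1 : G))
    (h22 : ∀ x ∈ H, ((cm (cm (cm (cj b x) a) a) a)⁻¹ * (cm (cm (cm (cj b x) a) (cj b x)) (cj b x))) = (1 : G))
    (h23 : ∀ x ∈ H, ((cm (cm (cm (cj b x) a) a) a)⁻¹ * ((cm (cm (cm (cj b x) a) a) (cj b x)) ^ (2 : ℕ))) = (1 : G))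
    (h24 : ∀ x ∈ H, cm (cm (cm (cm a x) x) x) x = (1 : G))
    (h25 : ∀ x ∈ H, cm (cm (cm (cm b x) x) x) x = (1 : G))
    (h26 : ∀ x ∈ H, cm (cm (cm (cm c x) x) x) x = (1 : G)) :
    Base 7 25 2047 76 (gen [1, a, b, c] defs) U C 1760 :=
  nbase (n := 26) (L := [1, a, b, c]) (defs := defs) hH ⟨H.one_mem, ma, mb, mc, trivial⟩ rfl rfl (laws := laws) ⟨gen_def rfl, gen_def rfl, gen_def rfl, gen_def rfl, gen_def rfl, gen_def rfl, gen_def rfl, gen_def rfl, gen_def rfl, gen_def rfl, gen_def rfl, gen_def rfl, gen_def rfl, gen_def rfl, gen_def rfl, gen_def rfl, gen_def rfl, gen_def rfl, gen_def rfl, gen_def rfl, gen_def rfl, gen_def rfl, gen_def rfl, fun _ _ => h3, fun _ _ => h4, fun _ _ => h0, fun _ _ => h1, fun _ _ => h2, fun y e => h24 (y 0) (e 0), fun y e => h25 (y 0) (e 0), fun y e => h6 (y 0) (e 0), fun y e => h12 (y 0) (e 0), fun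 y e => h10 (y 0) (e 0), fun y e => h16 (y 0) (e 0), fun y e => h26 (y 0) (e 0), fun y e => h11 (y 0) (e 0), fun y e => h17 (y 0) (e 0), fun y e => h22 (y 0) (e 0), fun y e => h23 (y 0) (e 0), trivial⟩ sd
    (Upto2.zero |>.succ b0 |>.succ b1 |>.succ b2 |>.succ b3 |>.succ b4 |>.succ b5 |>.succ b6 |>.succ b7 |>.succ b8 |>.succ b9 |>.succ b10 |>.succ b11 |>.succ b12 |>.succ b13 |>.succ b14 |>.succ b15 |>.succ b16 |>.succ b17 |>.succ b18 |>.succ b19 |>.succ b20 |>.succ b21 |>.succ b22 |>.succ b23 |>.succ b24 |>.succ b25 |>.succ b26 |>.succ b27 |>.succ b28 |>.succ b29 |>.succ b30 |>.succ b31 |>.succ b32 |>.succ b33 |>.succ b34 |>.succ b35 |>.succ b36 |>.succ b37 |>.succ b38 |>.succ b39 |>.succ b40 |>.succ b41 |>.succ b42 |>.succ b43 |>.succ b44 |>.succ b45 |>.succ b46 |>.succ b47 |>.succ b48 |>.succ b49 |>.succ b50 |>.succ b51 |>.succ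 b52 |>.succ b53 |>.succ b54)

theorem tg : prvs 7 (fun f => tr (U f)) 1760 (fun _ => 0) tgs [924, 1654, 0, 924, 0, 1655, 0, 0, 924, 1657, 0, 924, 0, 1658, 0] (fun _ => true) = true := by
  decide +kernel

theorem main {G : Type*} [Group G] (H : Subgroup G) (hH : Group.IsNilpotent H) (a b c : G)
    (ma : a ∈ H) (mb : b ∈ H) (mc : c ∈ H)
    (h0 : (a ^ (5 : ℕ)) = (1 : G))
    (h1 : (b ^ (5 : ℕ)) = (1 : G))
    (h2 : (c ^ (5 : ℕ)) = (1 : G))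
    (h3 : cm (cm a b) a = (1 : G))
    (h4 : cm (cm a b) b = (1 : G))
    (_h5 : ∀ x ∈ H, (x ^ (5 : ℕ)) = (1 : G))
    (h6 : ∀ x ∈ H, cm (cm (cm (cm (cj c x) a) a) a) a = (1 : G))
    (_h7 : ∀ x ∈ H, cm (cm (cm (cm (cj c x) a) a) a) (cj c x) = (1 : G))
    (_h8 : ∀ x ∈ H, cm (cm (cm (cm (cj c x) a) (cj c x)) (cj c x)) a = (1 : G))
    (_h9 : ∀ x ∈ H, cm (cm (cm (cm (cj c x) a) (cj c x)) (cj c x)) (cj c x) = (1 : G))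
    (h10 : ∀ x ∈ H, ((cm (cm (cm (cj c x) a) a) a)⁻¹ * (cm (cm (cm (cj c x) a) (cj c x)) (cj c x))) = (1 : G))
    (h11 : ∀ x ∈ H, ((cm (cm (cm (cj c x) a) a) a)⁻¹ * ((cm (cm (cm (cj c x) a) a) (cj c x)) ^ (2 : ℕ))) = (1 : G))
    (h12 : ∀ x ∈ H, cm (cm (cm (cm (cj c x) b) b) b) b = (1 : G))
    (_h13 : ∀ x ∈ H, cm (cm (cm (cm (cj c x) b) b) b) (cj c x) = (1 : G))
    (_h14 : ∀ x ∈ H, cm (cm (cm (cm (cj c x) b) (cj c x)) (cj c x)) b = (1 : G))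
    (_h15 : ∀ x ∈ H, cm (cm (cm (cm (cj c x) b) (cj c x)) (cj c x)) (cj c x) = (1 : G))
    (h16 : ∀ x ∈ H, ((cm (cm (cm (cj c x) b) b) b)⁻¹ * (cm (cm (cm (cj c x) b) (cj c x)) (cj c x))) = (1 : G))
    (h17 : ∀ x ∈ H, ((cm (cm (cm (cj c x) b) b) b)⁻¹ * ((cm (cm (cm (cj c x) b) b) (cj c x)) ^ (2 : ℕ))) = (1 : G))
    (_h18 : ∀ x ∈ H, cm (cm (cm (cm (cj b x) a) a) a) a = (1 : G))
    (_h19 : ∀ x ∈ H, cm (cm (cm (cm (cj b x) a) a) a) (cj b x) = (1 : G))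
    (_h20 : ∀ x ∈ H, cm (cm (cm (cm (cj b x) a) (cj b x)) (cj b x)) a = (1 : G))
    (_h21 : ∀ x ∈ H, cm (cm (cm (cm (cj b x) a) (cj b x)) (cj b x)) (cj b x) = (1 : G))
    (h22 : ∀ x ∈ H, ((cm (cm (cm (cj b x) a) a) a)⁻¹ * (cm (cm (cm (cj b x) a) (cj b x)) (cj b x))) = (1 : G))
    (h23 : ∀ x ∈ H, ((cm (cm (cm (cj b x) a) a) a)⁻¹ * ((cm (cm (cm (cj b x) a) a) (cj b x)) ^ (2 : ℕ))) = (1 : G))
    (h24 : ∀ x ∈ H, cm (cm (cm (cm a x) x) x) x = (1 : G))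
    (h25 : ∀ x ∈ H, cm (cm (cm (cm b x) x) x) x = (1 : G))
    (h26 : ∀ x ∈ H, cm (cm (cm (cm c x) x) x) x = (1 : G)) :
    cm (cm c (cm a b)) (cm a b) = (1 : G) ∧
    cm (cm (c ^ (2 : ℕ)) (cm a b)) (cm a b) = (1 : G) := by
  have h := (base H hH a b c ma mb mc h0 h1 h2 h3 h4 _h5 h6 _h7 _h8 _h9 h10 h11 h12 _h13 _h14 _h15 h16 h17 _h18 _h19 _h20 _h21 h22 h23 h24 h25 h26).targets (by decide) rfl tgs _ tg
  have ec : gen [1, a, b, c] defs 1 = c := rfl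
  have eb : gen [1, a, b, c] defs 2 = b := rfl
  have ea : gen [1, a, b, c] defs 3 = a := rfl
  simp only [AllE, tgs, Eqn.Holds, Ex.ev, ea, eb, ec, and_true] at h
  exact h

end Pool.Agent.P.MP_9682d1_al.KB.F5T
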