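import Pool.Agent.P.MP_9682d1_al.KB.IT7B0
import Pool.Agent.P.MP_9682d1_al.KB.IT7B1
import Pool.Agent.P.MP_9682d1_al.KB.IT7B2

set_option autoImplicit false
set_option maxRecDepth 100000

namespace Pool.Agent.P.MP_9682d1_al.KB.IT7

theorem tg : prvs 5 T (10 * 2 ^ 10) (fun _ => 0) tgs [9389, 0, 0, 9390, 0] (fun _ => true) = true := by
  decide +kernel

theorem main {G : Type*} [Group G] (a b c : G)
    (h12 : (a * a) = 1)
    (h13 : (b * b) = 1)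
    (h14 : (c * c) = 1)
    (h15 : ((cm a b) * (cm a b)) = 1)
    (h16 : ∀ x : G, cm (cm (cm (cm a x) x) x) x = 1)
    (h17 : ∀ x : G, ((cm a (cj a x)) * (cm (cj a x) (cj a (x * x)))) = ((cj a ((x * x) * x)) * (cj a x⁻¹)))
    (h18 : ∀ x : G, cm (cm a (cj a x)) (cm (cj a x) (cj a (x * x))) = 1)
    (h19 : ∀ x : G, cm (cm a (cj a x)) (cm (cj a x⁻¹) a) = 1)
    (h20 : ∀ x : G, ((((cm a (cj a x)) ^ 2) * (cj a x⁻¹)) ^ 2) = 1)
    (h21 : ∀ x : G, ((((cm a (cj a x)) ^ 2) * (cj a (x * x))) ^ 2) = 1)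
    (h22 : ∀ x : G, ((cm a (cj a (x * x))) * ((cm (cj a x) (cj a (x * x))) ^ 2)) = ((cm a (cj a x)) * (cm a (cj a x⁻¹))))
    (h23 : ∀ x : G, cm (cm (cm (cm b x) x) x) x = 1)
    (h24 : ∀ x : G, ((cm b (cj b x)) * (cm (cj b x) (cj b (x * x)))) = ((cj b ((x * x) * x)) * (cj b x⁻¹)))
    (h25 : ∀ x : G, cm (cm b (cj b x)) (cm (cj b x) (cj b (x * x))) = 1)
    (h26 : ∀ x : G, cm (cm b (cj b x)) (cm (cj b x⁻¹) b) = 1)
    (h27 : ∀ x : G, ((((cm b (cj b x)) ^ 2) * (cj b x⁻¹)) ^ 2) = 1)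
    (h28 : ∀ x : G, ((((cm b (cj b x)) ^ 2) * (cj b (x * x))) ^ 2) = 1)
    (h29 : ∀ x : G, ((cm b (cj b (x * x))) * ((cm (cj b x) (cj b (x * x))) ^ 2)) = ((cm b (cj b x)) * (cm b (cj b x⁻¹))))
    (h30 : ∀ x : G, cm (cm (cm (cm c x) x) x) x = 1)
    (h31 : ∀ x : G, ((cm c (cj c x)) * (cm (cj c x) (cj c (x * x)))) = ((cj c ((x * x) * x)) * (cj c x⁻¹)))
    (h32 : ∀ x : G, cm (cm c (cj c x)) (cm (cj c x) (cj c (x * x))) = 1)
    (h33 : ∀ x : G, cm (cm c (cj c x)) (cm (cj c x⁻¹) c) = 1)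
    (h34 : ∀ x : G, ((((cm c (cj c x)) ^ 2) * (cj c x⁻¹)) ^ 2) = 1)
    (h35 : ∀ x : G, ((((cm c (cj c x)) ^ 2) * (cj c (x * x))) ^ 2) = 1)
    (h36 : ∀ x : G, ((cm c (cj c (x * x))) * ((cm (cj c x) (cj c (x * x))) ^ 2)) = ((cm c (cj c x)) * (cm c (cj c x⁻¹)))) :
    cm (cm c (cm a b)) (cm a b) = 1 := by
  obtain ⟨t0, -⟩ := targets (G := G) (g := nth (1 : G) [1, a, b, c, (cm a b), (cm a c), (cm b c), (cm (cm a b) c), (cm (cm a c) a), (cm (cm a c) b), (cm (cm a c) c), (cm (cm b c) a), (cm (cm b c) b), (cm (cm b c) c), (cm (cm (cm a b) c) a), (cm (cm (cm a b) c) b)]) (by decide) rfl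
    (laws := laws) ⟨fun _ => rfl, fun _ => rfl, fun _ => rfl, fun _ => rfl, fun _ => rfl, fun _ => rfl, fun _ => rfl, fun _ => rfl, fun _ => rfl, fun _ => rfl, fun _ => rfl, fun _ => h12, fun _ => h13, fun _ => h14, fun _ => h15, fun y => h20 (y 0), fun y => h24 (y 0), fun y => h28 (y 0), fun y => h29 (y 0), fun y => h30 (y 0), fun y => h31 (y 0), fun y => h27 (y 0), fun y => h34 (y 0), fun y => h16 (y 0), fun y => h32 (y 0), fun y => h33 (y 0), fun y => h17 (y 0), fun y => h25 (y 0), fun y => h18 (y 0), fun y => h19 (y 0), fun y => h22 (y 0), fun y => h23 (y 0), fun y => h26 (y 0), fun y => h21 (y 0), fun y => h36 (y 0), fun y => h35 (y 0), trivial⟩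
    ((Upto.zero _ _ _ _ _ _) |>.succ b0 |>.succ b1 |>.succ b2 |>.succ b3 |>.succ b4 |>.succ b5 |>.succ b6 |>.succ b7 |>.succ b8 |>.succ b9) tgs _ tg
  exact t0

end Pool.Agent.P.MP_9682d1_al.KB.IT7
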