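import Mathlib

/-!
A checker for string rewriting proofs in groups. Words are numbers with `b` bits per letter, the
first letter in the lowest bits; the letter `2 i` is the generator `i`, the letter `2 i + 1` its
inverse, and the generator `0` is trivial.
-/

set_option autoImplicit false

namespace Pool.Agent.P.MP_9682d1_al.KB

section
variable {G : Type*} [Group G]

/-- conjugate -/
def cj (a x : G) : G := x⁻¹ * a * x
/-- commutator -/
def cm (a x : G) : G := a⁻¹ * (x⁻¹ * a * x)

/-- group expressions in generators and variables -/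
inductive Ex
  | g (i : ℕ)
  | v (i : ℕ)
  | o
  | m (a b : Ex)
  | i (a : Ex)
  | j (a b : Ex)
  | c (a b : Ex)
  | p (n : ℕ) (a : Ex)

/-- equations: `a = b`, or `[a, b] = 1` -/
inductive Eqn
  | E (a b : Ex)
  | C (a b : Ex)

structure Law where
  prem : List Eqn
  con : Eqn

def Ex.ev (g y : ℕ → G) : Ex → G
  | .g k => g k
  | .v k => y k
  | .o => 1
  | .m a b => a.ev g y * b.ev g y
  | .i a => (a.ev g y)⁻¹
  | .j a b => cj (a.ev g y) (b.ev g y)
  | .c a b => cm (a.ev g y) (b.ev g y)
  | .p n a => a.ev g y ^ n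

def Eqn.Holds (g y : ℕ → G) : Eqn → Prop
  | .E a b => a.ev g y = b.ev g y
  | .C a b => cm (a.ev g y) (b.ev g y) = 1

def Prems (g y : ℕ → G) : List Eqn → Prop → Prop
  | [], p => p
  | q :: l, p => q.Holds g y → Prems g y l p

def Law.Holds (g : ℕ → G) (l : Law) : Prop := ∀ y, Prems g y l.prem (l.con.Holds g y)

def AllL (g : ℕ → G) : List Law → Prop
  | [] => True
  | l :: r => l.Holds g ∧ AllL g r

def lv (g : ℕ → G) (c : ℕ) : G := if c % 2 = 0 then g (c / 2) else (g (c / 2))⁻¹

def ev (B : ℕ) (g : ℕ → G) (w : ℕ) : G := ((Nat.digits (2 ^ B) w).map (lv g)).prod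
end

/-! ### kernel code -/

noncomputable def force {α : Type} (x : ℕ) (k : ℕ → α) : α :=
  Nat.rec (k 0) (fun n _ => k (Nat.succ n)) x
lemma force_eq {α : Type} (x : ℕ) (k : ℕ → α) : force x k = k x := by cases x <;> rfl
noncomputable def an (a b : Bool) : Bool := Bool.rec false b a
lemma an_iff {a b : Bool} : an a b = true ↔ a = true ∧ b = true := by cases a <;> simp [an]
def lt (a b : ℕ) : Bool := Nat.ble (Nat.succ a) b
lemma lt_iff {a b : ℕ} : lt a b = true ↔ a < b := Nat.ble_eq.to_iff
lemma beq_iff {a b : ℕ} : Nat.beq a b = true ↔ a = b := Nat.beq_eq.to_iff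

def low (u n : ℕ) : ℕ := Nat.mod u (Nat.shiftLeft 1 n)
/-- number of letters -/
def len (B u : ℕ) : ℕ := Nat.div (Nat.add (Nat.log2 (Nat.succ (Nat.mul 2 u))) (Nat.sub B 1)) B
def cat (B u w : ℕ) : ℕ := Nat.add u (Nat.shiftLeft w (Nat.mul B (len B u)))
/-- inverse of the first `n` letters of `q`, followed by `a` -/
noncomputable def invN (B n : ℕ) : ℕ → ℕ → ℕ :=
  Nat.rec (fun _ a => a) (fun _ ih q a => force (Nat.shiftRight q B) fun q' =>
    force (Nat.add (Nat.xor (low q B) 1) (Nat.shiftLeft a B)) fun a' => ih q' a') n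
noncomputable def invW (B q : ℕ) : ℕ := invN B (len B q) q 0
noncomputable def powW (B u n : ℕ) : ℕ := Nat.rec 0 (fun _ r => force r fun r => cat B u r) n

/-- a record holds two bit lengths and two words -/
def nL (R : ℕ) : ℕ := Nat.land R 16383
def nR (R : ℕ) : ℕ := Nat.land (Nat.shiftRight R 14) 16383
def fL (R : ℕ) : ℕ := low (Nat.shiftRight R 28) (nL R)
def fR (R : ℕ) : ℕ := Nat.shiftRight (Nat.shiftRight R 28) (nL R)

/-- replace `A` by `C` at the bit position `p` -/
noncomputable def rw1 (u p A na C nc : ℕ) (k : ℕ → Bool) : Bool :=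
  force (Nat.shiftRight u p) fun r => an (Nat.beq (low r na) A)
    (force (Nat.add (low u p) (Nat.shiftLeft (Nat.add C (Nat.shiftLeft (Nat.shiftRight r na) nc)) p)) k)

noncomputable def step (B : ℕ) (T : ℕ → ℕ) (i op u v : ℕ) (k : ℕ → ℕ → Bool) : Bool :=
  force (Nat.land (Nat.shiftRight op 4) 1023) fun p => force (Nat.shiftRight op 14) fun f =>
  Nat.rec
    (an (lt f i) (force (T f) fun R => force (nL R) fun nl => force (Nat.shiftRight R 28) fun y =>
      rw1 u (Nat.mul B p) (Nat.shiftRight y nl) (nR R) (low y nl) nl fun u' => k u' v))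
    (fun t _ => Nat.rec
      (an (lt f i) (force (T f) fun R => force (nL R) fun nl => force (Nat.shiftRight R 28) fun y =>
        rw1 u (Nat.mul B p) (low y nl) nl (Nat.shiftRight y nl) (nR R) fun u' => k u' v))
      (fun t _ => Nat.rec
        (force (Nat.shiftRight u (Nat.mul B p)) fun u' => force (invN B p u v) fun v' => k u' v')
        (fun t _ => Nat.rec
          (force (low u (Nat.mul B p)) fun u' => force (Nat.shiftRight u (Nat.mul B p)) fun q =>
            force (invW B q) fun q' => force (cat B v q') fun v' => k u' v')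
          (fun t _ => Nat.rec
            (force (Nat.add (low p B) (Nat.shiftLeft u B)) fun u' =>
              force (Nat.add (low p B) (Nat.shiftLeft v B)) fun v' => k u' v')
            (fun _ _ => force (cat B u p) fun u' => force (cat B v p) fun v' => k u' v') t) t) t) t)
    (Nat.land (Nat.shiftRight op 1) 7)

/-- run `n` steps of width `w` -/
noncomputable def run (B w : ℕ) (T : ℕ → ℕ) (i n : ℕ) : ℕ → ℕ → ℕ → Bool :=
  Nat.rec (fun _ u v => Nat.beq u v) (fun _ ih s u v =>
    force (low s w) fun op => force (Nat.shiftRight s w) fun s' =>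
    Nat.rec (step B T i op u v (ih s')) (fun _ _ => step B T i op v u (ih s')) (Nat.land op 1)) n

/-- replace a word by the right side of a record -/
noncomputable def rd (T : ℕ → ℕ) (i u : ℕ) (s : List ℕ) (k : ℕ → List ℕ → Bool) : Bool :=
  List.rec false (fun f s' _ => force u fun u => Nat.rec (k u s') (fun _ _ =>
    an (lt f i) (force (T f) fun R => an (Nat.beq (fL R) u) (force (fR R) fun r => k r s'))) f) s

noncomputable def exW (B : ℕ) (T : ℕ → ℕ) (i : ℕ) (x : ℕ → ℕ) (e : Ex) :
    List ℕ → (ℕ → List ℕ → Bool) → Bool :=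
  Ex.rec (fun n s k => an (lt (Nat.mul 2 n) (Nat.shiftLeft 1 B)) (force (Nat.mul 2 n) fun u => k u s))
    (fun n s k => force (x n) fun u => k u s) (fun s k => k 0 s)
    (fun _ _ a b s k => a s fun u s => b s fun v s => force (cat B u v) fun r => k r s)
    (fun _ a s k => a s fun u s => force (invW B u) fun r => k r s)
    (fun _ _ a b s k => a s fun u s => b s fun v s => force (cat B u v) fun r =>
      rd T i (invN B (len B v) v r) s k)
    (fun _ _ a b s k => a s fun u s => b s fun v s => force (cat B u v) fun r =>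
      force (invN B (len B v) v r) fun r => rd T i (invN B (len B u) u r) s k)
    (fun n _ a s k => a s fun u s => rd T i (powW B u n) s k) e

noncomputable def eqW (B : ℕ) (T : ℕ → ℕ) (i : ℕ) (x : ℕ → ℕ) (q : Eqn) (s : List ℕ)
    (k : ℕ → ℕ → List ℕ → Bool) : Bool :=
  Eqn.rec (fun a b => exW B T i x a s fun u s => exW B T i x b s fun v s => k u v s)
    (fun a b => exW B T i x a s fun u s => rd T i u s fun u s => exW B T i x b s fun v s =>
      rd T i v s fun v s => force (cat B u v) fun r => force (cat B v u) fun r' => k r r' s) q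

noncomputable def prv (B : ℕ) (T : ℕ → ℕ) (i : ℕ) (x : ℕ → ℕ) (q : Eqn) (s : List ℕ)
    (k : List ℕ → Bool) : Bool :=
  eqW B T i x q s fun u v s => rd T i u s fun u s => rd T i v s fun v s => an (Nat.beq u v) (k s)

noncomputable def prvs (B : ℕ) (T : ℕ → ℕ) (i : ℕ) (x : ℕ → ℕ) (l : List Eqn) :
    List ℕ → (List ℕ → Bool) → Bool :=
  List.rec (fun s k => k s) (fun q _ ih s k => prv B T i x q s fun s => ih s k) l

noncomputable def nth {α : Type*} (d : α) (l : List α) : ℕ → α :=
  List.rec (fun _ => d) (fun a _ ih n => Nat.rec a (fun n _ => ih n) n) l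

/-- an instance of a law: number of the law, two words, the records used -/
structure Ins where
  law : ℕ
  x : ℕ
  y : ℕ
  s : List ℕ

noncomputable def insChk (B : ℕ) (T : ℕ → ℕ) (laws : List Law) (i l r : ℕ) (t : Ins) : Bool :=
  Ins.rec (fun j x y s => Law.rec (fun pr co =>
    prvs B T i (fun n => Nat.rec x (fun _ _ => y) n) pr s fun s =>
      eqW B T i (fun n => Nat.rec x (fun _ _ => y) n) co s fun u v _ =>
        an (Nat.beq u l) (Nat.beq v r)) (nth ⟨[], .E .o .o⟩ laws j)) t

noncomputable def chk (B w : ℕ) (T P : ℕ → ℕ) (I : ℕ → Ins) (laws : List Law) (i : ℕ) : Bool :=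
  force (T i) fun R => force (P i) fun h => force (fL R) fun l => force (fR R) fun r =>
  an (Nat.beq (Nat.mod (nL R) B) 0) (an (Nat.beq (Nat.mod (nR R) B) 0)
  (an (lt r (Nat.shiftLeft 1 (nR R)))
  (Nat.rec (run B w T i (Nat.land (Nat.shiftRight h 1) 16383) (Nat.shiftRight h 15) l r)
    (fun _ _ => force (Nat.shiftRight h 1) fun j => insChk B T laws i l r (I j)) (Nat.land h 1))))

/-- check `f` on the block `[a * 2 ^ d, (a + 1) * 2 ^ d)` -/
noncomputable def allB (f : ℕ → Bool) (d : ℕ) : ℕ → Bool :=
  Nat.rec f (fun _ ih a => force (Nat.mul 2 a) fun b => an (ih b) (force (Nat.succ b) ih)) d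
/-- inner node of a table -/
noncomputable def nd {α : Type} (m : ℕ) (l r : ℕ → α) (i : ℕ) : α :=
  Nat.rec (l i) (fun _ _ => r i) (Nat.land i m)
/-- leaf of a table: sixteen packed records of width `w` -/
def lf (w x i : ℕ) : ℕ := low (Nat.shiftRight x (Nat.mul w (Nat.land i 15))) w
def l1 {α : Type} (x : α) (_i : ℕ) : α := x

end Pool.Agent.P.MP_9682d1_al.KB
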