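import Pool.Agent.P.MP_9682d1_al.KB.G5bB0
import Pool.Agent.P.MP_9682d1_al.KB.G5bB1
import Pool.Agent.P.MP_9682d1_al.KB.G5bB2
import Pool.Agent.P.MP_9682d1_al.KB.G5bB3

set_option autoImplicit false
set_option maxRecDepth 100000

namespace Pool.Agent.P.MP_9682d1_al.KB.G5b

theorem tg : prvs 5 T (30 * 2 ^ 9) (fun _ => 0) tgs [15027, 0] (fun _ => true) = true := by
  decide +kernel

theorem main {G : Type*} [Group G] (a b c : G)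
    (h0 : ∀ x : G, cm (cj a x) a = (1 : G) → cm (cj a x) (cj a x⁻¹) = (1 : G))
    (h1 : ∀ x : G, cm (cj a x) a = (1 : G) → cm (cj a (x * x)) (cj a x⁻¹) = (1 : G))
    (h2 : ∀ x : G, cm (cj a x) a = (1 : G) → cm (cm (cm (cm a x) x) x) x = (1 : G))
    (h4 : ∀ x y : G, cm (cm a x) a = (1 : G) → cm (cm a x) x = (1 : G) → cm a y = (1 : G) → cm (cm (cm (cm a (x * y)) (x * y)) (x * y)) (x * y) = (1 : G))
    (h7 : ∀ x : G, cm (cj b x) b = (1 : G) → cm (cj b x) (cj b x⁻¹) = (1 : G))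
    (h8 : ∀ x : G, cm (cj b x) b = (1 : G) → cm (cj b (x * x)) (cj b x⁻¹) = (1 : G))
    (h9 : ∀ x : G, cm (cj b x) b = (1 : G) → cm (cm (cm (cm b x) x) x) x = (1 : G))
    (h12 : ∀ x y : G, cm b y = (1 : G) → cm (cj b x) y = (1 : G) → cm (cj b x⁻¹) y = (1 : G) → cm (cj b (x * x)) y = (1 : G))
    (h14 : ∀ x : G, cm (cj c x) c = (1 : G) → cm (cj c x) (cj c x⁻¹) = (1 : G))
    (h15 : ∀ x : G, cm (cj c x) c = (1 : G) → cm (cj c (x * x)) (cj c x⁻¹) = (1 : G))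
    (h16 : ∀ x : G, cm (cj c x) c = (1 : G) → cm (cm (cm (cm c x) x) x) x = (1 : G))
    (h17 : ∀ x y : G, cm (cm c x) c = (1 : G) → cm (cm c x) x = (1 : G) → cm c y = (1 : G) → cm (cm c x) (cj (cm c x) y) = (1 : G))
    (h18 : ∀ x y : G, cm (cm c x) c = (1 : G) → cm (cm c x) x = (1 : G) → cm c y = (1 : G) → cm (cm (cm (cm c (x * y)) (x * y)) (x * y)) (x * y) = (1 : G))
    (h21 : ∀ x : G, cm (cm (cj a x) a) a = (1 : G) → cm (cm (cj a x) a) (cj a x) = (1 : G) → cm (cm (cj a x) a) (cj a x⁻¹) = (1 : G))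
    (h22 : ∀ x : G, cm (cm (cj a x) a) a = (1 : G) → cm (cm (cj a x) a) (cj a x) = (1 : G) → cm (cm (cj a x) a) (cj a (x ^ (2 : ℕ))) = (1 : G))
    (h23 : ∀ x : G, cm (cm (cj a x) a) a = (1 : G) → cm (cm (cj a x) a) (cj a x) = (1 : G) → cm (cm (cj a x) a) (cj a (x⁻¹ ^ (2 : ℕ))) = (1 : G))
    (h24 : ∀ x : G, cm (cm (cj a x) a) a = (1 : G) → cm (cm (cj a x) a) (cj a x) = (1 : G) → cm (cm (cj a x) (cj a x⁻¹)) a = (1 : G))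
    (h25 : ∀ x : G, cm (cm (cj a x) a) a = (1 : G) → cm (cm (cj a x) a) (cj a x) = (1 : G) → cm (cm (cj a x) (cj a x⁻¹)) (cj a x) = (1 : G))
    (h26 : ∀ x : G, cm (cm (cj a x) a) a = (1 : G) → cm (cm (cj a x) a) (cj a x) = (1 : G) → cm (cm (cj a x) (cj a x⁻¹)) (cj a x⁻¹) = (1 : G))
    (h27 : ∀ x : G, cm (cm (cj a x) a) a = (1 : G) → cm (cm (cj a x) a) (cj a x) = (1 : G) → cm (cm (cj a x) (cj a x⁻¹)) (cj a (x ^ (2 : ℕ))) = (1 : G))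
    (h28 : ∀ x : G, cm (cm (cj a x) a) a = (1 : G) → cm (cm (cj a x) a) (cj a x) = (1 : G) → cm (cm (cj a x) (cj a x⁻¹)) (cj a (x⁻¹ ^ (2 : ℕ))) = (1 : G))
    (h29 : ∀ x : G, cm (cm (cj a x) a) a = (1 : G) → cm (cm (cj a x) a) (cj a x) = (1 : G) → cm (cm (cm (cm (cj a x) a) x) x) x = (1 : G))
    (h30 : ∀ x : G, cm (cm (cj b x) b) b = (1 : G) → cm (cm (cj b x) b) (cj b x) = (1 : G) → cm (cm (cj b x) b) (cj b x⁻¹) = (1 : G))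
    (h31 : ∀ x : G, cm (cm (cj b x) b) b = (1 : G) → cm (cm (cj b x) b) (cj b x) = (1 : G) → cm (cm (cj b x) b) (cj b (x ^ (2 : ℕ))) = (1 : G))
    (h32 : ∀ x : G, cm (cm (cj b x) b) b = (1 : G) → cm (cm (cj b x) b) (cj b x) = (1 : G) → cm (cm (cj b x) b) (cj b (x⁻¹ ^ (2 : ℕ))) = (1 : G))
    (h33 : ∀ x : G, cm (cm (cj b x) b) b = (1 : G) → cm (cm (cj b x) b) (cj b x) = (1 : G) → cm (cm (cj b x) (cj b x⁻¹)) b = (1 : G))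
    (h34 : ∀ x : G, cm (cm (cj b x) b) b = (1 : G) → cm (cm (cj b x) b) (cj b x) = (1 : G) → cm (cm (cj b x) (cj b x⁻¹)) (cj b x) = (1 : G))
    (h35 : ∀ x : G, cm (cm (cj b x) b) b = (1 : G) → cm (cm (cj b x) b) (cj b x) = (1 : G) → cm (cm (cj b x) (cj b x⁻¹)) (cj b x⁻¹) = (1 : G))
    (h36 : ∀ x : G, cm (cm (cj b x) b) b = (1 : G) → cm (cm (cj b x) b) (cj b x) = (1 : G) → cm (cm (cj b x) (cj b x⁻¹)) (cj b (x ^ (2 : ℕ))) = (1 : G))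
    (h37 : ∀ x : G, cm (cm (cj b x) b) b = (1 : G) → cm (cm (cj b x) b) (cj b x) = (1 : G) → cm (cm (cj b x) (cj b x⁻¹)) (cj b (x⁻¹ ^ (2 : ℕ))) = (1 : G))
    (h39 : ∀ x : G, cm (cm (cj c x) c) c = (1 : G) → cm (cm (cj c x) c) (cj c x) = (1 : G) → cm (cm (cj c x) c) (cj c x⁻¹) = (1 : G))
    (h40 : ∀ x : G, cm (cm (cj c x) c) c = (1 : G) → cm (cm (cj c x) c) (cj c x) = (1 : G) → cm (cm (cj c x) c) (cj c (x ^ (2 : ℕ))) = (1 : G))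
    (h41 : ∀ x : G, cm (cm (cj c x) c) c = (1 : G) → cm (cm (cj c x) c) (cj c x) = (1 : G) → cm (cm (cj c x) c) (cj c (x⁻¹ ^ (2 : ℕ))) = (1 : G))
    (h42 : ∀ x : G, cm (cm (cj c x) c) c = (1 : G) → cm (cm (cj c x) c) (cj c x) = (1 : G) → cm (cm (cj c x) (cj c x⁻¹)) c = (1 : G))
    (h43 : ∀ x : G, cm (cm (cj c x) c) c = (1 : G) → cm (cm (cj c x) c) (cj c x) = (1 : G) → cm (cm (cj c x) (cj c x⁻¹)) (cj c x) = (1 : G))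
    (h44 : ∀ x : G, cm (cm (cj c x) c) c = (1 : G) → cm (cm (cj c x) c) (cj c x) = (1 : G) → cm (cm (cj c x) (cj c x⁻¹)) (cj c x⁻¹) = (1 : G))
    (h45 : ∀ x : G, cm (cm (cj c x) c) c = (1 : G) → cm (cm (cj c x) c) (cj c x) = (1 : G) → cm (cm (cj c x) (cj c x⁻¹)) (cj c (x ^ (2 : ℕ))) = (1 : G))
    (h46 : ∀ x : G, cm (cm (cj c x) c) c = (1 : G) → cm (cm (cj c x) c) (cj c x) = (1 : G) → cm (cm (cj c x) (cj c x⁻¹)) (cj c (x⁻¹ ^ (2 : ℕ))) = (1 : G))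
    (h47 : ∀ x : G, cm (cm (cj c x) c) c = (1 : G) → cm (cm (cj c x) c) (cj c x) = (1 : G) → cm (cm (cm (cm (cj c x) c) x) x) x = (1 : G))
    (h48 : cm (cm (cm (cm (cm (cm c b) a) c) c) a) a = (1 : G) → cm (cm (cm (cm (cm (cm c b) a) c) c) a) b = (1 : G) → cm (cm (cm (cm (cm (cm c b) a) c) c) a) c = (1 : G) → (cm (cm (cm (cm (cm c b) a) c) c) a) = (1 : G))
    (h49 : cm (cm (cm (cm (cm c b) a) c) c) a = (1 : G) → cm (cm (cm (cm (cm c b) a) c) c) b = (1 : G) → cm (cm (cm (cm (cm c b) a) c) c) c = (1 : G) → (cm (cm (cm (cm c b) a) c) c) = (1 : G))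
    (h61 : cm ((cm (cm (cm (cm c b) a) c) c) ^ (2 : ℕ)) b = (1 : G) → cm (cm (cm (cm (cm c b) a) c) c) b = (1 : G))
    (h78 : cm a b = (1 : G))
    (h79 : cm (cm c a) a = (1 : G))
    (h80 : cm (cm c b) b = (1 : G))
    (h81 : ∀ x : G, cm (cm (cm (cj a x) a) a) a = (1 : G))
    (h82 : ∀ x : G, cm (cm (cm (cj a x) a) a) (cj a x) = (1 : G))
    (h84 : ∀ x : G, cm (cm (cm (cj a x) a) (cj a x)) (cj a x) = (1 : G))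
    (h85 : ∀ x : G, cm (cm (cm (cj a x) b) b) b = (1 : G))
    (h86 : ∀ x : G, cm (cm (cm (cj a x) b) b) (cj a x) = (1 : G))
    (h87 : ∀ x : G, cm (cm (cm (cj a x) b) (cj a x)) b = (1 : G))
    (h88 : ∀ x : G, cm (cm (cm (cj a x) b) (cj a x)) (cj a x) = (1 : G))
    (h89 : ∀ x : G, cm (cm (cm (cj a x) c) c) c = (1 : G))
    (h90 : ∀ x : G, cm (cm (cm (cj a x) c) c) (cj a x) = (1 : G))
    (h91 : ∀ x : G, cm (cm (cm (cj a x) c) (cj a x)) c = (1 : G))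
    (h92 : ∀ x : G, cm (cm (cm (cj a x) c) (cj a x)) (cj a x) = (1 : G))
    (h93 : ∀ x : G, cm (cm (cm (cj b x) a) a) a = (1 : G))
    (h94 : ∀ x : G, cm (cm (cm (cj b x) a) a) (cj b x) = (1 : G))
    (h95 : ∀ x : G, cm (cm (cm (cj b x) a) (cj b x)) a = (1 : G))
    (h96 : ∀ x : G, cm (cm (cm (cj b x) a) (cj b x)) (cj b x) = (1 : G))
    (h97 : ∀ x : G, cm (cm (cm (cj b x) b) b) b = (1 : G))
    (h98 : ∀ x : G, cm (cm (cm (cj b x) b) b) (cj b x) = (1 : G))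
    (h100 : ∀ x : G, cm (cm (cm (cj b x) b) (cj b x)) (cj b x) = (1 : G))
    (h101 : ∀ x : G, cm (cm (cm (cj b x) c) c) c = (1 : G))
    (h102 : ∀ x : G, cm (cm (cm (cj b x) c) c) (cj b x) = (1 : G))
    (h103 : ∀ x : G, cm (cm (cm (cj b x) c) (cj b x)) c = (1 : G))
    (h104 : ∀ x : G, cm (cm (cm (cj b x) c) (cj b x)) (cj b x) = (1 : G))
    (h105 : ∀ x : G, cm (cm (cm (cj c x) a) a) a = (1 : G))
    (h106 : ∀ x : G, cm (cm (cm (cj c x) a) a) (cj c x) = (1 : G))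
    (h107 : ∀ x : G, cm (cm (cm (cj c x) a) (cj c x)) a = (1 : G))
    (h108 : ∀ x : G, cm (cm (cm (cj c x) a) (cj c x)) (cj c x) = (1 : G))
    (h109 : ∀ x : G, cm (cm (cm (cj c x) b) b) b = (1 : G))
    (h110 : ∀ x : G, cm (cm (cm (cj c x) b) b) (cj c x) = (1 : G))
    (h111 : ∀ x : G, cm (cm (cm (cj c x) b) (cj c x)) b = (1 : G))
    (h112 : ∀ x : G, cm (cm (cm (cj c x) b) (cj c x)) (cj c x) = (1 : G))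
    (h113 : ∀ x : G, cm (cm (cm (cj c x) c) c) c = (1 : G))
    (h114 : ∀ x : G, cm (cm (cm (cj c x) c) c) (cj c x) = (1 : G))
    (h115 : ∀ x : G, cm (cm (cm (cj c x) c) (cj c x)) c = (1 : G))
    (h116 : ∀ x : G, cm (cm (cm (cj c x) c) (cj c x)) (cj c x) = (1 : G))
    (h117 : ∀ x : G, (((((a⁻¹ * (cj a x⁻¹)) * a⁻¹) * (cj a x)) * (cj a (x ^ (2 : ℕ)))⁻¹) * (cj a x)) = ((((((cj a (x ^ (2 : ℕ)))⁻¹ * (cj a x)) * a⁻¹) * (cj a x)) * a⁻¹) * (cj a x⁻¹)))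
    (h118 : ∀ x : G, (((((((a⁻¹ * (cj a x⁻¹)) * (cj a (x⁻¹ ^ (2 : ℕ)))⁻¹) * (cj a x⁻¹)) * a⁻¹) * (cj a x⁻¹)) * a⁻¹) * (cj a x)) = ((((((((cj a x)⁻¹ * a) * (cj a x⁻¹)⁻¹) * a) * (cj a x)⁻¹) * a) * (cj a x)⁻¹) * (cj a (x ^ (2 : ℕ)))))
    (h119 : ∀ x : G, (((((a * (cj a⁻¹ x⁻¹)) * a) * (cj a⁻¹ x)) * (cj a⁻¹ (x ^ (2 : ℕ)))⁻¹) * (cj a⁻¹ x)) = ((((((cj a⁻¹ (x ^ (2 : ℕ)))⁻¹ * (cj a⁻¹ x)) * a) * (cj a⁻¹ x)) * a) * (cj a⁻¹ x⁻¹)))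
    (h120 : ∀ x : G, (((((((a * (cj a⁻¹ x⁻¹)) * (cj a⁻¹ (x⁻¹ ^ (2 : ℕ)))⁻¹) * (cj a⁻¹ x⁻¹)) * a) * (cj a⁻¹ x⁻¹)) * a) * (cj a⁻¹ x)) = ((((((((cj a⁻¹ x)⁻¹ * a⁻¹) * (cj a⁻¹ x⁻¹)⁻¹) * a⁻¹) * (cj a⁻¹ x)⁻¹) * a⁻¹) * (cj a⁻¹ x)⁻¹) * (cj a⁻¹ (x ^ (2 : ℕ)))))
    (h139 : ∀ x : G, cm (cm (cm (cj a x) (cj a x⁻¹)) a) a = (1 : G))
    (h140 : ∀ x : G, cm (cm (cm (cj a x) (cj a x⁻¹)) a) (cj a x) = (1 : G))
    (h142 : ∀ x : G, cm (cm (cm (cj a x) (cj a x⁻¹)) (cj a x)) a = (1 : G))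
    (h143 : ∀ x : G, cm (cm (cm (cj a x) (cj a x⁻¹)) (cj a x)) (cj a x) = (1 : G))
    (h144 : ∀ x : G, cm (cm (cm (cj a x) (cj a x⁻¹)) (cj a x)) (cj a x⁻¹) = (1 : G))
    (h145 : ∀ x : G, cm (cm (cm (cj a x) (cj a x⁻¹)) (cj a x⁻¹)) a = (1 : G))
    (h146 : ∀ x : G, cm (cm (cm (cj a x) (cj a x⁻¹)) (cj a x⁻¹)) (cj a x) = (1 : G))
    (h147 : ∀ x : G, cm (cm (cm (cj a x) (cj a x⁻¹)) (cj a x⁻¹)) (cj a x⁻¹) = (1 : G))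
    (h151 : ∀ x : G, ((cm (cm (cj a x) (cj a x⁻¹)) (cj a x⁻¹)) * ((cm (cm a (cj a x⁻¹)) a) ^ (2 : ℕ))) = ((cm (cm (cj a x) a) (cj a x)) * ((cm (cm a (cj a x⁻¹)) (cj a x⁻¹)) ^ (3 : ℕ))))
    (h152 : ∀ x : G, ((cm (cm (cj a x) (cj a x⁻¹)) (cj a x)) * ((cm (cm (cj a x) a) a) ^ (2 : ℕ))) = (((cm (cm (cj a x) a) (cj a x)) ^ (3 : ℕ)) * (cm (cm a (cj a x⁻¹)) (cj a x⁻¹))))
    (h153 : ∀ x : G, ((cm (cj a (x ^ (2 : ℕ))) (cj a x)) * ((cm a (cj a x⁻¹)) ^ (3 : ℕ))) = (((cm (cj a x) a) ^ (3 : ℕ)) * (cm (cj a x⁻¹) (cj a (x⁻¹ ^ (2 : ℕ))))))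
    (h154 : ∀ x : G, (((((b⁻¹ * (cj b x⁻¹)) * b⁻¹) * (cj b x)) * (cj b (x ^ (2 : ℕ)))⁻¹) * (cj b x)) = ((((((cj b (x ^ (2 : ℕ)))⁻¹ * (cj b x)) * b⁻¹) * (cj b x)) * b⁻¹) * (cj b x⁻¹)))
    (h155 : ∀ x : G, (((((((b⁻¹ * (cj b x⁻¹)) * (cj b (x⁻¹ ^ (2 : ℕ)))⁻¹) * (cj b x⁻¹)) * b⁻¹) * (cj b x⁻¹)) * b⁻¹) * (cj b x)) = ((((((((cj b x)⁻¹ * b) * (cj b x⁻¹)⁻¹) * b) * (cj b x)⁻¹) * b) * (cj b x)⁻¹) * (cj b (x ^ (2 : ℕ)))))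
    (h156 : ∀ x : G, (((((b * (cj b⁻¹ x⁻¹)) * b) * (cj b⁻¹ x)) * (cj b⁻¹ (x ^ (2 : ℕ)))⁻¹) * (cj b⁻¹ x)) = ((((((cj b⁻¹ (x ^ (2 : ℕ)))⁻¹ * (cj b⁻¹ x)) * b) * (cj b⁻¹ x)) * b) * (cj b⁻¹ x⁻¹)))
    (h157 : ∀ x : G, (((((((b * (cj b⁻¹ x⁻¹)) * (cj b⁻¹ (x⁻¹ ^ (2 : ℕ)))⁻¹) * (cj b⁻¹ x⁻¹)) * b) * (cj b⁻¹ x⁻¹)) * b) * (cj b⁻¹ x)) = ((((((((cj b⁻¹ x)⁻¹ * b⁻¹) * (cj b⁻¹ x⁻¹)⁻¹) * b⁻¹) * (cj b⁻¹ x)⁻¹) * b⁻¹) * (cj b⁻¹ x)⁻¹) * (cj b⁻¹ (x ^ (2 : ℕ)))))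
    (h158 : ∀ x : G, cm (cm (cm (cj b x) b) b) b = (1 : G))
    (h159 : ∀ x : G, cm (cm (cm (cj b x) b) b) (cj b x) = (1 : G))
    (h161 : ∀ x : G, cm (cm (cm (cj b x) b) (cj b x)) b = (1 : G))
    (h162 : ∀ x : G, cm (cm (cm (cj b x) b) (cj b x)) (cj b x) = (1 : G))
    (h163 : ∀ x : G, cm (cm (cm (cj b x) b) (cj b x)) (cj b x⁻¹) = (1 : G))
    (h164 : ∀ x : G, cm (cm (cm (cj b x) b) (cj b x⁻¹)) b = (1 : G))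
    (h165 : ∀ x : G, cm (cm (cm (cj b x) b) (cj b x⁻¹)) (cj b x) = (1 : G))
    (h166 : ∀ x : G, cm (cm (cm (cj b x) b) (cj b x⁻¹)) (cj b x⁻¹) = (1 : G))
    (h167 : ∀ x : G, cm (cm (cm (cj b x⁻¹) b) b) b = (1 : G))
    (h168 : ∀ x : G, cm (cm (cm (cj b x⁻¹) b) b) (cj b x) = (1 : G))
    (h169 : ∀ x : G, cm (cm (cm (cj b x⁻¹) b) b) (cj b x⁻¹) = (1 : G))
    (h170 : ∀ x : G, cm (cm (cm (cj b x⁻¹) b) (cj b x)) b = (1 : G))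
    (h171 : ∀ x : G, cm (cm (cm (cj b x⁻¹) b) (cj b x)) (cj b x) = (1 : G))
    (h172 : ∀ x : G, cm (cm (cm (cj b x⁻¹) b) (cj b x)) (cj b x⁻¹) = (1 : G))
    (h176 : ∀ x : G, cm (cm (cm (cj b x) (cj b x⁻¹)) b) b = (1 : G))
    (h177 : ∀ x : G, cm (cm (cm (cj b x) (cj b x⁻¹)) b) (cj b x) = (1 : G))
    (h179 : ∀ x : G, cm (cm (cm (cj b x) (cj b x⁻¹)) (cj b x)) b = (1 : G))
    (h182 : ∀ x : G, cm (cm (cm (cj b x) (cj b x⁻¹)) (cj b x⁻¹)) b = (1 : G))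
    (h184 : ∀ x : G, cm (cm (cm (cj b x) (cj b x⁻¹)) (cj b x⁻¹)) (cj b x⁻¹) = (1 : G))
    (h188 : ∀ x : G, ((cm (cm (cj b x) (cj b x⁻¹)) (cj b x⁻¹)) * ((cm (cm b (cj b x⁻¹)) b) ^ (2 : ℕ))) = ((cm (cm (cj b x) b) (cj b x)) * ((cm (cm b (cj b x⁻¹)) (cj b x⁻¹)) ^ (3 : ℕ))))
    (h189 : ∀ x : G, ((cm (cm (cj b x) (cj b x⁻¹)) (cj b x)) * ((cm (cm (cj b x) b) b) ^ (2 : ℕ))) = (((cm (cm (cj b x) b) (cj b x)) ^ (3 : ℕ)) * (cm (cm b (cj b x⁻¹)) (cj b x⁻¹))))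
    (h190 : ∀ x : G, ((cm (cj b (x ^ (2 : ℕ))) (cj b x)) * ((cm b (cj b x⁻¹)) ^ (3 : ℕ))) = (((cm (cj b x) b) ^ (3 : ℕ)) * (cm (cj b x⁻¹) (cj b (x⁻¹ ^ (2 : ℕ))))))
    (h191 : ∀ x : G, (((((c⁻¹ * (cj c x⁻¹)) * c⁻¹) * (cj c x)) * (cj c (x ^ (2 : ℕ)))⁻¹) * (cj c x)) = ((((((cj c (x ^ (2 : ℕ)))⁻¹ * (cj c x)) * c⁻¹) * (cj c x)) * c⁻¹) * (cj c x⁻¹)))
    (h192 : ∀ x : G, (((((((c⁻¹ * (cj c x⁻¹)) * (cj c (x⁻¹ ^ (2 : ℕ)))⁻¹) * (cj c x⁻¹)) * c⁻¹) * (cj c x⁻¹)) * c⁻¹) * (cj c x)) = ((((((((cj c x)⁻¹ * c) * (cj c x⁻¹)⁻¹) * c) * (cj c x)⁻¹) * c) * (cj c x)⁻¹) * (cj c (x ^ (2 : ℕ)))))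
    (h193 : ∀ x : G, (((((c * (cj c⁻¹ x⁻¹)) * c) * (cj c⁻¹ x)) * (cj c⁻¹ (x ^ (2 : ℕ)))⁻¹) * (cj c⁻¹ x)) = ((((((cj c⁻¹ (x ^ (2 : ℕ)))⁻¹ * (cj c⁻¹ x)) * c) * (cj c⁻¹ x)) * c) * (cj c⁻¹ x⁻¹)))
    (h194 : ∀ x : G, (((((((c * (cj c⁻¹ x⁻¹)) * (cj c⁻¹ (x⁻¹ ^ (2 : ℕ)))⁻¹) * (cj c⁻¹ x⁻¹)) * c) * (cj c⁻¹ x⁻¹)) * c) * (cj c⁻¹ x)) = ((((((((cj c⁻¹ x)⁻¹ * c⁻¹) * (cj c⁻¹ x⁻¹)⁻¹) * c⁻¹) * (cj c⁻¹ x)⁻¹) * c⁻¹) * (cj c⁻¹ x)⁻¹) * (cj c⁻¹ (x ^ (2 : ℕ)))))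
    (h195 : ∀ x : G, cm (cm (cm (cj c x) c) c) c = (1 : G))
    (h197 : ∀ x : G, cm (cm (cm (cj c x) c) c) (cj c x⁻¹) = (1 : G))
    (h198 : ∀ x : G, cm (cm (cm (cj c x) c) (cj c x)) c = (1 : G))
    (h199 : ∀ x : G, cm (cm (cm (cj c x) c) (cj c x)) (cj c x) = (1 : G))
    (h200 : ∀ x : G, cm (cm (cm (cj c x) c) (cj c x)) (cj c x⁻¹) = (1 : G))
    (h201 : ∀ x : G, cm (cm (cm (cj c x) c) (cj c x⁻¹)) c = (1 : G))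
    (h202 : ∀ x : G, cm (cm (cm (cj c x) c) (cj c x⁻¹)) (cj c x) = (1 : G))
    (h203 : ∀ x : G, cm (cm (cm (cj c x) c) (cj c x⁻¹)) (cj c x⁻¹) = (1 : G))
    (h204 : ∀ x : G, cm (cm (cm (cj c x⁻¹) c) c) c = (1 : G))
    (h205 : ∀ x : G, cm (cm (cm (cj c x⁻¹) c) c) (cj c x) = (1 : G))
    (h206 : ∀ x : G, cm (cm (cm (cj c x⁻¹) c) c) (cj c x⁻¹) = (1 : G))
    (h207 : ∀ x : G, cm (cm (cm (cj c x⁻¹) c) (cj c x)) c = (1 : G))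
    (h208 : ∀ x : G, cm (cm (cm (cj c x⁻¹) c) (cj c x)) (cj c x) = (1 : G))
    (h209 : ∀ x : G, cm (cm (cm (cj c x⁻¹) c) (cj c x)) (cj c x⁻¹) = (1 : G))
    (h210 : ∀ x : G, cm (cm (cm (cj c x⁻¹) c) (cj c x⁻¹)) c = (1 : G))
    (h211 : ∀ x : G, cm (cm (cm (cj c x⁻¹) c) (cj c x⁻¹)) (cj c x) = (1 : G))
    (h212 : ∀ x : G, cm (cm (cm (cj c x⁻¹) c) (cj c x⁻¹)) (cj c x⁻¹) = (1 : G))
    (h213 : ∀ x : G, cm (cm (cm (cj c x) (cj c x⁻¹)) c) c = (1 : G))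
    (h214 : ∀ x : G, cm (cm (cm (cj c x) (cj c x⁻¹)) c) (cj c x) = (1 : G))
    (h215 : ∀ x : G, cm (cm (cm (cj c x) (cj c x⁻¹)) c) (cj c x⁻¹) = (1 : G))
    (h216 : ∀ x : G, cm (cm (cm (cj c x) (cj c x⁻¹)) (cj c x)) c = (1 : G))
    (h217 : ∀ x : G, cm (cm (cm (cj c x) (cj c x⁻¹)) (cj c x)) (cj c x) = (1 : G))
    (h218 : ∀ x : G, cm (cm (cm (cj c x) (cj c x⁻¹)) (cj c x)) (cj c x⁻¹) = (1 : G))
    (h219 : ∀ x : G, cm (cm (cm (cj c x) (cj c x⁻¹)) (cj c x⁻¹)) c = (1 : G))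
    (h220 : ∀ x : G, cm (cm (cm (cj c x) (cj c x⁻¹)) (cj c x⁻¹)) (cj c x) = (1 : G))
    (h221 : ∀ x : G, cm (cm (cm (cj c x) (cj c x⁻¹)) (cj c x⁻¹)) (cj c x⁻¹) = (1 : G))
    (h222 : ∀ x : G, ((cm (cm (cj c x) c) (cj c x⁻¹)) * (cm (cm c (cj c x⁻¹)) c)) = ((cm (cm (cj c x) c) c) * (cm (cm c (cj c x⁻¹)) (cj c x⁻¹))))
    (h223 : ∀ x : G, ((cm (cm c (cj c x⁻¹)) (cj c x)) * (cm (cm (cj c x) c) c)) = ((cm (cm (cj c x) c) (cj c x)) * (cm (cm c (cj c x⁻¹)) c)))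
    (h224 : ∀ x : G, (((cm (cm (cj c x) c) c) ^ (5 : ℕ)) * (cm (cm (cj c x) c) (cj c x))) = ((cm (cm c (cj c x⁻¹)) (cj c x⁻¹)) * ((cm (cm c (cj c x⁻¹)) c) ^ (5 : ℕ))))
    (h225 : ∀ x : G, ((cm (cm (cj c x) (cj c x⁻¹)) (cj c x⁻¹)) * ((cm (cm c (cj c x⁻¹)) c) ^ (2 : ℕ))) = ((cm (cm (cj c x) c) (cj c x)) * ((cm (cm c (cj c x⁻¹)) (cj c x⁻¹)) ^ (3 : ℕ))))
    (h226 : ∀ x : G, ((cm (cm (cj c x) (cj c x⁻¹)) (cj c x)) * ((cm (cm (cj c x) c) c) ^ (2 : ℕ))) = (((cm (cm (cj c x) c) (cj c x)) ^ (3 : ℕ)) * (cm (cm c (cj c x⁻¹)) (cj c x⁻¹))))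
    (h227 : ∀ x : G, ((cm (cj c (x ^ (2 : ℕ))) (cj c x)) * ((cm c (cj c x⁻¹)) ^ (3 : ℕ))) = (((cm (cj c x) c) ^ (3 : ℕ)) * (cm (cj c x⁻¹) (cj c (x⁻¹ ^ (2 : ℕ))))))
    (h228 : ∀ x y : G, cm (cm (cm (cm (cj a x) y) y) y) y = (1 : G))
    (h229 : ∀ x y : G, cm (cm (cm (cm (cj a⁻¹ x) y) y) y) y = (1 : G))
    (h230 : ∀ x y : G, cm (cm (cm (cm (cj b x) y) y) y) y = (1 : G))
    (h231 : ∀ x y : G, cm (cm (cm (cm (cj b⁻¹ x) y) y) y) y = (1 : G))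
    (h233 : ∀ x y : G, cm (cm (cm (cm (cj c⁻¹ x) y) y) y) y = (1 : G)) :
    (cm (cm (cm (cm c b) a) c) c) = (1 : G) := by
  obtain ⟨t0, -⟩ := targets (G := G) (g := nth (1 : G) [1, a, b, c, (cm c a), (cm c b), (cm (cm c a) c), (cm (cm c b) c), (cm (cm c b) a), (cm (cm (cm c a) c) b), (cm (cm (cm c b) a) c), (cm (cm (cm (cm c b) a) c) c), (cm (cm (cm (cm (cm c b) a) c) c) a)]) (by decide) rfl
    (laws := laws) ⟨fun _ => rfl, fun _ => rfl, fun _ => rfl, fun _ => rfl, fun _ => rfl, fun _ => rfl, fun _ => rfl, fun _ => rfl, fun _ => rfl, fun _ => h78, fun _ => h79, fun _ => h80, fun y => h85 (y 0), fun y => h86 (y 0), fun y => h89 (y 0), fun y => h90 (y 0), fun y => h92 (y 0), fun y => h101 (y 0), fun y => h102 (y 0), fun y => h103 (y 0), fun y => h104 (y 0), fun y => h107 (y 0), fun y => h108 (y 0), fun y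 => h111 (y 0), fun y => h112 (y 0), fun y => h91 (y 0), fun y => h109 (y 0), fun y => h110 (y 0), fun y => h115 (y 0), fun y => h155 (y 0), fun y => h192 (y 0), fun y => h198 (y 0), fun y => h203 (y 0), fun y => h227 (y 0), fun y => h105 (y 0), fun y => h106 (y 0), fun y => h113 (y 0), fun y => h191 (y 0), fun y => h193 (y 0), fun y => h197 (y 0), fun y => h200 (y 0), fun y => h119 (y 0), fun y => h194 (y 0), fun y => h204 (y 0), fun y => h205 (y 0), fun y => h210 (y 0), fun y => h217 (y 0), fun y => h223 (y 0), fun y => h81 (y 0), fun y => h84 (y 0), fun y => h87 (y 0), fun y => h93 (y 0), fun y => h94 (y 0), fun y => h95 (y 0), fun y => h96 (y 0), fun y => h97 (y 0), fun y => h98 (y 0), fun y => h100 (y 0), fun y => h117 (y 0), fun y => h154 (y 0), fun y => h166 (y 0), fun y => h176 (y 0), fun y => h177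 (y 0), fun y => h189 (y 0), fun y => h147 (y 0), fun y => h151 (y 0), fun y => h152 (y 0), fun y => h156 (y 0), fun y => h190 (y 0), fun y => h201 (y 0), fun y => h202 (y 0), fun y => h116 (y 0), fun y => h114 (y 0), fun y => h118 (y 0), fun y => h142 (y 0), fun y => h188 (y 0), fun y => h211 (y 0), fun y => h222 (y 0), fun y => h224 (y 0), fun y => h226 (y 0), fun y => h167 (y 0), fun y => h168 (y 0), fun y => h169 (y 0), fun y => h195 (y 0), fun y => h216 (y 0), fun y => h209 (y 0), fun y => h120 (y 0), fun y => h139 (y 0), fun y => h145 (y 0), fun y => h153 (y 0), fun y => h157 (y 0), fun y => h207 (y 0), fun y => h218 (y 0), fun y => h220 (y 0), fun y => h225 (y 0), fun y => h144 (y 0), fun y => h199 (y 0), fun y => h208 (y 0), fun y => h219 (y 0), fun y => h206 (y 0), fun y => h88 (y 0), fun y => h140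 (y 0), fun y => h182 (y 0), fun y => h213 (y 0), fun y => h214 (y 0), fun y => h215 (y 0), fun y => h221 (y 0), fun y => h82 (y 0), fun y => h184 (y 0), fun y => h212 (y 0), fun y => h146 (y 0), fun y => h158 (y 0), fun y => h159 (y 0), fun y => h161 (y 0), fun y => h162 (y 0), fun y => h163 (y 0), fun y => h164 (y 0), fun y => h165 (y 0), fun y => h170 (y 0), fun y => h171 (y 0), fun y => h172 (y 0), fun y => h179 (y 0), fun y => h143 (y 0), fun y => h233 (y 0) (y 1), fun y => h230 (y 0) (y 1), fun y => h231 (y 0) (y 1), fun y => h228 (y 0) (y 1), fun y => h229 (y 0) (y 1), fun y => h0 (y 0), fun y => h1 (y 0), fun y => h2 (y 0), fun y => h4 (y 0) (y 1), fun y => h7 (y 0), fun y => h8 (y 0), fun y => h9 (y 0), fun y => h12 (y 0) (y 1), fun y => h14 (y 0), fun y => h16 (y 0), fun y => h15 (y 0), fun y =>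 h17 (y 0) (y 1), fun y => h18 (y 0) (y 1), fun y => h23 (y 0), fun y => h28 (y 0), fun y => h27 (y 0), fun y => h22 (y 0), fun y => h24 (y 0), fun y => h26 (y 0), fun y => h25 (y 0), fun y => h21 (y 0), fun y => h29 (y 0), fun y => h35 (y 0), fun y => h36 (y 0), fun y => h37 (y 0), fun y => h32 (y 0), fun y => h34 (y 0), fun y => h33 (y 0), fun y => h30 (y 0), fun y => h31 (y 0), fun y => h39 (y 0), fun y => h42 (y 0), fun y => h43 (y 0), fun y => h44 (y 0), fun y => h46 (y 0), fun y => h45 (y 0), fun y => h47 (y 0), fun y => h40 (y 0), fun y => h41 (y 0), fun _ => h48, fun _ => h61, fun _ => h49, trivial⟩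
    ((Upto.zero _ _ _ _ _ _) |>.succ b0 |>.succ b1 |>.succ b2 |>.succ b3 |>.succ b4 |>.succ b5 |>.succ b6 |>.succ b7 |>.succ b8 |>.succ b9 |>.succ b10 |>.succ b11 |>.succ b12 |>.succ b13 |>.succ b14 |>.succ b15 |>.succ b16 |>.succ b17 |>.succ b18 |>.succ b19 |>.succ b20 |>.succ b21 |>.succ b22 |>.succ b23 |>.succ b24 |>.succ b25 |>.succ b26 |>.succ b27 |>.succ b28 |>.succ b29) tgs _ tg
  exact t0

end Pool.Agent.P.MP_9682d1_al.KB.G5b
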