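import Pool.Agent.P.MP_9682d1_al.KB.G7bB0
import Pool.Agent.P.MP_9682d1_al.KB.G7bB1
import Pool.Agent.P.MP_9682d1_al.KB.G7bB2

set_option autoImplicit false
set_option maxRecDepth 100000

namespace Pool.Agent.P.MP_9682d1_al.KB.G7b

theorem tg : prvs 6 T (12 * 2 ^ 9) (fun _ => 0) tgs [5958, 0] (fun _ => true) = true := by
  decide +kernel

theorem main {G : Type*} [Group G] (a b c : G)
    (h42 : ∀ x y : G, cm (cm x a) a = (1 : G) → cm (cm x a) x = (1 : G) → cm (cm (cm (cj a y) (cm x a)) (cm x a)) a = (1 : G))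
    (h44 : ∀ x y : G, cm (cm x a) a = (1 : G) → cm (cm x a) x = (1 : G) → cm (cm (cm (cj a y) (cm x a)) (cm x a)) (cj a y) = (1 : G))
    (h45 : ∀ x y : G, cm (cm x a) a = (1 : G) → cm (cm x a) x = (1 : G) → cm (cm (cm (cj a y) (cm x a)) a) a = (1 : G))
    (h48 : ∀ x y : G, cm (cm x a) a = (1 : G) → cm (cm x a) x = (1 : G) → cm (cm (cm (cm (cj a y) (cm x a)) (cj a y)) a) a = (1 : G))
    (h50 : ∀ x y : G, cm (cm x a) a = (1 : G) → cm (cm x a) x = (1 : G) → cm (cm (cm (cm (cj a y) (cm x a)) (cj a y)) a) (cj a y) = (1 : G))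
    (h52 : ∀ x y : G, cm (cm x a) a = (1 : G) → cm (cm x a) x = (1 : G) → cm (cm (cm (cj a y) (cm x a)) (cj a y)) (cj a y) = (1 : G))
    (h54 : ∀ x y : G, cm (cm x a) a = (1 : G) → cm (cm x a) x = (1 : G) → ((cm (cm (cm (cj a y) a) (cj a y)) (cm x a)) * (cm (cm (cm (cj a y) (cm x a)) (cj a y)) a)) = (1 : G))
    (h55 : ∀ x y : G, cm (cm x a) a = (1 : G) → cm (cm x a) x = (1 : G) → (cm (cm (cj a y) a) (cm x a)) = ((cm (cm (cj a y) (cm x a)) a) * (cm (cm (cm (cj a y) a) (cj a y)) (cm x a))))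
    (h56 : ∀ x y : G, cm (cm x a) a = (1 : G) → cm (cm x a) x = (1 : G) → cm (cm (cm (cj b y) (cm x a)) (cm x a)) a = (1 : G))
    (h58 : ∀ x y : G, cm (cm x a) a = (1 : G) → cm (cm x a) x = (1 : G) → cm (cm (cm (cj b y) (cm x a)) (cm x a)) (cj b y) = (1 : G))
    (h59 : ∀ x y : G, cm (cm x a) a = (1 : G) → cm (cm x a) x = (1 : G) → cm (cm (cm (cj b y) (cm x a)) a) a = (1 : G))
    (h61 : ∀ x y : G, cm (cm x a) a = (1 : G) → cm (cm x a) x = (1 : G) → cm (cm (cm (cj b y) (cm x a)) a) (cj b y) = (1 : G))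
    (h62 : ∀ x y : G, cm (cm x a) a = (1 : G) → cm (cm x a) x = (1 : G) → cm (cm (cm (cm (cj b y) (cm x a)) (cj b y)) a) a = (1 : G))
    (h64 : ∀ x y : G, cm (cm x a) a = (1 : G) → cm (cm x a) x = (1 : G) → cm (cm (cm (cm (cj b y) (cm x a)) (cj b y)) a) (cj b y) = (1 : G))
    (h66 : ∀ x y : G, cm (cm x a) a = (1 : G) → cm (cm x a) x = (1 : G) → cm (cm (cm (cj b y) (cm x a)) (cj b y)) (cj b y) = (1 : G))
    (h68 : ∀ x y : G, cm (cm x a) a = (1 : G) → cm (cm x a) x = (1 : G) → ((cm (cm (cm (cj b y) a) (cj b y)) (cm x a)) * (cm (cm (cm (cj b y) (cm x a)) (cj b y)) a)) = (1 : G))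
    (h69 : ∀ x y : G, cm (cm x a) a = (1 : G) → cm (cm x a) x = (1 : G) → (cm (cm (cj b y) a) (cm x a)) = ((cm (cm (cj b y) (cm x a)) a) * (cm (cm (cm (cj b y) a) (cj b y)) (cm x a))))
    (h70 : ∀ x y : G, cm (cm x a) a = (1 : G) → cm (cm x a) x = (1 : G) → cm (cm (cm (cj c y) (cm x a)) (cm x a)) a = (1 : G))
    (h72 : ∀ x y : G, cm (cm x a) a = (1 : G) → cm (cm x a) x = (1 : G) → cm (cm (cm (cj c y) (cm x a)) (cm x a)) (cj c y) = (1 : G))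
    (h73 : ∀ x y : G, cm (cm x a) a = (1 : G) → cm (cm x a) x = (1 : G) → cm (cm (cm (cj c y) (cm x a)) a) a = (1 : G))
    (h75 : ∀ x y : G, cm (cm x a) a = (1 : G) → cm (cm x a) x = (1 : G) → cm (cm (cm (cj c y) (cm x a)) a) (cj c y) = (1 : G))
    (h76 : ∀ x y : G, cm (cm x a) a = (1 : G) → cm (cm x a) x = (1 : G) → cm (cm (cm (cm (cj c y) (cm x a)) (cj c y)) a) a = (1 : G))
    (h78 : ∀ x y : G, cm (cm x a) a = (1 : G) → cm (cm x a) x = (1 : G) → cm (cm (cm (cm (cj c y) (cm x a)) (cj c y)) a) (cj c y) = (1 : G))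
    (h80 : ∀ x y : G, cm (cm x a) a = (1 : G) → cm (cm x a) x = (1 : G) → cm (cm (cm (cj c y) (cm x a)) (cj c y)) (cj c y) = (1 : G))
    (h82 : ∀ x y : G, cm (cm x a) a = (1 : G) → cm (cm x a) x = (1 : G) → ((cm (cm (cm (cj c y) a) (cj c y)) (cm x a)) * (cm (cm (cm (cj c y) (cm x a)) (cj c y)) a)) = (1 : G))
    (h83 : ∀ x y : G, cm (cm x a) a = (1 : G) → cm (cm x a) x = (1 : G) → (cm (cm (cj c y) a) (cm x a)) = ((cm (cm (cj c y) (cm x a)) a) * (cm (cm (cm (cj c y) a) (cj c y)) (cm x a))))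
    (h84 : ∀ x y : G, cm (cm x b) b = (1 : G) → cm (cm x b) x = (1 : G) → cm (cm (cm (cj a y) (cm x b)) (cm x b)) b = (1 : G))
    (h96 : ∀ x y : G, cm (cm x b) b = (1 : G) → cm (cm x b) x = (1 : G) → ((cm (cm (cm (cj a y) b) (cj a y)) (cm x b)) * (cm (cm (cm (cj a y) (cm x b)) (cj a y)) b)) = (1 : G))
    (h97 : ∀ x y : G, cm (cm x b) b = (1 : G) → cm (cm x b) x = (1 : G) → (cm (cm (cj a y) b) (cm x b)) = ((cm (cm (cj a y) (cm x b)) b) * (cm (cm (cm (cj a y) b) (cj a y)) (cm x b))))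
    (h98 : ∀ x y : G, cm (cm x b) b = (1 : G) → cm (cm x b) x = (1 : G) → cm (cm (cm (cj b y) (cm x b)) (cm x b)) b = (1 : G))
    (h100 : ∀ x y : G, cm (cm x b) b = (1 : G) → cm (cm x b) x = (1 : G) → cm (cm (cm (cj b y) (cm x b)) (cm x b)) (cj b y) = (1 : G))
    (h101 : ∀ x y : G, cm (cm x b) b = (1 : G) → cm (cm x b) x = (1 : G) → cm (cm (cm (cj b y) (cm x b)) b) b = (1 : G))
    (h103 : ∀ x y : G, cm (cm x b) b = (1 : G) → cm (cm x b) x = (1 : G) → cm (cm (cm (cj b y) (cm x b)) b) (cj b y) = (1 : G))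
    (h106 : ∀ x y : G, cm (cm x b) b = (1 : G) → cm (cm x b) x = (1 : G) → cm (cm (cm (cm (cj b y) (cm x b)) (cj b y)) b) (cj b y) = (1 : G))
    (h108 : ∀ x y : G, cm (cm x b) b = (1 : G) → cm (cm x b) x = (1 : G) → cm (cm (cm (cj b y) (cm x b)) (cj b y)) (cj b y) = (1 : G))
    (h110 : ∀ x y : G, cm (cm x b) b = (1 : G) → cm (cm x b) x = (1 : G) → ((cm (cm (cm (cj b y) b) (cj b y)) (cm x b)) * (cm (cm (cm (cj b y) (cm x b)) (cj b y)) b)) = (1 : G))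
    (h111 : ∀ x y : G, cm (cm x b) b = (1 : G) → cm (cm x b) x = (1 : G) → (cm (cm (cj b y) b) (cm x b)) = ((cm (cm (cj b y) (cm x b)) b) * (cm (cm (cm (cj b y) b) (cj b y)) (cm x b))))
    (h115 : ∀ x y : G, cm (cm x b) b = (1 : G) → cm (cm x b) x = (1 : G) → cm (cm (cm (cj c y) (cm x b)) b) b = (1 : G))
    (h117 : ∀ x y : G, cm (cm x b) b = (1 : G) → cm (cm x b) x = (1 : G) → cm (cm (cm (cj c y) (cm x b)) b) (cj c y) = (1 : G))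
    (h122 : ∀ x y : G, cm (cm x b) b = (1 : G) → cm (cm x b) x = (1 : G) → cm (cm (cm (cj c y) (cm x b)) (cj c y)) (cj c y) = (1 : G))
    (h124 : ∀ x y : G, cm (cm x b) b = (1 : G) → cm (cm x b) x = (1 : G) → ((cm (cm (cm (cj c y) b) (cj c y)) (cm x b)) * (cm (cm (cm (cj c y) (cm x b)) (cj c y)) b)) = (1 : G))
    (h125 : ∀ x y : G, cm (cm x b) b = (1 : G) → cm (cm x b) x = (1 : G) → (cm (cm (cj c y) b) (cm x b)) = ((cm (cm (cj c y) (cm x b)) b) * (cm (cm (cm (cj c y) b) (cj c y)) (cm x b))))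
    (h138 : ∀ x y : G, cm (cm x c) c = (1 : G) → cm (cm x c) x = (1 : G) → ((cm (cm (cm (cj a y) c) (cj a y)) (cm x c)) * (cm (cm (cm (cj a y) (cm x c)) (cj a y)) c)) = (1 : G))
    (h139 : ∀ x y : G, cm (cm x c) c = (1 : G) → cm (cm x c) x = (1 : G) → (cm (cm (cj a y) c) (cm x c)) = ((cm (cm (cj a y) (cm x c)) c) * (cm (cm (cm (cj a y) c) (cj a y)) (cm x c))))
    (h140 : ∀ x y : G, cm (cm x c) c = (1 : G) → cm (cm x c) x = (1 : G) → cm (cm (cm (cj b y) (cm x c)) (cm x c)) c = (1 : G))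
    (h152 : ∀ x y : G, cm (cm x c) c = (1 : G) → cm (cm x c) x = (1 : G) → ((cm (cm (cm (cj b y) c) (cj b y)) (cm x c)) * (cm (cm (cm (cj b y) (cm x c)) (cj b y)) c)) = (1 : G))
    (h153 : ∀ x y : G, cm (cm x c) c = (1 : G) → cm (cm x c) x = (1 : G) → (cm (cm (cj b y) c) (cm x c)) = ((cm (cm (cj b y) (cm x c)) c) * (cm (cm (cm (cj b y) c) (cj b y)) (cm x c))))
    (h154 : ∀ x y : G, cm (cm x c) c = (1 : G) → cm (cm x c) x = (1 : G) → cm (cm (cm (cj c y) (cm x c)) (cm x c)) c = (1 : G))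
    (h166 : ∀ x y : G, cm (cm x c) c = (1 : G) → cm (cm x c) x = (1 : G) → ((cm (cm (cm (cj c y) c) (cj c y)) (cm x c)) * (cm (cm (cm (cj c y) (cm x c)) (cj c y)) c)) = (1 : G))
    (h167 : ∀ x y : G, cm (cm x c) c = (1 : G) → cm (cm x c) x = (1 : G) → (cm (cm (cj c y) c) (cm x c)) = ((cm (cm (cj c y) (cm x c)) c) * (cm (cm (cm (cj c y) c) (cj c y)) (cm x c))))
    (h168 : ∀ x : G, cm x a = (1 : G) → cm x b = (1 : G) → cm x c = (1 : G) → x = (1 : G))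
    (h169 : ∀ x y : G, cm (cm x y) a = (1 : G) → cm (cm x y) b = (1 : G) → cm (cm x y) c = (1 : G) → cm x y = (1 : G))
    (h191 : cm (cm b a) a = (1 : G))
    (h192 : cm (cm b a) b = (1 : G))
    (h193 : cm (cm c (cm b a)) (cm b a) = (1 : G))
    (h194 : cm (cm c (cm b a)) a = (1 : G))
    (h195 : cm (cm c (cm b a)) b = (1 : G))
    (h196 : ∀ x : G, cm (cm (cm (cj a x) a) a) a = (1 : G))
    (h197 : ∀ x : G, cm (cm (cm (cj a x) a) a) (cj a x) = (1 : G))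
    (h198 : ∀ x : G, cm (cm (cm (cj a x) a) (cj a x)) a = (1 : G))
    (h199 : ∀ x : G, cm (cm (cm (cj a x) a) (cj a x)) (cj a x) = (1 : G))
    (h200 : ∀ x : G, cm (cm (cm (cj a x) b) b) b = (1 : G))
    (h201 : ∀ x : G, cm (cm (cm (cj a x) b) b) (cj a x) = (1 : G))
    (h202 : ∀ x : G, cm (cm (cm (cj a x) b) (cj a x)) b = (1 : G))
    (h204 : ∀ x : G, cm (cm (cm (cj a x) c) c) c = (1 : G))
    (h205 : ∀ x : G, cm (cm (cm (cj a x) c) c) (cj a x) = (1 : G))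
    (h206 : ∀ x : G, cm (cm (cm (cj a x) c) (cj a x)) c = (1 : G))
    (h207 : ∀ x : G, cm (cm (cm (cj a x) c) (cj a x)) (cj a x) = (1 : G))
    (h208 : ∀ x : G, cm (cm (cm (cj b x) a) a) a = (1 : G))
    (h209 : ∀ x : G, cm (cm (cm (cj b x) a) a) (cj b x) = (1 : G))
    (h210 : ∀ x : G, cm (cm (cm (cj b x) a) (cj b x)) a = (1 : G))
    (h212 : ∀ x : G, cm (cm (cm (cj b x) b) b) b = (1 : G))
    (h213 : ∀ x : G, cm (cm (cm (cj b x) b) b) (cj b x) = (1 : G))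
    (h214 : ∀ x : G, cm (cm (cm (cj b x) b) (cj b x)) b = (1 : G))
    (h215 : ∀ x : G, cm (cm (cm (cj b x) b) (cj b x)) (cj b x) = (1 : G))
    (h216 : ∀ x : G, cm (cm (cm (cj b x) c) c) c = (1 : G))
    (h217 : ∀ x : G, cm (cm (cm (cj b x) c) c) (cj b x) = (1 : G))
    (h218 : ∀ x : G, cm (cm (cm (cj b x) c) (cj b x)) c = (1 : G))
    (h219 : ∀ x : G, cm (cm (cm (cj b x) c) (cj b x)) (cj b x) = (1 : G))
    (h220 : ∀ x : G, cm (cm (cm (cj c x) a) a) a = (1 : G))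
    (h221 : ∀ x : G, cm (cm (cm (cj c x) a) a) (cj c x) = (1 : G))
    (h222 : ∀ x : G, cm (cm (cm (cj c x) a) (cj c x)) a = (1 : G))
    (h223 : ∀ x : G, cm (cm (cm (cj c x) a) (cj c x)) (cj c x) = (1 : G))
    (h224 : ∀ x : G, cm (cm (cm (cj c x) b) b) b = (1 : G))
    (h225 : ∀ x : G, cm (cm (cm (cj c x) b) b) (cj c x) = (1 : G))
    (h226 : ∀ x : G, cm (cm (cm (cj c x) b) (cj c x)) b = (1 : G))
    (h227 : ∀ x : G, cm (cm (cm (cj c x) b) (cj c x)) (cj c x) = (1 : G))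
    (h228 : ∀ x : G, cm (cm (cm (cj c x) c) c) c = (1 : G))
    (h229 : ∀ x : G, cm (cm (cm (cj c x) c) c) (cj c x) = (1 : G))
    (h230 : ∀ x : G, cm (cm (cm (cj c x) c) (cj c x)) c = (1 : G))
    (h231 : ∀ x : G, cm (cm (cm (cj c x) c) (cj c x)) (cj c x) = (1 : G))
    (h232 : ∀ x : G, (((((a⁻¹ * (cj a x⁻¹)) * a⁻¹) * (cj a x)) * (cj a (x ^ (2 : ℕ)))⁻¹) * (cj a x)) = ((((((cj a (x ^ (2 : ℕ)))⁻¹ * (cj a x)) * a⁻¹) * (cj a x)) * a⁻¹) * (cj a x⁻¹)))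
    (h233 : ∀ x : G, (((((((a⁻¹ * (cj a x⁻¹)) * (cj a (x⁻¹ ^ (2 : ℕ)))⁻¹) * (cj a x⁻¹)) * a⁻¹) * (cj a x⁻¹)) * a⁻¹) * (cj a x)) = ((((((((cj a x)⁻¹ * a) * (cj a x⁻¹)⁻¹) * a) * (cj a x)⁻¹) * a) * (cj a x)⁻¹) * (cj a (x ^ (2 : ℕ)))))
    (h234 : ∀ x : G, (((((a * (cj a⁻¹ x⁻¹)) * a) * (cj a⁻¹ x)) * (cj a⁻¹ (x ^ (2 : ℕ)))⁻¹) * (cj a⁻¹ x)) = ((((((cj a⁻¹ (x ^ (2 : ℕ)))⁻¹ * (cj a⁻¹ x)) * a) * (cj a⁻¹ x)) * a) * (cj a⁻¹ x⁻¹)))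
    (h235 : ∀ x : G, (((((((a * (cj a⁻¹ x⁻¹)) * (cj a⁻¹ (x⁻¹ ^ (2 : ℕ)))⁻¹) * (cj a⁻¹ x⁻¹)) * a) * (cj a⁻¹ x⁻¹)) * a) * (cj a⁻¹ x)) = ((((((((cj a⁻¹ x)⁻¹ * a⁻¹) * (cj a⁻¹ x⁻¹)⁻¹) * a⁻¹) * (cj a⁻¹ x)⁻¹) * a⁻¹) * (cj a⁻¹ x)⁻¹) * (cj a⁻¹ (x ^ (2 : ℕ)))))
    (h236 : ∀ x : G, cm (cm (cm (cj a x) a) a) a = (1 : G))
    (h237 : ∀ x : G, cm (cm (cm (cj a x) a) a) (cj a x) = (1 : G))
    (h239 : ∀ x : G, cm (cm (cm (cj a x) a) (cj a x)) a = (1 : G))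
    (h240 : ∀ x : G, cm (cm (cm (cj a x) a) (cj a x)) (cj a x) = (1 : G))
    (h245 : ∀ x : G, cm (cm (cm (cj a x⁻¹) a) a) a = (1 : G))
    (h246 : ∀ x : G, cm (cm (cm (cj a x⁻¹) a) a) (cj a x) = (1 : G))
    (h247 : ∀ x : G, cm (cm (cm (cj a x⁻¹) a) a) (cj a x⁻¹) = (1 : G))
    (h251 : ∀ x : G, cm (cm (cm (cj a x⁻¹) a) (cj a x⁻¹)) a = (1 : G))
    (h252 : ∀ x : G, cm (cm (cm (cj a x⁻¹) a) (cj a x⁻¹)) (cj a x) = (1 : G))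
    (h253 : ∀ x : G, cm (cm (cm (cj a x⁻¹) a) (cj a x⁻¹)) (cj a x⁻¹) = (1 : G))
    (h254 : ∀ x : G, cm (cm (cm (cj a x) (cj a x⁻¹)) a) a = (1 : G))
    (h263 : ∀ x : G, ((cm (cm (cj a x) a) (cj a x⁻¹)) * (cm (cm a (cj a x⁻¹)) a)) = ((cm (cm (cj a x) a) a) * (cm (cm a (cj a x⁻¹)) (cj a x⁻¹))))
    (h264 : ∀ x : G, ((cm (cm a (cj a x⁻¹)) (cj a x)) * (cm (cm (cj a x) a) a)) = ((cm (cm (cj a x) a) (cj a x)) * (cm (cm a (cj a x⁻¹)) a)))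
    (h268 : ∀ x : G, ((cm (cj a (x ^ (2 : ℕ))) (cj a x)) * ((cm a (cj a x⁻¹)) ^ (3 : ℕ))) = (((cm (cj a x) a) ^ (3 : ℕ)) * (cm (cj a x⁻¹) (cj a (x⁻¹ ^ (2 : ℕ))))))
    (h269 : ∀ x : G, (((((b⁻¹ * (cj b x⁻¹)) * b⁻¹) * (cj b x)) * (cj b (x ^ (2 : ℕ)))⁻¹) * (cj b x)) = ((((((cj b (x ^ (2 : ℕ)))⁻¹ * (cj b x)) * b⁻¹) * (cj b x)) * b⁻¹) * (cj b x⁻¹)))
    (h270 : ∀ x : G, (((((((b⁻¹ * (cj b x⁻¹)) * (cj b (x⁻¹ ^ (2 : ℕ)))⁻¹) * (cj b x⁻¹)) * b⁻¹) * (cj b x⁻¹)) * b⁻¹) * (cj b x)) = ((((((((cj b x)⁻¹ * b) * (cj b x⁻¹)⁻¹) * b) * (cj b x)⁻¹) * b) * (cj b x)⁻¹) * (cj b (x ^ (2 : ℕ)))))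
    (h271 : ∀ x : G, (((((b * (cj b⁻¹ x⁻¹)) * b) * (cj b⁻¹ x)) * (cj b⁻¹ (x ^ (2 : ℕ)))⁻¹) * (cj b⁻¹ x)) = ((((((cj b⁻¹ (x ^ (2 : ℕ)))⁻¹ * (cj b⁻¹ x)) * b) * (cj b⁻¹ x)) * b) * (cj b⁻¹ x⁻¹)))
    (h272 : ∀ x : G, (((((((b * (cj b⁻¹ x⁻¹)) * (cj b⁻¹ (x⁻¹ ^ (2 : ℕ)))⁻¹) * (cj b⁻¹ x⁻¹)) * b) * (cj b⁻¹ x⁻¹)) * b) * (cj b⁻¹ x)) = ((((((((cj b⁻¹ x)⁻¹ * b⁻¹) * (cj b⁻¹ x⁻¹)⁻¹) * b⁻¹) * (cj b⁻¹ x)⁻¹) * b⁻¹) * (cj b⁻¹ x)⁻¹) * (cj b⁻¹ (x ^ (2 : ℕ)))))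
    (h273 : ∀ x : G, cm (cm (cm (cj b x) b) b) b = (1 : G))
    (h274 : ∀ x : G, cm (cm (cm (cj b x) b) b) (cj b x) = (1 : G))
    (h276 : ∀ x : G, cm (cm (cm (cj b x) b) (cj b x)) b = (1 : G))
    (h277 : ∀ x : G, cm (cm (cm (cj b x) b) (cj b x)) (cj b x) = (1 : G))
    (h279 : ∀ x : G, cm (cm (cm (cj b x) b) (cj b x⁻¹)) b = (1 : G))
    (h281 : ∀ x : G, cm (cm (cm (cj b x) b) (cj b x⁻¹)) (cj b x⁻¹) = (1 : G))
    (h282 : ∀ x : G, cm (cm (cm (cj b x⁻¹) b) b) b = (1 : G))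
    (h283 : ∀ x : G, cm (cm (cm (cj b x⁻¹) b) b) (cj b x) = (1 : G))
    (h285 : ∀ x : G, cm (cm (cm (cj b x⁻¹) b) (cj b x)) b = (1 : G))
    (h286 : ∀ x : G, cm (cm (cm (cj b x⁻¹) b) (cj b x)) (cj b x) = (1 : G))
    (h288 : ∀ x : G, cm (cm (cm (cj b x⁻¹) b) (cj b x⁻¹)) b = (1 : G))
    (h289 : ∀ x : G, cm (cm (cm (cj b x⁻¹) b) (cj b x⁻¹)) (cj b x) = (1 : G))
    (h290 : ∀ x : G, cm (cm (cm (cj b x⁻¹) b) (cj b x⁻¹)) (cj b x⁻¹) = (1 : G))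
    (h299 : ∀ x : G, cm (cm (cm (cj b x) (cj b x⁻¹)) (cj b x⁻¹)) (cj b x⁻¹) = (1 : G))
    (h300 : ∀ x : G, ((cm (cm (cj b x) b) (cj b x⁻¹)) * (cm (cm b (cj b x⁻¹)) b)) = ((cm (cm (cj b x) b) b) * (cm (cm b (cj b x⁻¹)) (cj b x⁻¹))))
    (h301 : ∀ x : G, ((cm (cm b (cj b x⁻¹)) (cj b x)) * (cm (cm (cj b x) b) b)) = ((cm (cm (cj b x) b) (cj b x)) * (cm (cm b (cj b x⁻¹)) b)))
    (h302 : ∀ x : G, (((cm (cm (cj b x) b) b) ^ (5 : ℕ)) * (cm (cm (cj b x) b) (cj b x))) = ((cm (cm b (cj b x⁻¹)) (cj b x⁻¹)) * ((cm (cm b (cj b x⁻¹)) b) ^ (5 : ℕ))))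
    (h303 : ∀ x : G, ((cm (cm (cj b x) (cj b x⁻¹)) (cj b x⁻¹)) * ((cm (cm b (cj b x⁻¹)) b) ^ (2 : ℕ))) = ((cm (cm (cj b x) b) (cj b x)) * ((cm (cm b (cj b x⁻¹)) (cj b x⁻¹)) ^ (3 : ℕ))))
    (h304 : ∀ x : G, ((cm (cm (cj b x) (cj b x⁻¹)) (cj b x)) * ((cm (cm (cj b x) b) b) ^ (2 : ℕ))) = (((cm (cm (cj b x) b) (cj b x)) ^ (3 : ℕ)) * (cm (cm b (cj b x⁻¹)) (cj b x⁻¹))))
    (h307 : ∀ x : G, (((((((c⁻¹ * (cj c x⁻¹)) * (cj c (x⁻¹ ^ (2 : ℕ)))⁻¹) * (cj c x⁻¹)) * c⁻¹) * (cj c x⁻¹)) * c⁻¹) * (cj c x)) = ((((((((cj c x)⁻¹ * c) * (cj c x⁻¹)⁻¹) * c) * (cj c x)⁻¹) * c) * (cj c x)⁻¹) * (cj c (x ^ (2 : ℕ)))))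
    (h308 : ∀ x : G, (((((c * (cj c⁻¹ x⁻¹)) * c) * (cj c⁻¹ x)) * (cj c⁻¹ (x ^ (2 : ℕ)))⁻¹) * (cj c⁻¹ x)) = ((((((cj c⁻¹ (x ^ (2 : ℕ)))⁻¹ * (cj c⁻¹ x)) * c) * (cj c⁻¹ x)) * c) * (cj c⁻¹ x⁻¹)))
    (h309 : ∀ x : G, (((((((c * (cj c⁻¹ x⁻¹)) * (cj c⁻¹ (x⁻¹ ^ (2 : ℕ)))⁻¹) * (cj c⁻¹ x⁻¹)) * c) * (cj c⁻¹ x⁻¹)) * c) * (cj c⁻¹ x)) = ((((((((cj c⁻¹ x)⁻¹ * c⁻¹) * (cj c⁻¹ x⁻¹)⁻¹) * c⁻¹) * (cj c⁻¹ x)⁻¹) * c⁻¹) * (cj c⁻¹ x)⁻¹) * (cj c⁻¹ (x ^ (2 : ℕ)))))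
    (h310 : ∀ x : G, cm (cm (cm (cj c x) c) c) c = (1 : G))
    (h311 : ∀ x : G, cm (cm (cm (cj c x) c) c) (cj c x) = (1 : G))
    (h312 : ∀ x : G, cm (cm (cm (cj c x) c) c) (cj c x⁻¹) = (1 : G))
    (h313 : ∀ x : G, cm (cm (cm (cj c x) c) (cj c x)) c = (1 : G))
    (h315 : ∀ x : G, cm (cm (cm (cj c x) c) (cj c x)) (cj c x⁻¹) = (1 : G))
    (h316 : ∀ x : G, cm (cm (cm (cj c x) c) (cj c x⁻¹)) c = (1 : G))
    (h317 : ∀ x : G, cm (cm (cm (cj c x) c) (cj c x⁻¹)) (cj c x) = (1 : G))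
    (h318 : ∀ x : G, cm (cm (cm (cj c x) c) (cj c x⁻¹)) (cj c x⁻¹) = (1 : G))
    (h319 : ∀ x : G, cm (cm (cm (cj c x⁻¹) c) c) c = (1 : G))
    (h321 : ∀ x : G, cm (cm (cm (cj c x⁻¹) c) c) (cj c x⁻¹) = (1 : G))
    (h322 : ∀ x : G, cm (cm (cm (cj c x⁻¹) c) (cj c x)) c = (1 : G))
    (h323 : ∀ x : G, cm (cm (cm (cj c x⁻¹) c) (cj c x)) (cj c x) = (1 : G))
    (h324 : ∀ x : G, cm (cm (cm (cj c x⁻¹) c) (cj c x)) (cj c x⁻¹) = (1 : G))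
    (h325 : ∀ x : G, cm (cm (cm (cj c x⁻¹) c) (cj c x⁻¹)) c = (1 : G))
    (h326 : ∀ x : G, cm (cm (cm (cj c x⁻¹) c) (cj c x⁻¹)) (cj c x) = (1 : G))
    (h327 : ∀ x : G, cm (cm (cm (cj c x⁻¹) c) (cj c x⁻¹)) (cj c x⁻¹) = (1 : G))
    (h331 : ∀ x : G, cm (cm (cm (cj c x) (cj c x⁻¹)) (cj c x)) c = (1 : G))
    (h336 : ∀ x : G, cm (cm (cm (cj c x) (cj c x⁻¹)) (cj c x⁻¹)) (cj c x⁻¹) = (1 : G))
    (h337 : ∀ x : G, ((cm (cm (cj c x) c) (cj c x⁻¹)) * (cm (cm c (cj c x⁻¹)) c)) = ((cm (cm (cj c x) c) c) * (cm (cm c (cj c x⁻¹)) (cj c x⁻¹))))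
    (h338 : ∀ x : G, ((cm (cm c (cj c x⁻¹)) (cj c x)) * (cm (cm (cj c x) c) c)) = ((cm (cm (cj c x) c) (cj c x)) * (cm (cm c (cj c x⁻¹)) c)))
    (h339 : ∀ x : G, (((cm (cm (cj c x) c) c) ^ (5 : ℕ)) * (cm (cm (cj c x) c) (cj c x))) = ((cm (cm c (cj c x⁻¹)) (cj c x⁻¹)) * ((cm (cm c (cj c x⁻¹)) c) ^ (5 : ℕ))))
    (h340 : ∀ x : G, ((cm (cm (cj c x) (cj c x⁻¹)) (cj c x⁻¹)) * ((cm (cm c (cj c x⁻¹)) c) ^ (2 : ℕ))) = ((cm (cm (cj c x) c) (cj c x)) * ((cm (cm c (cj c x⁻¹)) (cj c x⁻¹)) ^ (3 : ℕ))))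
    (h341 : ∀ x : G, ((cm (cm (cj c x) (cj c x⁻¹)) (cj c x)) * ((cm (cm (cj c x) c) c) ^ (2 : ℕ))) = (((cm (cm (cj c x) c) (cj c x)) ^ (3 : ℕ)) * (cm (cm c (cj c x⁻¹)) (cj c x⁻¹))))
    (h342 : ∀ x : G, ((cm (cj c (x ^ (2 : ℕ))) (cj c x)) * ((cm c (cj c x⁻¹)) ^ (3 : ℕ))) = (((cm (cj c x) c) ^ (3 : ℕ)) * (cm (cj c x⁻¹) (cj c (x⁻¹ ^ (2 : ℕ))))))
    (h343 : ∀ x : G, cm (cm (cm (cj c x) (cm b a)) (cm b a)) a = (1 : G))
    (h344 : ∀ x : G, cm (cm (cm (cj c x) (cm b a)) (cm b a)) (cm b a) = (1 : G))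
    (h345 : ∀ x : G, cm (cm (cm (cj c x) (cm b a)) (cm b a)) (cj c x) = (1 : G))
    (h346 : ∀ x : G, cm (cm (cm (cj c x) (cm b a)) a) a = (1 : G))
    (h347 : ∀ x : G, cm (cm (cm (cj c x) (cm b a)) a) (cm b a) = (1 : G))
    (h348 : ∀ x : G, cm (cm (cm (cj c x) (cm b a)) a) (cj c x) = (1 : G))
    (h349 : ∀ x : G, cm (cm (cm (cm (cj c x) (cm b a)) (cj c x)) a) a = (1 : G))
    (h350 : ∀ x : G, cm (cm (cm (cm (cj c x) (cm b a)) (cj c x)) a) (cm b a) = (1 : G))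
    (h351 : ∀ x : G, cm (cm (cm (cm (cj c x) (cm b a)) (cj c x)) a) (cj c x) = (1 : G))
    (h352 : ∀ x : G, cm (cm (cm (cj c x) (cm b a)) (cj c x)) (cm b a) = (1 : G))
    (h353 : ∀ x : G, cm (cm (cm (cj c x) (cm b a)) (cj c x)) (cj c x) = (1 : G))
    (h354 : ∀ x : G, cm (cm (cm (cj c x) a) a) (cm b a) = (1 : G))
    (h355 : ∀ x : G, ((cm (cm (cm (cj c x) a) (cj c x)) (cm b a)) * (cm (cm (cm (cj c x) (cm b a)) (cj c x)) a)) = (1 : G))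
    (h356 : ∀ x : G, (cm (cm (cj c x) a) (cm b a)) = ((cm (cm (cj c x) (cm b a)) a) * (cm (cm (cm (cj c x) a) (cj c x)) (cm b a))))
    (h357 : ∀ x : G, cm (cm (cm (cj c x) (cm b a)) (cm b a)) b = (1 : G))
    (h358 : ∀ x : G, cm (cm (cm (cj c x) (cm b a)) (cm b a)) (cm b a) = (1 : G))
    (h359 : ∀ x : G, cm (cm (cm (cj c x) (cm b a)) (cm b a)) (cj c x) = (1 : G))
    (h360 : ∀ x : G, cm (cm (cm (cj c x) (cm b a)) b) b = (1 : G))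
    (h361 : ∀ x : G, cm (cm (cm (cj c x) (cm b a)) b) (cm b a) = (1 : G))
    (h362 : ∀ x : G, cm (cm (cm (cj c x) (cm b a)) b) (cj c x) = (1 : G))
    (h363 : ∀ x : G, cm (cm (cm (cm (cj c x) (cm b a)) (cj c x)) b) b = (1 : G))
    (h364 : ∀ x : G, cm (cm (cm (cm (cj c x) (cm b a)) (cj c x)) b) (cm b a) = (1 : G))
    (h365 : ∀ x : G, cm (cm (cm (cm (cj c x) (cm b a)) (cj c x)) b) (cj c x) = (1 : G))
    (h366 : ∀ x : G, cm (cm (cm (cj c x) (cm b a)) (cj c x)) (cm b a) = (1 : G))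
    (h367 : ∀ x : G, cm (cm (cm (cj c x) (cm b a)) (cj c x)) (cj c x) = (1 : G))
    (h368 : ∀ x : G, cm (cm (cm (cj c x) b) b) (cm b a) = (1 : G))
    (h369 : ∀ x : G, ((cm (cm (cm (cj c x) b) (cj c x)) (cm b a)) * (cm (cm (cm (cj c x) (cm b a)) (cj c x)) b)) = (1 : G))
    (h370 : ∀ x : G, (cm (cm (cj c x) b) (cm b a)) = ((cm (cm (cj c x) (cm b a)) b) * (cm (cm (cm (cj c x) b) (cj c x)) (cm b a)))) :
    (cm b a) = (1 : G) := by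
  obtain ⟨t0, -⟩ := targets (G := G) (g := nth (1 : G) [1, a, b, c, (cm b a), (cm c a), (cm c b), (cm (cm c a) c), (cm (cm c b) c), (cm (cm c a) a), (cm (cm c b) b), (cm c (cm b a)), (cm (cm c (cm b a)) c), (cm (cm (cm c (cm b a)) c) a), (cm (cm (cm c (cm b a)) c) b), (cm (cm (cm (cm c (cm b a)) c) a) b), (cm (cm (cm (cm (cm c (cm b a)) c) a) b) c)]) (by decide) rfl
    (laws := laws) ⟨fun _ => rfl, fun _ => rfl, fun _ => rfl, fun _ => rfl, fun _ => rfl, fun _ => rfl, fun _ => rfl, fun _ => rfl, fun _ => rfl, fun _ => rfl, fun _ => rfl, fun _ => rfl, fun _ => rfl, fun _ => h191, fun _ => h192, fun _ => h193, fun _ => h194, fun _ => h195, fun y => h200 (y 0), fun y => h201 (y 0), fun y => h202 (y 0), fun y => h204 (y 0), fun y => h205 (y 0), fun y => h207 (y 0), fun y => h216 (y 0), fun y => h217 (y 0), fun y => h219 (y 0), fun y =>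 h220 (y 0), fun y => h221 (y 0), fun y => h222 (y 0), fun y => h223 (y 0), fun y => h224 (y 0), fun y => h225 (y 0), fun y => h226 (y 0), fun y => h227 (y 0), fun y => h349 (y 0), fun y => h350 (y 0), fun y => h351 (y 0), fun y => h352 (y 0), fun y => h353 (y 0), fun y => h354 (y 0), fun y => h355 (y 0), fun y => h356 (y 0), fun y => h363 (y 0), fun y => h364 (y 0), fun y => h365 (y 0), fun y => h368 (y 0), fun y => h369 (y 0), fun y => h370 (y 0), fun y => h206 (y 0), fun y => h218 (y 0), fun y => h230 (y 0), fun y => h231 (y 0), fun y => h285 (y 0), fun y => h286 (y 0), fun y => h288 (y 0), fun y => h289 (y 0), fun y => h299 (y 0), fun y => h300 (y 0), fun y => h302 (y 0), fun y => h313 (y 0), fun y => h325 (y 0), fun y => h343 (y 0), fun y => h344 (y 0), fun y => h345 (y 0), fun y => h346 (y 0), fun y => h347 (y 0), fun y => h348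 (y 0), fun y => h357 (y 0), fun y => h358 (y 0), fun y => h360 (y 0), fun y => h361 (y 0), fun y => h362 (y 0), fun y => h208 (y 0), fun y => h210 (y 0), fun y => h212 (y 0), fun y => h213 (y 0), fun y => h269 (y 0), fun y => h270 (y 0), fun y => h271 (y 0), fun y => h273 (y 0), fun y => h279 (y 0), fun y => h281 (y 0), fun y => h301 (y 0), fun y => h304 (y 0), fun y => h367 (y 0), fun y => h196 (y 0), fun y => h199 (y 0), fun y => h232 (y 0), fun y => h234 (y 0), fun y => h235 (y 0), fun y => h245 (y 0), fun y => h315 (y 0), fun y => h338 (y 0), fun y => h366 (y 0), fun y => h264 (y 0), fun y => h359 (y 0), fun y => h282 (y 0), fun y => h283 (y 0), fun y => h303 (y 0), fun y => h319 (y 0), fun y => h321 (y 0), fun y => h268 (y 0), fun y => h209 (y 0), fun y => h228 (y 0), fun y => h229 (y 0), fun y => h233 (y 0), fun y => h311 (y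 0), fun y => h331 (y 0), fun y => h337 (y 0), fun y => h341 (y 0), fun y => h310 (y 0), fun y => h339 (y 0), fun y => h272 (y 0), fun y => h307 (y 0), fun y => h322 (y 0), fun y => h324 (y 0), fun y => h342 (y 0), fun y => h323 (y 0), fun y => h254 (y 0), fun y => h247 (y 0), fun y => h308 (y 0), fun y => h312 (y 0), fun y => h316 (y 0), fun y => h318 (y 0), fun y => h253 (y 0), fun y => h263 (y 0), fun y => h317 (y 0), fun y => h198 (y 0), fun y => h236 (y 0), fun y => h237 (y 0), fun y => h251 (y 0), fun y => h252 (y 0), fun y => h274 (y 0), fun y => h290 (y 0), fun y => h326 (y 0), fun y => h327 (y 0), fun y => h197 (y 0), fun y => h214 (y 0), fun y => h276 (y 0), fun y => h309 (y 0), fun y => h336 (y 0), fun y => h340 (y 0), fun y => h239 (y 0), fun y => h240 (y 0), fun y => h246 (y 0), fun y => h215 (y 0), fun y => h277 (y 0),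 fun y => h54 (y 0) (y 1), fun y => h42 (y 0) (y 1), fun y => h48 (y 0) (y 1), fun y => h50 (y 0) (y 1), fun y => h52 (y 0) (y 1), fun y => h44 (y 0) (y 1), fun y => h45 (y 0) (y 1), fun y => h55 (y 0) (y 1), fun y => h56 (y 0) (y 1), fun y => h58 (y 0) (y 1), fun y => h62 (y 0) (y 1), fun y => h68 (y 0) (y 1), fun y => h64 (y 0) (y 1), fun y => h66 (y 0) (y 1), fun y => h69 (y 0) (y 1), fun y => h59 (y 0) (y 1), fun y => h61 (y 0) (y 1), fun y => h70 (y 0) (y 1), fun y => h76 (y 0) (y 1), fun y => h82 (y 0) (y 1), fun y => h83 (y 0) (y 1), fun y => h72 (y 0) (y 1), fun y => h73 (y 0) (y 1), fun y => h75 (y 0) (y 1), fun y => h80 (y 0) (y 1), fun y => h78 (y 0) (y 1), fun y => h96 (y 0) (y 1), fun y => h97 (y 0) (y 1), fun y => h84 (y 0) (y 1), fun y => h98 (y 0) (y 1), fun y => h100 (y 0) (y 1), fun y => h108 (y 0) (y 1), fun y =>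 h110 (y 0) (y 1), fun y => h111 (y 0) (y 1), fun y => h101 (y 0) (y 1), fun y => h103 (y 0) (y 1), fun y => h106 (y 0) (y 1), fun y => h124 (y 0) (y 1), fun y => h125 (y 0) (y 1), fun y => h115 (y 0) (y 1), fun y => h117 (y 0) (y 1), fun y => h122 (y 0) (y 1), fun y => h138 (y 0) (y 1), fun y => h139 (y 0) (y 1), fun y => h152 (y 0) (y 1), fun y => h140 (y 0) (y 1), fun y => h153 (y 0) (y 1), fun y => h167 (y 0) (y 1), fun y => h166 (y 0) (y 1), fun y => h154 (y 0) (y 1), fun y => h169 (y 0) (y 1), fun y => h168 (y 0), trivial⟩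
    ((Upto.zero _ _ _ _ _ _) |>.succ b0 |>.succ b1 |>.succ b2 |>.succ b3 |>.succ b4 |>.succ b5 |>.succ b6 |>.succ b7 |>.succ b8 |>.succ b9 |>.succ b10 |>.succ b11) tgs _ tg
  exact t0

end Pool.Agent.P.MP_9682d1_al.KB.G7b
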