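import Pool.Agent.P.MP_9682d1_al.KB.Sound

/-!
A checker for nilpotent quotient computations. A record is an equation between two words that holds
up to a product of central tails; the exponents of the tails are the digits of two numbers.
-/

set_option autoImplicit false

namespace Pool.Agent.P.MP_9682d1_al.KB

/-- first component of a packed pair -/
def tr (R : ℕ) : ℕ := low (Nat.shiftRight R 20) (Nat.land R 1048575)
/-- second component of a packed pair -/
def tl (R : ℕ) : ℕ := Nat.shiftRight R (Nat.add 20 (Nat.land R 1048575))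

/-- the word with `k` letters equal to one -/
def rep (B k : ℕ) : ℕ := Nat.div (Nat.sub (Nat.shiftLeft 1 (Nat.mul B k)) 1) (Nat.sub (Nat.shiftLeft 1 B) 1)

/-- the first `k` letters of `s` are at least `θ` -/
noncomputable def geq (B k θ s : ℕ) : Bool :=
  force (rep B k) fun e => force (Nat.mul θ e) fun y => force (Nat.sub s y) fun t =>
  force (Nat.sub (Nat.shiftLeft 1 (Nat.sub B 1)) 1) fun h =>
  an (Nat.beq (Nat.add t y) s) (an (Nat.beq (Nat.land t (Nat.mul h e)) t)
    (lt (Nat.add h θ) (Nat.shiftLeft 1 B)))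

/-- move a power of one letter to the right across `n` letters that commute with it -/
noncomputable def blk (B z p e n u : ℕ) (k : ℕ → Bool) : Bool :=
  force (Nat.shiftRight u p) fun r => force (low r B) fun x => force (Nat.mul B e) fun be =>
  force (Nat.mul B n) fun bn => force (low r be) fun X => force (low (Nat.shiftRight r be) bn) fun s =>
  an (Nat.beq (Nat.succ (Nat.shiftRight x 1)) (Nat.land z 65535))
  (an (Nat.beq X (Nat.mul x (rep B e))) (an (geq B n (Nat.mul 2 (Nat.land (Nat.shiftRight z 16) 65535)) s)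
    (rw1 u p (Nat.add X (Nat.shiftLeft s be)) (Nat.add be bn) (Nat.add s (Nat.shiftLeft X bn))
      (Nat.add be bn) k)))

noncomputable def step2 (B w : ℕ) (U C : ℕ → ℕ) (i op s u v a c : ℕ)
    (k : ℕ → ℕ → ℕ → ℕ → ℕ → Bool) : Bool :=
  force (Nat.land (Nat.shiftRight op 4) 1023) fun p => force (Nat.shiftRight op 14) fun f =>
  Nat.rec
    (an (lt f i) (force (U f) fun Q => force (tr Q) fun R => force (tl Q) fun z =>
      force (Nat.add a (tl z)) fun a' => force (Nat.add c (tr z)) fun c' =>
      rw1 u (Nat.mul B p) (fR R) (nR R) (fL R) (nL R) fun u' => k s u' v a' c'))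
    (fun t _ => Nat.rec
      (an (lt f i) (force (U f) fun Q => force (tr Q) fun R => force (tl Q) fun z =>
        force (Nat.add a (tr z)) fun a' => force (Nat.add c (tl z)) fun c' =>
        rw1 u (Nat.mul B p) (fL R) (nL R) (fR R) (nR R) fun u' => k s u' v a' c'))
      (fun t _ => Nat.rec
        (force (Nat.shiftRight u (Nat.mul B p)) fun u' => force (invN B p u v) fun v' => k s u' v' a c)
        (fun t _ => Nat.rec
          (force (low u (Nat.mul B p)) fun u' => force (Nat.shiftRight u (Nat.mul B p)) fun q =>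
            force (invW B q) fun q' => force (cat B v q') fun v' => k s u' v' a c)
          (fun t _ => Nat.rec
            (force (Nat.add (low p B) (Nat.shiftLeft u B)) fun u' =>
              force (Nat.add (low p B) (Nat.shiftLeft v B)) fun v' => k s u' v' a c)
            (fun t _ => Nat.rec
              (force (cat B u p) fun u' => force (cat B v p) fun v' => k s u' v' a c)
              (fun _ _ => an (lt f i) (force (C f) fun z => force (low s w) fun y =>
                force (Nat.shiftRight s w) fun s' => blk B z (Nat.mul B p) (Nat.shiftRight y 10)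
                  (Nat.land y 1023) u fun u' => k s' u' v a c)) t) t) t) t) t)
    (Nat.land (Nat.shiftRight op 1) 7)

noncomputable def run2 (B w : ℕ) (U C : ℕ → ℕ) (i n : ℕ) : ℕ → ℕ → ℕ → ℕ → ℕ → Bool :=
  Nat.rec (fun _ u v a c => an (Nat.beq u v) (Nat.beq a c)) (fun _ ih s u v a c =>
    force (low s w) fun op => force (Nat.shiftRight s w) fun s' =>
    Nat.rec (step2 B w U C i op s' u v a c ih) (fun _ _ => step2 B w U C i op s' v u c a ih)
      (Nat.land op 1)) n

noncomputable def insChk2 (B : ℕ) (U : ℕ → ℕ) (laws : List Eqn) (i l r : ℕ) (t : Ins) : Bool :=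
  Ins.rec (fun j x y s => Eqn.rec
    (fun a b => eqW B (fun f => tr (U f)) 0 (fun n => Nat.rec x (fun _ _ => y) n) (.E a b) s
      fun u v _ => an (Nat.beq u l) (Nat.beq v r))
    (fun a b => eqW B (fun f => tr (U f)) i (fun n => Nat.rec x (fun _ _ => y) n) (.C a b) s
      fun u v _ => an (Nat.beq u l) (Nat.beq v r)) (nth (.E .o .o) laws j)) t

/-- the generator `x` commutes with all the generators from `θ` on; `z` holds `x + 1`, `θ` and the
number of the record for `θ + 1` -/
noncomputable def cumChk (B n : ℕ) (C : ℕ → ℕ) (i l r a c : ℕ) : Bool :=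
  force (C i) fun z => Nat.rec true (fun x _ => force (Nat.land (Nat.shiftRight z 16) 65535) fun θ =>
    force (Nat.shiftRight z 32) fun q =>
    an (lt (Nat.mul 2 x) (Nat.shiftLeft 1 B)) (an (lt (Nat.mul 2 θ) (Nat.shiftLeft 1 B))
    (an (Nat.beq l (Nat.add (Nat.mul 2 θ) (Nat.shiftLeft (Nat.mul 2 x) B)))
    (an (Nat.beq r (Nat.add (Nat.mul 2 x) (Nat.shiftLeft (Nat.mul 2 θ) B))) (an (Nat.beq a c)
    (Bool.rec (an (lt q i) (force (C q) fun y => an (Nat.beq (Nat.land y 65535) (Nat.succ x))
      (Nat.beq (Nat.land (Nat.shiftRight y 16) 65535) (Nat.succ θ)))) true (Nat.ble n θ)))))))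
    (Nat.land z 65535)

/-- `n` generators, `K` tails, digits of `d` bits, `M` the mask of the allowed digits -/
noncomputable def chk2 (B w n d K M : ℕ) (U C P : ℕ → ℕ) (I : ℕ → Ins) (laws : List Eqn) (i : ℕ) :
    Bool :=
  force (U i) fun Q => force (tr Q) fun R => force (tl Q) fun z => force (tr z) fun c =>
  force (tl z) fun a => force (P i) fun h => force (fL R) fun l => force (fR R) fun r =>
  an (Nat.beq (Nat.mod (nL R) B) 0) (an (Nat.beq (Nat.mod (nR R) B) 0)
  (an (lt r (Nat.shiftLeft 1 (nR R))) (an (Nat.beq (Nat.land c M) c) (an (Nat.beq (Nat.land a M) a)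
  (an (cumChk B n C i l r a c) (Bool.rec
    (Nat.rec (run2 B w U C i (Nat.land (Nat.shiftRight h 1) 16383) (Nat.shiftRight h 15) l r a c)
      (fun _ _ => an (Nat.beq a c)
        (force (Nat.shiftRight h 1) fun j => insChk2 B U laws i l r (I j))) (Nat.land h 1))
    (an (Nat.beq c (Nat.shiftLeft 1 (Nat.mul d i))) (Nat.beq a 0)) (lt i K)))))))

/-- all digits are at most `b` -/
noncomputable def bdL (d b n : ℕ) : ℕ → Bool :=
  Nat.rec (fun M => Nat.beq M 0)
    (fun _ ih M => an (Nat.ble (low M d) b) (force (Nat.shiftRight M d) ih)) n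

/-- the records from `o` on say that the tails are trivial -/
noncomputable def finL (d o : ℕ) (U : ℕ → ℕ) (n : ℕ) : Bool :=
  Nat.rec true (fun j ih => an (force (U (Nat.add o j)) fun Q => an (Nat.beq (tr Q) 0)
    (an (Nat.beq (tr (tl Q)) (Nat.shiftLeft 1 (Nat.mul d j))) (Nat.beq (tl (tl Q)) 0))) ih) n

/-- leaf of a table: sixteen records after seventeen offsets -/
noncomputable def lf2 (x i : ℕ) : ℕ :=
  force (Nat.shiftRight x (Nat.mul 24 (Nat.land i 15))) fun o => force (Nat.land o 16777215) fun a =>
    low (Nat.shiftRight x a) (Nat.sub (Nat.land (Nat.shiftRight o 24) 16777215) a)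

end Pool.Agent.P.MP_9682d1_al.KB
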