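import Pool.Agent.P.MP_9682d1_al.KB.NChk

/-! Soundness of the checker for nilpotent quotient computations. -/

set_option autoImplicit false

namespace Pool.Agent.P.MP_9682d1_al.KB

open Subgroup
open scoped IsMulCommutative

def dg (d j N : ℕ) : ℕ := N / 2 ^ (d * j) % 2 ^ d
def Bd (d b N : ℕ) : Prop := ∀ j, dg d j N ≤ b

section
variable {d b b' j N a c : ℕ}

lemma dg_zero : dg d 0 N = N % 2 ^ d := by simp [dg]
lemma dg_succ : dg d (j + 1) N = dg d j (N / 2 ^ d) := by
  rw [dg, dg, Nat.div_div_eq_div_mul, ← pow_add, mul_add, mul_one, add_comm]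

lemma dg_add (hb : b + b' < 2 ^ d) (ha : Bd d b a) (hc : Bd d b' c) (j : ℕ) :
    dg d j (a + c) = dg d j a + dg d j c := by
  induction j generalizing a c with
  | zero =>
    have h1 := ha 0; have h2 := hc 0
    simp only [dg_zero] at *
    exact Nat.add_mod_of_add_mod_lt (by omega)
  | succ j ih =>
    have h1 := ha 0; have h2 := hc 0
    simp only [dg_zero] at h1 h2
    rw [dg_succ, dg_succ, dg_succ, Nat.add_div_eq_of_add_mod_lt (by omega)]
    exact ih (fun j => dg_succ ▸ ha (j + 1)) fun j => dg_succ ▸ hc (j + 1)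

lemma Bd.add (hb : b + b' < 2 ^ d) (ha : Bd d b a) (hc : Bd d b' c) : Bd d (b + b') (a + c) :=
  fun j => dg_add hb ha hc j ▸ Nat.add_le_add (ha j) (hc j)
lemma Bd.mono (ha : Bd d b a) (h : b ≤ b') : Bd d b' a := fun j => (ha j).trans h

lemma Bd.land {M : ℕ} (hM : Bd d b M) (h : Nat.land a M = a) : Bd d b a := fun j => by
  have e : dg d j (a &&& M) = dg d j a &&& dg d j M := by
    simp only [dg, Nat.and_div_two_pow, Nat.and_mod_two_pow]
  have h : a &&& M = a := h
  rw [← h, e]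
  exact Nat.and_le_right.trans (hM j)

lemma bdL_sound {n M : ℕ} (h : bdL d b n M = true) : Bd d b M := by
  induction n generalizing M with
  | zero => obtain rfl := beq_iff.1 h
            intro j; simp [dg]
  | succ n ih =>
    have e : bdL d b (n + 1) M =
      an (Nat.ble (low M d) b) (force (Nat.shiftRight M d) (bdL d b n)) := rfl
    rw [e, an_iff, force_eq, shr_eq, low_eq, Nat.ble_eq] at h
    rintro (_ | j)
    exacts [dg_zero ▸ h.1, dg_succ ▸ ih h.2 j]

lemma dg_pow (hd : 0 < d) (i j : ℕ) : dg d j (2 ^ (d * i)) = if j = i then 1 else 0 := by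
  have h1 := Nat.one_lt_two_pow hd.ne'
  induction j generalizing i with
  | zero =>
    cases i with
    | zero => simp [dg_zero, Nat.mod_eq_of_lt h1]
    | succ i => simp [dg_zero, mul_add, pow_add]
  | succ j ih =>
    cases i with
    | zero => rw [dg_succ, mul_zero, pow_zero, Nat.div_eq_of_lt h1]; simp [dg]
    | succ i =>
      rw [dg_succ, mul_add, mul_one, pow_add, Nat.mul_div_cancel _ (by positivity), ih]
      simp
end

lemma rep_succ {B : ℕ} (hB : 0 < B) (k : ℕ) : rep B (k + 1) = 1 + rep B k * 2 ^ B := by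
  have e : ∀ k, rep B k = ∑ j ∈ Finset.range k, (2 ^ B) ^ j := fun k => by
    rw [Nat.geomSum_eq (Nat.one_lt_two_pow hB.ne'), ← pow_mul, rep, shl_eq, shl_eq, one_mul, one_mul]
    rfl
  rw [e, e, Finset.sum_range_succ', Finset.sum_mul, add_comm]
  simp [pow_succ]

lemma dg_rep {B θ : ℕ} (hB : 0 < B) (h : θ < 2 ^ B) (k j : ℕ) :
    dg B j (θ * rep B k) = if j < k then θ else 0 := by
  induction k generalizing j with
  | zero => rw [show rep B 0 = 0 from Nat.zero_div _]; simp [dg]
  | succ k ih =>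
    rw [rep_succ hB, mul_add, mul_one, ← mul_assoc]
    cases j with
    | zero => simp [dg_zero, Nat.mod_eq_of_lt h]
    | succ j =>
      rw [dg_succ, Nat.add_mul_div_right _ _ (by positivity), Nat.div_eq_of_lt h, zero_add, ih]
      simp

lemma geq_sound {B k θ s : ℕ} (hB : 0 < B) (h : geq B k θ s = true) : ∀ j < k, θ ≤ dg B j s := by
  simp only [geq, force_eq, an_iff, beq_iff, lt_iff, shl_eq, one_mul, Nat.add_eq, Nat.mul_eq] at h
  obtain ⟨h1, h2, h3⟩ := h
  have bd : ∀ x < 2 ^ B, Bd B x (x * rep B k) := fun x hx j => by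
    rw [dg_rep hB hx]; split_ifs <;> omega
  intro j hj
  rw [← h1, dg_add h3 ((bd _ (by omega)).land h2) (bd θ (by omega)), dg_rep hB (by omega), if_pos hj]
  omega

variable {G : Type*} [Group G] {B : ℕ} {g : ℕ → G} {U C : ℕ → ℕ} {d b K : ℕ} {t : ℕ → center G}

lemma ev_mod (hB : 0 < B) (g0 : g 0 = 1) {S : Subgroup G} (k : ℕ) :
    ∀ s, (∀ j < k, lv g (dg B j s) ∈ S) → ev B g (s % 2 ^ (B * k)) ∈ S := by
  induction k with
  | zero => intro s _; simp [Nat.mod_one]
  | succ k ih =>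
    intro s h
    have h2 : s % 2 ^ (B * (k + 1)) = s % 2 ^ B + s / 2 ^ B % 2 ^ (B * k) * 2 ^ B := by
      rw [mul_add, mul_one, add_comm, pow_add, Nat.mod_mul, mul_comm]
    rw [h2, ev_cons hB g0 (Nat.mod_lt _ (by positivity))]
    exact S.mul_mem (dg_zero ▸ h 0 (by omega)) (ih _ fun j hj => dg_succ ▸ h (j + 1) (by omega))

lemma lv_mem {S : Subgroup G} {c : ℕ} (h : g (c / 2) ∈ S) : lv g c ∈ S := by
  unfold lv
  split_ifs
  exacts [h, S.inv_mem h]

/-- the meaning of an entry of the table of commuting generators -/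
def Cum (g : ℕ → G) (z : ℕ) : Prop := ∀ x, Nat.land z 65535 = x + 1 →
  ∀ h, Nat.land (Nat.shiftRight z 16) 65535 ≤ h → g h * g x = g x * g h

/-- the product of tails with the digits of `N` as exponents -/
def Ph (d K : ℕ) (t : ℕ → center G) (N : ℕ) : center G := ∏ j ∈ Finset.range K, t j ^ dg d j N

lemma Ph_add {b' a c : ℕ} (hb : b + b' < 2 ^ d) (ha : Bd d b a) (hc : Bd d b' c) :
    Ph d K t (a + c) = Ph d K t a * Ph d K t c := by
  simp only [Ph, dg_add hb ha hc, pow_add, Finset.prod_mul_distrib]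
lemma Ph_zero : Ph d K t 0 = 1 := by simp [Ph, dg]
lemma Ph_pow (hd : 0 < d) {i : ℕ} (hi : i < K) : Ph d K t (2 ^ (d * i)) = t i := by
  simp [Ph, dg_pow hd, hi]

/-- an equation up to tails -/
def St (B d K : ℕ) (g : ℕ → G) (t : ℕ → center G) (u v a c : ℕ) : Prop :=
  ev B g u * Ph d K t a = ev B g v * Ph d K t c

structure Good2 (B d b K : ℕ) (g : ℕ → G) (t : ℕ → center G) (Q : ℕ) : Prop where
  l : B ∣ nL (tr Q)
  r : B ∣ nR (tr Q)
  lt : fR (tr Q) < 2 ^ nR (tr Q)
  p : Bd d b (tr (tl Q))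
  n : Bd d b (tl (tl Q))
  e : St B d K g t (fL (tr Q)) (fR (tr Q)) (tl (tl Q)) (tr (tl Q))

lemma mv (x y : G) (z : center G) : x * z * y = x * y * z := by
  rw [mul_assoc, mul_assoc, mem_center_iff.1 z.2 y]

lemma alg {x y A C v : G} {n p a c : center G} (e : A * n = C * p)
    (h : x * (C * y) * (a * p) = v * (c * n)) : x * (A * y) * a = v * c := by
  apply mul_right_cancel (b := (n : G))
  have h1 : A * y * n = C * y * p := by rw [← mv, e, mv]
  rw [mul_assoc v, ← h, ← mv, mul_assoc x, h1, ← mul_assoc x, mv, mul_assoc _ (a : G)]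

lemma rw2_sound (hB : 0 < B) (g0 : g 0 = 1) {u v p A na C nc a c x y m : ℕ} {k : ℕ → Bool}
    (ha : B ∣ na) (hc : B ∣ nc) (hC : C < 2 ^ nc) (e : St B d K g t A C y x) (hm : m + b < 2 ^ d)
    (ba : Bd d m a) (bc : Bd d m c) (bx : Bd d b x) (by' : Bd d b y)
    (hk : ∀ u', k u' = true → St B d K g t u' v (a + x) (c + y))
    (h : rw1 u (Nat.mul B p) A na C nc k = true) : St B d K g t u v a c := by
  obtain ⟨α, rfl⟩ := ha
  obtain ⟨γ, rfl⟩ := hc
  simp only [rw1, force_eq, an_iff, beq_iff, low_eq, shr_eq, shl_eq, Nat.add_eq, Nat.mul_eq] at h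
  have h2 := hk _ h.2
  unfold St at *
  rw [ev_cat hB g0 p (Nat.mod_lt _ (by positivity)), ev_cat hB g0 γ hC, Ph_add hm ba bx,
    Ph_add hm bc by', coe_mul, coe_mul] at h2
  rw [ev_split hB g0 p u, ev_split hB g0 α (u / _), h.1]
  exact alg e h2

lemma blk_sound (hB : 0 < B) (g0 : g 0 = 1) {z p e n u v a c m : ℕ} {k : ℕ → Bool} (hz : Cum g z)
    (hm : m + b < 2 ^ d) (ba : Bd d m a) (bc : Bd d m c)
    (hk : ∀ u', k u' = true → St B d K g t u' v a c)
    (h : blk B z (Nat.mul B p) e n u k = true) : St B d K g t u v a c := by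
  simp only [blk, force_eq, an_iff, beq_iff] at h
  obtain ⟨h1, h2, h3, h⟩ := h
  generalize Nat.shiftRight u (Nat.mul B p) = r at h1 h2 h3 h
  have b0 : Bd d b 0 := fun j => by simp [dg]
  have hx : low r B < 2 ^ B := low_eq _ _ ▸ Nat.mod_lt _ (by positivity)
  have hX : low r (Nat.mul B e) < 2 ^ (B * e) := low_eq _ _ ▸ Nat.mod_lt _ (by positivity)
  have hs : low (Nat.shiftRight r (Nat.mul B e)) (Nat.mul B n) < 2 ^ (B * n) :=
    low_eq _ _ ▸ Nat.mod_lt _ (by positivity)
  have h4 := geq_sound hB h3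
  generalize low (Nat.shiftRight r (Nat.mul B e)) (Nat.mul B n) = s at *
  generalize low r (Nat.mul B e) = X at *
  generalize low r B = x at *
  have hd : B ∣ Nat.add (Nat.mul B e) (Nat.mul B n) := ⟨e + n, (mul_add B e n).symm⟩
  refine rw2_sound (x := 0) (y := 0) hB g0 hd hd ?_ ?_ hm ba bc b0 b0 hk h
  · rw [shl_eq, Nat.add_eq, Nat.add_eq, Nat.mul_eq, Nat.mul_eq, pow_add]
    nlinarith
  · have h5 : ev B g s ∈ centralizer {g (x / 2)} := by
      rw [← Nat.mod_eq_of_lt hs]
      refine ev_mod hB g0 n s fun j hj => lv_mem (mem_centralizer_singleton_iff.2 ?_)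
      have := h4 j hj
      exact hz _ (h1.symm.trans (by rw [shr_eq]; rfl)) _ (by rw [Nat.mul_eq] at this; omega)
    have h6 : ev B g X ∈ centralizer {ev B g s} := by
      rw [← Nat.mod_eq_of_lt hX]
      refine ev_mod hB g0 e X fun j hj => lv_mem ?_
      rw [h2, Nat.mul_eq, dg_rep hB hx, if_pos hj]
      exact mem_centralizer_singleton_iff.2 (mem_centralizer_singleton_iff.1 h5).symm
    rw [St, shl_eq, shl_eq, Nat.add_eq, Nat.add_eq, Nat.mul_eq, Nat.mul_eq, ev_cat hB g0 e hX,
      ev_cat hB g0 n hs, mem_centralizer_singleton_iff.1 h6]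

lemma step2_sound (hB : 0 < B) (g0 : g 0 = 1) {w i op s u v a c m : ℕ}
    {k : ℕ → ℕ → ℕ → ℕ → ℕ → Bool} (hC : ∀ f < i, Cum g (C f))
    (hT : ∀ f < i, Good2 B d b K g t (U f)) (hm : m + b < 2 ^ d) (ba : Bd d m a) (bc : Bd d m c)
    (hk : ∀ s u v a c, Bd d (m + b) a → Bd d (m + b) c → k s u v a c = true → St B d K g t u v a c)
    (h : step2 B w U C i op s u v a c k = true) : St B d K g t u v a c := by
  unfold step2 at h
  rw [force_eq, force_eq] at h
  generalize Nat.land (Nat.shiftRight op 4) 1023 = p at h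
  generalize Nat.shiftRight op 14 = f at h
  generalize Nat.land (Nat.shiftRight op 1) 7 = r at h
  have hk' := fun s u v => hk s u v a c (ba.mono (Nat.le_add_right _ _))
    (bc.mono (Nat.le_add_right _ _))
  rcases r with _ | _ | _ | _ | _ | _ | r
  · simp only [Nat.rec_zero, an_iff, lt_iff, force_eq] at h
    have q := hT f h.1
    exact rw2_sound hB g0 q.r q.l (fL_lt _) q.e.symm hm ba bc q.n q.p
      (fun u' => hk _ _ _ _ _ (ba.add hm q.n) (bc.add hm q.p)) h.2
  · simp only [Nat.rec_zero, an_iff, lt_iff, force_eq] at h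
    have q := hT f h.1
    exact rw2_sound hB g0 q.l q.r q.lt q.e hm ba bc q.p q.n
      (fun u' => hk _ _ _ _ _ (ba.add hm q.p) (bc.add hm q.n)) h.2
  · have := hk' _ _ _ (by simpa only [Nat.rec_add_one, Nat.rec_zero, force_eq] using h)
    rw [St, ev_invN hB g0, shr_eq, Nat.mul_eq, mul_assoc] at this
    rw [St, ev_split hB g0 p u, mul_assoc, this, mul_inv_cancel_left]
  · have := hk' _ _ _ (by simpa only [Nat.rec_add_one, Nat.rec_zero, force_eq] using h)
    rw [St, ev_cat' hB g0, ev_invW hB g0, shr_eq, low_eq, Nat.mul_eq, ← mv] at this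
    rw [St, ev_split hB g0 p u, ← mv, this, inv_mul_cancel_right]
  · have := hk' _ _ _ (by simpa only [Nat.rec_add_one, Nat.rec_zero, force_eq] using h)
    have h1 : p % 2 ^ B < 2 ^ B := Nat.mod_lt _ (by positivity)
    rw [St, shl_eq, shl_eq, low_eq, Nat.add_eq, Nat.add_eq, ev_cons hB g0 h1, ev_cons hB g0 h1,
      mul_assoc, mul_assoc] at this
    exact mul_left_cancel this
  · have := hk' _ _ _ (by simpa only [Nat.rec_add_one, Nat.rec_zero, force_eq] using h)
    rw [St, ev_cat' hB g0, ev_cat' hB g0, ← mv, ← mv] at this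
    exact mul_right_cancel this
  · simp only [an_iff, lt_iff, force_eq] at h
    exact blk_sound hB g0 (hC f h.1) hm ba bc (fun u' => hk' _ _ _) h.2

lemma run2_sound (hB : 0 < B) (g0 : g 0 = 1) {w i : ℕ} (hC : ∀ f < i, Cum g (C f))
    (hT : ∀ f < i, Good2 B d b K g t (U f))
    (n : ℕ) : ∀ m s u v a c, m + n * b < 2 ^ d → Bd d m a → Bd d m c →
      run2 B w U C i n s u v a c = true → St B d K g t u v a c := by
  induction n with
  | zero =>
    intro m s u v a c _ _ _ h
    obtain ⟨h1, h2⟩ := an_iff.1 h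
    rw [beq_iff.1 h1, beq_iff.1 h2, St]
  | succ n ih =>
    intro m s u v a c hm ba bc h
    have e : run2 B w U C i (n + 1) s u v a c = force (low s w) fun op => force (Nat.shiftRight s w)
      fun s' => Nat.rec (step2 B w U C i op s' u v a c (run2 B w U C i n))
        (fun _ _ => step2 B w U C i op s' v u c a (run2 B w U C i n)) (Nat.land op 1) := rfl
    rw [e, force_eq, force_eq] at h
    rw [add_mul, one_mul] at hm
    generalize Nat.land (low s w) 1 = r at h
    cases r with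
    | zero =>
      exact step2_sound hB g0 hC hT (by omega) ba bc (fun _ _ _ _ _ => ih _ _ _ _ _ _ (by omega)) h
    | succ r =>
      exact (step2_sound hB g0 hC hT (by omega) bc ba
        (fun _ _ _ _ _ => ih _ _ _ _ _ _ (by omega)) h).symm

section hom
variable {H : Type*} [Group H] (φ : G →* H)

lemma ev_map (w : ℕ) : ev B (fun i => φ (g i)) w = φ (ev B g w) := by
  rw [ev, ev, map_list_prod, List.map_map]
  congr 2
  funext c
  simp only [lv, Function.comp]
  split_ifs <;> simp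

lemma Ex.ev_map (y : ℕ → G) (e : Ex) :
    e.ev (fun i => φ (g i)) (fun i => φ (y i)) = φ (e.ev g y) := by
  induction e <;> simp [Ex.ev, cj, cm, *]

lemma Eqn.map {y : ℕ → G} {q : Eqn} (h : q.Holds g y) :
    q.Holds (fun i => φ (g i)) fun i => φ (y i) := by
  cases q <;> simp only [Eqn.Holds, Ex.ev_map] at *
  · rw [h]
  · simpa [cm] using congrArg φ h

lemma Eqn.of_map (hφ : Function.Injective φ) {y : ℕ → G} {q : Eqn}
    (h : q.Holds (fun i => φ (g i)) fun i => φ (y i)) : q.Holds g y := by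
  cases q <;> simp only [Eqn.Holds, Ex.ev_map] at * <;> apply hφ
  · exact h
  · simpa [cm] using h
end hom

lemma Good2.quot {Q : ℕ} (h : Good2 B d b K g t Q) :
    Good B (fun i => QuotientGroup.mk' (center G) (g i)) (tr Q) := ⟨h.l, h.r, h.lt, by
  have e := congrArg (QuotientGroup.mk' (center G)) h.e
  have z : ∀ z : center G, QuotientGroup.mk' (center G) z = 1 :=
    fun z => (QuotientGroup.eq_one_iff _).2 z.2
  simpa only [ev_map, map_mul, z, mul_one] using e⟩

lemma comm_of_quot {x y x' y' : G} (h : x * y = y * x)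
    (hx : QuotientGroup.mk' (center G) x' = QuotientGroup.mk' (center G) x)
    (hy : QuotientGroup.mk' (center G) y' = QuotientGroup.mk' (center G) y) :
    x' * y' = y' * x' := by
  obtain ⟨z, hz, rfl⟩ := (QuotientGroup.mk'_eq_mk' _).1 hx.symm
  obtain ⟨z', hz', rfl⟩ := (QuotientGroup.mk'_eq_mk' _).1 hy.symm
  have h1 : Commute x y := h
  have h2 : ∀ u, Commute u z := fun u => mem_center_iff.1 hz u
  have h3 : ∀ u, Commute u z' := fun u => mem_center_iff.1 hz' u
  exact ((h1.mul_right (h3 _)).mul_left (h2 _).symm).eq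

/-- all the laws of a list -/
def AllQ (H : Subgroup G) (g : ℕ → G) : List Eqn → Prop
  | [] => True
  | q :: l => (∀ y : ℕ → G, (∀ i, y i ∈ H) → q.Holds g y) ∧ AllQ H g l

lemma insChk2_sound (hB : 0 < B) (g0 : g 0 = 1) {i l r : ℕ} {laws : List Eqn}
    (hl : ∀ j y, (nth (.E .o .o) laws j).Holds g y) (hT : ∀ f < i, Good2 B d b K g t (U f))
    {s : Ins} (h : insChk2 B U laws i l r s = true) : ev B g l = ev B g r := by
  obtain ⟨j, x, y, s⟩ := s
  have hj := hl j
  unfold insChk2 at h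
  dsimp only at h
  generalize nth (Eqn.E .o .o) laws j = q at h hj
  cases q with
  | E a c =>
    obtain ⟨u, v, s, h, e⟩ := eqW_sound hB g0 (fun f hf => absurd hf (Nat.not_lt_zero f)) h
    rw [an_iff, beq_iff, beq_iff] at h
    rw [← h.1, ← h.2]
    exact e.2 (hj _)
  | C a c =>
    have hT' := fun f hf => (hT f hf).quot
    have g0' : QuotientGroup.mk' (center G) (g 0) = 1 := by rw [g0, map_one]
    obtain ⟨u, s, h, e1⟩ := exW_sound hB g0' hT' _ _ _ h
    obtain ⟨u', s, h, e1'⟩ := rd_sound hT' h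
    obtain ⟨v, s, h, e2⟩ := exW_sound hB g0' hT' _ _ _ h
    obtain ⟨v', s, h, e2'⟩ := rd_sound hT' h
    rw [force_eq, force_eq, an_iff, beq_iff, beq_iff] at h
    rw [← h.1, ← h.2, ev_cat' hB g0, ev_cat' hB g0]
    simp only [ev_map, Ex.ev_map] at e1 e1' e2 e2'
    exact comm_of_quot (cm_eq_one.1 (hj _)) (e1'.trans e1) (e2'.trans e2)

open Classical in
/-- the tails -/
noncomputable def tail (B : ℕ) (g : ℕ → G) (U : ℕ → ℕ) (j : ℕ) : center G :=
  if h : (ev B g (fR (tr (U j))))⁻¹ * ev B g (fL (tr (U j))) ∈ center G then ⟨_, h⟩ else 1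

lemma cumChk_sound (hB : 0 < B) (g0 : g 0 = 1) {n i l r a c : ℕ} (gn : ∀ h, n < h → g h = 1)
    (hC : ∀ f < i, Cum g (C f)) (e : St B d K g t l r a c) (h : cumChk B n C i l r a c = true) :
    Cum g (C i) := by
  intro x hx y hy
  rw [cumChk, force_eq, hx] at h
  simp only [force_eq, an_iff, beq_iff, lt_iff, shl_eq (1 : ℕ), shl_eq (Nat.mul _ _), one_mul] at h
  generalize Nat.land (Nat.shiftRight (C i) 16) 65535 = θ at h hy
  obtain ⟨h1, h2, rfl, rfl, rfl, h⟩ := h
  rcases hy.eq_or_lt with rfl | hy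
  · have one : ∀ k, Nat.mul 2 k < 2 ^ B → ev B g (Nat.mul 2 k) = g k := fun k hk => by
      simpa [lv] using ev_cons hB g0 hk 0
    have := mul_right_cancel e
    rw [Nat.add_eq, Nat.add_eq, ev_cons hB g0 h1, ev_cons hB g0 h2, one _ h1, one _ h2] at this
    simpa [lv] using this
  · cases q : Nat.ble n θ with
    | true => rw [gn y (lt_of_le_of_lt (Nat.ble_eq ▸ q) hy), one_mul, mul_one]
    | false =>
      rw [q] at h
      simp only [an_iff, beq_iff, lt_iff] at h
      exact hC _ h.1 x h.2.1 y (h.2.2 ▸ hy)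

lemma chk2_sound (hB : 0 < B) (hd : 0 < d) (hb : 16384 * b < 2 ^ d) (g0 : g 0 = 1) {w n i M : ℕ}
    (gn : ∀ h, n < h → g h = 1) (hC : ∀ f < i, Cum g (C f))
    {P : ℕ → ℕ} {I : ℕ → Ins} {laws : List Eqn} (hM : Bd d b M)
    (hl : ∀ j y, (nth (.E .o .o) laws j).Holds g y)
    (hc : i < K → ev B g (fL (tr (U i))) = ev B g (fR (tr (U i))) * t i)
    (hT : ∀ f < i, Good2 B d b K g t (U f))
    (h : chk2 B w n d K M U C P I laws i = true) :
    Good2 B d b K g t (U i) ∧ Cum g (C i) := by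
  simp only [chk2, force_eq, an_iff, beq_iff, lt_iff, shl_eq, one_mul] at h
  obtain ⟨h1, h2, h3, h4, h5, h0, h⟩ := h
  suffices q : Good2 B d b K g t (U i) from ⟨q, cumChk_sound hB g0 gn hC q.e h0⟩
  refine ⟨Nat.dvd_of_mod_eq_zero h1, Nat.dvd_of_mod_eq_zero h2, h3, hM.land h4, hM.land h5, ?_⟩
  cases e : lt i K with
  | true =>
    rw [e] at h
    obtain ⟨h6, h7⟩ := an_iff.1 h
    rw [St, beq_iff.1 h6, beq_iff.1 h7, Ph_zero, Nat.mul_eq, Ph_pow hd (lt_iff.1 e),
      hc (lt_iff.1 e)]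
    simp
  | false =>
    rw [e] at h
    dsimp only at h
    have h8 : Nat.land (Nat.shiftRight (P i) 1) 16383 ≤ 16383 := Nat.and_le_right
    generalize Nat.land (P i) 1 = r at h
    cases r with
    | zero =>
      exact run2_sound hB g0 hC hT _ b _ _ _ _ _ (by nlinarith) (hM.land h5) (hM.land h4) h
    | succ r =>
      obtain ⟨h6, h7⟩ := an_iff.1 h
      rw [St, beq_iff.1 h6, insChk2_sound hB g0 hl hT h7]

/-- the first `m` blocks of size `2 ^ e` are checked -/
def Upto2 (B w n d K M : ℕ) (U C : ℕ → ℕ) (I : ℕ → Ins) (laws : List Eqn) (e m : ℕ) : Prop :=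
  ∀ i < m * 2 ^ e, ∃ P, chk2 B w n d K M U C P I laws i = true

lemma Upto2.zero {w n M e : ℕ} {I : ℕ → Ins} {laws : List Eqn} :
    Upto2 B w n d K M U C I laws e 0 :=
  fun i h => by simp at h

lemma Upto2.succ {w n M e m : ℕ} {P : ℕ → ℕ} {I : ℕ → Ins} {laws : List Eqn}
    (h : Upto2 B w n d K M U C I laws e m) (k : allB (chk2 B w n d K M U C P I laws) e m = true) :
    Upto2 B w n d K M U C I laws e (m + 1) := fun i hi => by
  by_cases h1 : i < m * 2 ^ e
  · exact h i h1
  · exact ⟨P, allB_sound k i (Nat.div_eq_of_lt_le (not_lt.1 h1) hi)⟩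

lemma finL_sound {o n : ℕ} (h : finL d o U n = true) : ∀ j < n, tr (U (o + j)) = 0 ∧
    tr (tl (U (o + j))) = 2 ^ (d * j) ∧ tl (tl (U (o + j))) = 0 := by
  induction n with
  | zero => exact fun j hj => absurd hj (Nat.not_lt_zero j)
  | succ n ih =>
    obtain ⟨h1, h2⟩ := an_iff.1 h
    intro j hj
    rcases Nat.lt_succ_iff_lt_or_eq.1 hj with hj | rfl
    · exact ih h2 j hj
    · simpa only [force_eq, an_iff, beq_iff, shl_eq, one_mul, Nat.add_eq, Nat.mul_eq] using h1

/-- the numerical side conditions -/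
noncomputable def side (B d b K M o N : ℕ) (U : ℕ → ℕ) : Bool :=
  an (lt 0 B) (an (lt 0 d) (an (lt (16384 * b) (2 ^ d)) (an (Nat.ble (o + K) N)
    (an (bdL d b K M) (finL d o U K)))))

/-- the first `N` records hold exactly -/
def Base (B d b K : ℕ) (g : ℕ → G) (U C : ℕ → ℕ) (N : ℕ) : Prop :=
  ∀ i < N, Good2 B d b K g 1 (U i) ∧ Cum g (C i)

lemma Ph_one (N : ℕ) : Ph d K (1 : ℕ → center G) N = 1 := by simp [Ph]

lemma Good2.good {Q : ℕ} (q : Good2 B d b K g 1 Q) : Good B g (tr Q) :=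
  ⟨q.l, q.r, q.lt, by simpa [St, Ph_one] using q.e⟩

theorem good_of_nil {w n M o e m : ℕ} {I : ℕ → Ins} {laws : List Eqn}
    (hs : side B d b K M o (m * 2 ^ e) U = true) (h : Upto2 B w n d K M U C I laws e m)
    (G : Type*) [Group G] [Group.IsNilpotent G] : ∀ g : ℕ → G, g 0 = 1 → (∀ h, n < h → g h = 1) →
      (∀ j y, (nth (.E .o .o) laws j).Holds g y) → Base B d b K g U C (m * 2 ^ e) := by
  simp only [side, an_iff, lt_iff, Nat.ble_eq] at hs
  obtain ⟨hB, hd, hb, ho, hM, hf⟩ := hs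
  have key : ∀ (G : Type _) [Group G] (g : ℕ → G), g 0 = 1 → (∀ h, n < h → g h = 1) →
      (∀ j y, (nth (.E .o .o) laws j).Holds g y) →
      (∀ j < K, (ev B g (fR (tr (U j))))⁻¹ * ev B g (fL (tr (U j))) ∈ center G) →
      Base B d b K g U C (m * 2 ^ e) := by
    intro G _ g g0 gn hl hc
    have hT : ∀ i < m * 2 ^ e, Good2 B d b K g (tail B g U) (U i) ∧ Cum g (C i) := fun i => by
      induction i using Nat.strong_induction_on with
      | _ i ih =>
        intro hi
        obtain ⟨P, hP⟩ := h i hi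
        exact chk2_sound hB hd hb g0 gn (fun f hf => (ih f hf (hf.trans hi)).2) (bdL_sound hM) hl
          (fun hj => by rw [tail, dif_pos (hc i hj)]; simp)
          (fun f hf => (ih f hf (hf.trans hi)).1) hP
    have ht : ∀ j < K, tail B g U j = 1 := fun j hj => by
      obtain ⟨h1, h2, h3⟩ := finL_sound hf j hj
      have := (hT (o + j) (by omega)).1.e
      rw [St, h1, h2, h3, Ph_zero, Ph_pow hd hj] at this
      exact Subtype.ext (mul_left_cancel this).symm
    have hP : ∀ N, Ph d K (tail B g U) N = 1 := fun N =>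
      Finset.prod_eq_one fun j hj => by rw [ht j (Finset.mem_range.1 hj), one_pow]
    intro i hi
    have q := (hT i hi).1
    exact ⟨⟨q.l, q.r, q.lt, q.p, q.n, by simpa [St, hP, Ph_one] using q.e⟩, (hT i hi).2⟩
  refine Group.nilpotent_center_quotient_ind (P := fun G _ _ => ∀ g : ℕ → G, g 0 = 1 →
    (∀ h, n < h → g h = 1) → (∀ j y, (nth (.E .o .o) laws j).Holds g y) →
    Base B d b K g U C (m * 2 ^ e)) G ?_ ?_
  · intro G _ _ g g0 gn hl
    exact key G g g0 gn hl fun j _ => mem_center_iff.2 fun _ => Subsingleton.elim _ _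
  · intro G _ _ ih g g0 gn hl
    refine key G g g0 gn hl fun j hj => ?_
    have q := ih (fun i => QuotientGroup.mk' (center G) (g i)) (by rw [g0, map_one])
      (fun h hh => by rw [gn h hh, map_one]) (fun j y => by
      choose y' hy using fun i => QuotientGroup.mk'_surjective (center G) (y i)
      obtain rfl : y = _ := (funext hy).symm
      exact Eqn.map _ (hl j y')) j (by omega)
    have := q.1.good.e
    rw [ev_map, ev_map] at this
    exact QuotientGroup.eq.1 this.symm

lemma Ex.ev_mem {H : Subgroup G} {y : ℕ → G} (hg : ∀ i, g i ∈ H) (hy : ∀ i, y i ∈ H) (e : Ex) :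
    e.ev g y ∈ H := by
  have := Ex.ev_map (g := fun i => (⟨g i, hg i⟩ : H)) H.subtype (fun i => ⟨y i, hy i⟩) e
  exact (this.trans rfl : e.ev g y = _) ▸ Subtype.prop _

/-- all the members of a list lie in `H` -/
def AllM (H : Subgroup G) : List G → Prop
  | [] => True
  | x :: l => x ∈ H ∧ AllM H l

lemma nth_mem {H : Subgroup G} {l : List G} (h : AllM H l) (i : ℕ) : nth 1 l i ∈ H := by
  induction l generalizing i with
  | nil => exact H.one_mem
  | cons x l ih =>
    cases i with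
    | zero => exact h.1
    | succ i => exact ih h.2 i

/-- the generators of the polycyclic presentation -/
noncomputable def gen (l : List G) (defs : List Ex) (i : ℕ) : G :=
  (nth .o defs i).ev (nth 1 l) fun _ => 1

lemma nth_ge {α : Type*} (d : α) (l : List α) : ∀ i, l.length ≤ i → nth d l i = d := by
  induction l with
  | nil => exact fun _ _ => rfl
  | cons x l ih =>
    rintro (_ | i) h
    exacts [absurd h (by simp), ih i (by simpa using h)]

lemma gen_def {L : List G} {defs : List Ex} {j a c : ℕ} {H : Subgroup G}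
    (h : nth .o defs j = .c (nth .o defs a) (nth .o defs c)) (y : ℕ → G) (_ : ∀ i, y i ∈ H) :
    (Eqn.E (.g j) (.c (.g a) (.g c))).Holds (gen L defs) y := by
  simp only [Eqn.Holds, Ex.ev, gen, h]

theorem nbase {w n M o e m : ℕ} {I : ℕ → Ins} {laws : List Eqn} {H : Subgroup G}
    (hH : Group.IsNilpotent H) {L : List G} {defs : List Ex} (hL : AllM H L)
    (g0 : gen L defs 0 = 1) (gn : defs.length = n + 1) (hl : AllQ H (gen L defs) laws)
    (hs : side B d b K M o (m * 2 ^ e) U = true) (h : Upto2 B w n d K M U C I laws e m) :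
    Base B d b K (gen L defs) U C (m * 2 ^ e) := by
  have hg : ∀ i, gen L defs i ∈ H := fun i => Ex.ev_mem (nth_mem hL) (fun _ => H.one_mem) _
  have hl' : ∀ j (y : ℕ → G), (∀ i, y i ∈ H) → (nth (Eqn.E .o .o) laws j).Holds (gen L defs) y := by
    clear h
    induction laws with
    | nil => exact fun _ _ _ => rfl
    | cons q r ih =>
      rintro (_ | j)
      exacts [hl.1, ih hl.2 j]
  have hT := good_of_nil hs h H (fun i => ⟨_, hg i⟩) (Subtype.ext g0)
    (fun i hi => Subtype.ext (show gen L defs i = 1 by rw [gen, nth_ge _ _ _ (by omega)]; rfl))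
    fun j y => Eqn.of_map H.subtype H.subtype_injective (hl' j _ fun i => (y i).2)
  intro i hi
  obtain ⟨q, c⟩ := hT i hi
  refine ⟨⟨q.l, q.r, q.lt, q.p, q.n, ?_⟩, fun x hx y hy => congrArg Subtype.val (c x hx y hy)⟩
  have := congrArg H.subtype q.good.e
  rw [← ev_map, ← ev_map] at this
  rw [St, Ph_one, Ph_one]
  exact congrArg (· * _) this

theorem Base.targets {N : ℕ} (h : Base B d b K g U C N) (hB : 0 < B) (g0 : g 0 = 1) (l : List Eqn)
    (s : List ℕ) (k : prvs B (fun f => tr (U f)) N (fun _ => 0) l s (fun _ => true) = true) :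
    AllE g l := by
  induction l generalizing s with
  | nil => trivial
  | cons q l ih =>
    obtain ⟨h1, s, k⟩ := prv_sound hB g0 (fun i hi => (h i hi).1.good) k
    exact ⟨by simpa using h1, ih s k⟩

/-- the first `N` entries from `U`, the others from `V` -/
noncomputable def sw (N : ℕ) (U V : ℕ → ℕ) (i : ℕ) : ℕ := Bool.rec (V i) (U i) (lt i N)

lemma sw_lt {N i : ℕ} {U V : ℕ → ℕ} (h : i < N) : sw N U V i = U i := by rw [sw, lt_iff.2 h]

/-- drop the tails -/
noncomputable def cut (U : ℕ → ℕ) (i : ℕ) : ℕ :=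
  force (U i) fun Q => low Q (Nat.add 20 (Nat.land Q 1048575))

lemma cut_spec (i : ℕ) : tr (cut U i) = tr (U i) ∧ tl (cut U i) = 0 := by
  have l : ∀ x, Nat.land x 1048575 = x % 2 ^ 20 := fun x => Nat.and_two_pow_sub_one_eq_mod x 20
  simp only [cut, force_eq, tr, tl, l, low_eq, shr_eq, Nat.add_eq]
  rw [Nat.mod_mod_of_dvd _ (pow_dvd_pow 2 (Nat.le_add_right _ _))]
  refine ⟨?_, Nat.div_eq_of_lt (Nat.mod_lt _ (by positivity))⟩
  rw [pow_add, Nat.mod_mul_right_div_self, Nat.mod_mod]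

lemma Base.sw {N : ℕ} (h : Base B d b K g U C N) (V D : ℕ → ℕ) :
    Base B d b K g (sw N (cut U) V) (sw N C D) N := fun i hi => by
  rw [sw_lt hi, sw_lt hi]
  obtain ⟨e1, e2⟩ := cut_spec (U := U) i
  obtain ⟨q, c⟩ := h i hi
  have b0 : Bd d b 0 := fun j => by simp [dg]
  refine ⟨⟨e1 ▸ q.l, e1 ▸ q.r, e1 ▸ q.lt, e2 ▸ b0, e2 ▸ b0, ?_⟩, c⟩
  rw [St, e1, Ph_one, Ph_one, q.good.e]

/-- the numerical side conditions of an extension -/
noncomputable def side2 (B d b K M : ℕ) : Bool :=
  an (lt 0 B) (an (lt 0 d) (an (lt (16384 * b) (2 ^ d)) (bdL d b K M)))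

/-- one more block of records -/
theorem Base.ext {w n M N e m : ℕ} {P : ℕ → ℕ} {L : List G} {defs : List Ex}
    (h : Base B d b K (gen L defs) U C N) (N' : ℕ) (hs : side2 B d b K M = true) (g0 : gen L defs 0 = 1)
    (gn : defs.length = n + 1) (hN : m * 2 ^ e ≤ N ∧ K ≤ N ∧ N' ≤ (m + 1) * 2 ^ e)
    (k : allB (fun i => Bool.rec (chk2 B w n d K M U C P (l1 ⟨0, 0, 0, []⟩) [] i) true (lt i N))
      e m = true) : Base B d b K (gen L defs) U C N' := by
  simp only [side2, an_iff, lt_iff] at hs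
  obtain ⟨hB, hd, hb, hM⟩ := hs
  intro i
  induction i using Nat.strong_induction_on with
  | _ i ih =>
    intro hi
    by_cases h1 : i < N
    · exact h i h1
    have h2 := allB_sound k i (Nat.div_eq_of_lt_le (by omega) (by omega))
    rw [show lt i N = false from Bool.eq_false_iff.2 (mt lt_iff.1 h1)] at h2
    exact chk2_sound (laws := []) hB hd hb g0 (fun j hj => by rw [gen, nth_ge _ _ _ (by omega)]; rfl)
      (fun f hf => (ih f hf (hf.trans hi)).2) (bdL_sound hM) (fun _ _ => rfl)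
      (fun hj => absurd hj (by omega)) (fun f hf => (ih f hf (hf.trans hi)).1) h2

end Pool.Agent.P.MP_9682d1_al.KB
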