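import Pool.Agent.P.MP_9682d1_al.KB.NSound

/-! Nilpotent quotient computations in groups without `q`-torsion. -/

set_option autoImplicit false

namespace Pool.Agent.P.MP_9682d1_al.KB

open Subgroup
open scoped IsMulCommutative

/-- the records from `o` on form a triangular system whose diagonal divides `z` -/
noncomputable def finT (d o z : ℕ) (U : ℕ → ℕ) (n : ℕ) : Bool :=
  Nat.rec true (fun j ih => an (force (U (Nat.add o j)) fun Q => an (Nat.beq (tr Q) 0)
    (force (Nat.shiftRight (tr (tl Q)) (Nat.mul d j)) fun k => an (lt k (Nat.shiftLeft 1 d))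
      (an (Nat.beq (Nat.mod z k) 0) (Nat.beq (Nat.shiftRight (tl (tl Q)) (Nat.mul d j)) 0)))) ih) n

/-- the numerical side conditions -/
noncomputable def sideT (B d b K M o N z : ℕ) (U : ℕ → ℕ) : Bool :=
  an (lt 0 B) (an (lt 0 d) (an (lt (16384 * b) (2 ^ d)) (an (Nat.ble (o + K) N)
    (an (bdL d b K M) (finT d o z U K)))))

variable {G : Type*} [Group G] {B : ℕ} {g : ℕ → G} {U C : ℕ → ℕ} {d b K : ℕ}

lemma finT_sound {o z n : ℕ} (h : finT d o z U n = true) : ∀ j < n, tr (U (o + j)) = 0 ∧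
    tr (tl (U (o + j))) / 2 ^ (d * j) < 2 ^ d ∧ z % (tr (tl (U (o + j))) / 2 ^ (d * j)) = 0 ∧
    tl (tl (U (o + j))) / 2 ^ (d * j) = 0 := by
  induction n with
  | zero => exact fun j hj => absurd hj (Nat.not_lt_zero j)
  | succ n ih =>
    obtain ⟨h1, h2⟩ := an_iff.1 h
    intro j hj
    rcases Nat.lt_succ_iff_lt_or_eq.1 hj with hj | rfl
    · exact ih h2 j hj
    · simp only [force_eq, an_iff, beq_iff, lt_iff, shl_eq, shr_eq, one_mul, Nat.add_eq,
        Nat.mul_eq] at h1
      exact h1

lemma Ph_tri {t : ℕ → center G} {j N : ℕ} (hj : j < K) (ht : ∀ i < j, t i = 1)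
    (h : N / 2 ^ (d * j) < 2 ^ d) : Ph d K t N = t j ^ (N / 2 ^ (d * j)) := by
  rw [Ph, Finset.prod_eq_single j, dg, Nat.mod_eq_of_lt h]
  · intro i _ hi
    rcases lt_or_gt_of_ne hi with hi | hi
    · rw [ht i hi, one_pow]
    · obtain ⟨r, rfl⟩ := Nat.exists_eq_add_of_lt hi
      rw [dg, show d * (j + r + 1) = d * j + (d + d * r) by ring, pow_add, pow_add,
        ← Nat.div_div_eq_div_mul, ← Nat.div_div_eq_div_mul, Nat.div_eq_of_lt h]
      simp
  · exact fun h => absurd (Finset.mem_range.2 hj) h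

/-- the centre has no `q`-torsion -/
def CT (q : ℕ) (G : Type*) [Group G] : Prop := ∀ z ∈ center G, z ^ q = 1 → z = 1

lemma CT.pow {q : ℕ} (h : CT q G) (e : ℕ) : ∀ z ∈ center G, z ^ q ^ e = 1 → z = 1 := by
  induction e with
  | zero => exact fun z _ hz => by simpa using hz
  | succ e ih => exact fun z hz e' => ih z hz (h _ (pow_mem hz _) (by rwa [← pow_mul, ← pow_succ]))

lemma CT.quot {q : ℕ} (h : CT q G) : CT q (G ⧸ center G) := by
  intro z hz e
  obtain ⟨x, rfl⟩ := QuotientGroup.mk_surjective z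
  have hq : x ^ q ∈ center G := (QuotientGroup.eq_one_iff _).1 e
  refine (QuotientGroup.eq_one_iff _).2 (mem_center_iff.2 fun y => ?_)
  have hc : x⁻¹ * (y⁻¹ * x * y) ∈ center G := QuotientGroup.eq.1 (by
    rw [QuotientGroup.mk_mul, QuotientGroup.mk_mul, mem_center_iff.1 hz, mul_assoc,
      ← QuotientGroup.mk_mul, inv_mul_cancel, QuotientGroup.mk_one, mul_one])
  have h1 : (x * (x⁻¹ * (y⁻¹ * x * y))) ^ q = x ^ q := by
    have := conj_pow (i := q) (a := y⁻¹) (b := x)
    rw [inv_inv] at this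
    rw [mul_inv_cancel_left, this, mem_center_iff.1 hq, inv_mul_cancel_right]
  rw [Commute.mul_pow (mem_center_iff.1 hc x), mul_eq_left] at h1
  have := h _ hc h1
  rw [inv_mul_eq_one, mul_assoc, eq_inv_mul_iff_mul_eq] at this
  exact this

theorem good_of_tf {w n M o e m q r : ℕ} {I : ℕ → Ins} {laws : List Eqn}
    (hs : sideT B d b K M o (m * 2 ^ e) (q ^ r) U = true) (h : Upto2 B w n d K M U C I laws e m)
    (G : Type*) [Group G] [Group.IsNilpotent G] : CT q G → ∀ g : ℕ → G, g 0 = 1 →
      (∀ h, n < h → g h = 1) → (∀ j y, (nth (.E .o .o) laws j).Holds g y) →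
      Base B d b K g U C (m * 2 ^ e) := by
  simp only [sideT, an_iff, lt_iff, Nat.ble_eq] at hs
  obtain ⟨hB, hd, hb, ho, hM, hf⟩ := hs
  have key : ∀ (G : Type _) [Group G], CT q G → ∀ g : ℕ → G, g 0 = 1 → (∀ h, n < h → g h = 1) →
      (∀ j y, (nth (.E .o .o) laws j).Holds g y) →
      (∀ j < K, (ev B g (fR (tr (U j))))⁻¹ * ev B g (fL (tr (U j))) ∈ center G) →
      Base B d b K g U C (m * 2 ^ e) := by
    intro G _ hq g g0 gn hl hc
    have hT : ∀ i < m * 2 ^ e, Good2 B d b K g (tail B g U) (U i) ∧ Cum g (C i) := fun i => by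
      induction i using Nat.strong_induction_on with
      | _ i ih =>
        intro hi
        obtain ⟨P, hP⟩ := h i hi
        exact chk2_sound hB hd hb g0 gn (fun f hf => (ih f hf (hf.trans hi)).2) (bdL_sound hM) hl
          (fun hj => by rw [tail, dif_pos (hc i hj)]; simp)
          (fun f hf => (ih f hf (hf.trans hi)).1) hP
    have ht : ∀ j < K, tail B g U j = 1 := fun j => by
      induction j using Nat.strong_induction_on with
      | _ j ih =>
        intro hj
        obtain ⟨h1, h2, h3, h4⟩ := finT_sound hf j hj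
        have ih' := fun i hi => ih i hi (hi.trans hj)
        have := (hT (o + j) (by omega)).1.e
        rw [St, h1, Ph_tri hj ih' h2, Ph_tri hj ih' (by rw [h4]; positivity), h4, pow_zero] at this
        obtain ⟨c, hc⟩ := Nat.dvd_of_mod_eq_zero h3
        refine Subtype.ext (hq.pow r _ (tail B g U j).2 ?_)
        rw [hc, pow_mul, ← coe_pow, ← mul_left_cancel this]
        simp
    have hP : ∀ N, Ph d K (tail B g U) N = 1 := fun N =>
      Finset.prod_eq_one fun j hj => by rw [ht j (Finset.mem_range.1 hj), one_pow]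
    intro i hi
    have q := (hT i hi).1
    exact ⟨⟨q.l, q.r, q.lt, q.p, q.n, by simpa [St, hP, Ph_one] using q.e⟩, (hT i hi).2⟩
  refine Group.nilpotent_center_quotient_ind (P := fun G _ _ => CT q G → ∀ g : ℕ → G, g 0 = 1 →
    (∀ h, n < h → g h = 1) → (∀ j y, (nth (.E .o .o) laws j).Holds g y) →
    Base B d b K g U C (m * 2 ^ e)) G ?_ ?_
  · intro G _ _ hq g g0 gn hl
    exact key G hq g g0 gn hl fun j _ => mem_center_iff.2 fun _ => Subsingleton.elim _ _
  · intro G _ _ ih hq g g0 gn hl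
    refine key G hq g g0 gn hl fun j hj => ?_
    have q := ih hq.quot (fun i => QuotientGroup.mk' (center G) (g i)) (by rw [g0, map_one])
      (fun h hh => by rw [gn h hh, map_one]) (fun j y => by
      choose y' hy using fun i => QuotientGroup.mk'_surjective (center G) (y i)
      obtain rfl : y = _ := (funext hy).symm
      exact Eqn.map _ (hl j y')) j (by omega)
    have := q.1.good.e
    rw [ev_map, ev_map] at this
    exact QuotientGroup.eq.1 this.symm

theorem tbase {w n M o e m q r : ℕ} {I : ℕ → Ins} {laws : List Eqn} {H : Subgroup G}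
    (hH : Group.IsNilpotent H) (hq : ∀ x ∈ H, x ^ q = 1 → x = 1) {L : List G} {defs : List Ex}
    (hL : AllM H L) (g0 : gen L defs 0 = 1) (gn : defs.length = n + 1)
    (hl : AllQ H (gen L defs) laws) (hs : sideT B d b K M o (m * 2 ^ e) (q ^ r) U = true)
    (h : Upto2 B w n d K M U C I laws e m) : Base B d b K (gen L defs) U C (m * 2 ^ e) := by
  have hg : ∀ i, gen L defs i ∈ H := fun i => Ex.ev_mem (nth_mem hL) (fun _ => H.one_mem) _
  have hl' : ∀ j (y : ℕ → G), (∀ i, y i ∈ H) → (nth (Eqn.E .o .o) laws j).Holds (gen L defs) y := by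
    clear h
    induction laws with
    | nil => exact fun _ _ _ => rfl
    | cons q r ih =>
      rintro (_ | j)
      exacts [hl.1, ih hl.2 j]
  have hT := good_of_tf hs h H (fun z _ e => Subtype.ext (hq z z.2 (congrArg Subtype.val e)))
    (fun i => ⟨_, hg i⟩) (Subtype.ext g0)
    (fun i hi => Subtype.ext (show gen L defs i = 1 by rw [gen, nth_ge _ _ _ (by omega)]; rfl))
    fun j y => Eqn.of_map H.subtype H.subtype_injective (hl' j _ fun i => (y i).2)
  intro i hi
  obtain ⟨q, c⟩ := hT i hi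
  refine ⟨⟨q.l, q.r, q.lt, q.p, q.n, ?_⟩, fun x hx y hy => congrArg Subtype.val (c x hx y hy)⟩
  have := congrArg H.subtype q.good.e
  rw [← ev_map, ← ev_map] at this
  rw [St, Ph_one, Ph_one]
  exact congrArg (· * _) this

end Pool.Agent.P.MP_9682d1_al.KB
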