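import Pool.Agent.P.MP_9682d1_al.KB.Chk

/-! Soundness of the checker for rewriting proofs. -/

set_option autoImplicit false

namespace Pool.Agent.P.MP_9682d1_al.KB

variable {G : Type*} [Group G] {B : ℕ} {g : ℕ → G} {T : ℕ → ℕ}

lemma low_eq (u n : ℕ) : low u n = u % 2 ^ n := by
  show u % (1 <<< n) = _
  rw [Nat.one_shiftLeft]
lemma shr_eq (u n : ℕ) : Nat.shiftRight u n = u / 2 ^ n := Nat.shiftRight_eq_div_pow u n
lemma shl_eq (u n : ℕ) : Nat.shiftLeft u n = u * 2 ^ n := Nat.shiftLeft_eq u n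

@[simp] lemma ev_zero : ev B g 0 = 1 := by simp [ev]

lemma ev_cons (hB : 0 < B) (g0 : g 0 = 1) {x : ℕ} (hx : x < 2 ^ B) (y : ℕ) :
    ev B g (x + y * 2 ^ B) = lv g x * ev B g y := by
  by_cases h : x = 0 ∧ y = 0
  · simp [h.1, h.2, lv, g0]
  · unfold ev
    rw [mul_comm y, Nat.digits_add _ (Nat.one_lt_two_pow hB.ne') x y hx (by tauto)]
    simp

lemma ev_cat (hB : 0 < B) (g0 : g 0 = 1) (k : ℕ) {x : ℕ} (hx : x < 2 ^ (B * k)) (y : ℕ) :
    ev B g (x + y * 2 ^ (B * k)) = ev B g x * ev B g y := by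
  induction k generalizing x with
  | zero => obtain rfl : x = 0 := by simpa using hx
            simp
  | succ k ih =>
    have h1 : x % 2 ^ B < 2 ^ B := Nat.mod_lt _ (by positivity)
    have h2 : x / 2 ^ B < 2 ^ (B * k) :=
      Nat.div_lt_of_lt_mul (by rw [← pow_add, add_comm]; exact hx)
    have h3 : x = x % 2 ^ B + x / 2 ^ B * 2 ^ B := (Nat.mod_add_div' _ _).symm
    have h4 : x + y * 2 ^ (B * (k + 1)) =
        x % 2 ^ B + (x / 2 ^ B + y * 2 ^ (B * k)) * 2 ^ B := by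
      rw [add_mul, ← add_assoc, ← h3, mul_add, mul_one, pow_add, mul_assoc]
    rw [h4, ev_cons hB g0 h1, ih h2, ← mul_assoc, ← ev_cons hB g0 h1, ← h3]

lemma ev_split (hB : 0 < B) (g0 : g 0 = 1) (k u : ℕ) :
    ev B g u = ev B g (u % 2 ^ (B * k)) * ev B g (u / 2 ^ (B * k)) := by
  rw [← ev_cat hB g0 k (Nat.mod_lt _ (by positivity)), Nat.mod_add_div']

lemma lt_len (hB : 0 < B) (u : ℕ) : u < 2 ^ (B * len B u) := by
  have h1 : 2 * u + 1 < 2 ^ (Nat.log2 (2 * u + 1) + 1) := Nat.lt_log2_self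
  have h2 : Nat.log2 (2 * u + 1) ≤ B * len B u := by
    show _ ≤ B * ((Nat.log2 (2 * u + 1) + (B - 1)) / B)
    have := Nat.div_add_mod (Nat.log2 (2 * u + 1) + (B - 1)) B
    have := Nat.mod_lt (Nat.log2 (2 * u + 1) + (B - 1)) hB
    omega
  have h3 := Nat.pow_le_pow_right (by norm_num : 0 < 2) h2
  rw [pow_succ] at h1
  omega

lemma ev_cat' (hB : 0 < B) (g0 : g 0 = 1) (u w : ℕ) :
    ev B g (cat B u w) = ev B g u * ev B g w := by
  rw [← ev_cat hB g0 _ (lt_len hB u), cat, shl_eq]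
  rfl

lemma lv_xor (c : ℕ) : lv g (c ^^^ 1) = (lv g c)⁻¹ := by
  have h1 : (c ^^^ 1) / 2 = c / 2 := by rw [Nat.xor_div_two]; simp
  have h2 : (c ^^^ 1) % 2 = 1 ↔ ¬ (c % 2 = 1 ↔ 1 % 2 = 1) := Nat.xor_mod_two_eq_one
  unfold lv
  rw [h1]
  split_ifs <;> first | rfl | omega | simp

lemma ev_invN (hB : 0 < B) (g0 : g 0 = 1) (n q a : ℕ) :
    ev B g (invN B n q a) = (ev B g (q % 2 ^ (B * n)))⁻¹ * ev B g a := by
  induction n generalizing q a with
  | zero => simp [invN, Nat.mod_one]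
  | succ n ih =>
    have e : invN B (n + 1) q a = force (Nat.shiftRight q B) fun q' =>
      force (Nat.add (Nat.xor (low q B) 1) (Nat.shiftLeft a B)) fun a' => invN B n q' a' := rfl
    have h1 : q % 2 ^ B < 2 ^ B := Nat.mod_lt _ (by positivity)
    have h2 : q % 2 ^ (B * (n + 1)) = q % 2 ^ B + q / 2 ^ B % 2 ^ (B * n) * 2 ^ B := by
      rw [mul_add, mul_one, add_comm, pow_add, Nat.mod_mul, mul_comm]
    rw [e, force_eq, force_eq, ih, shr_eq, shl_eq, low_eq, h2, ev_cons hB g0 h1]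
    have h3 := ev_cons hB g0 (Nat.xor_lt_two_pow h1 (Nat.one_lt_two_pow hB.ne')) a
    rw [lv_xor] at h3
    rw [mul_inv_rev, mul_assoc, ← h3]
    rfl

lemma ev_invL (hB : 0 < B) (g0 : g 0 = 1) (q a : ℕ) :
    ev B g (invN B (len B q) q a) = (ev B g q)⁻¹ * ev B g a := by
  rw [ev_invN hB g0, Nat.mod_eq_of_lt (lt_len hB q)]

lemma ev_invW (hB : 0 < B) (g0 : g 0 = 1) (q : ℕ) : ev B g (invW B q) = (ev B g q)⁻¹ := by
  rw [invW, ev_invL hB g0, ev_zero, mul_one]

lemma ev_powW (hB : 0 < B) (g0 : g 0 = 1) (u n : ℕ) : ev B g (powW B u n) = ev B g u ^ n := by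
  induction n with
  | zero => simp [powW]
  | succ n ih =>
    have e : powW B u (n + 1) = force (powW B u n) fun r => cat B u r := rfl
    rw [e, force_eq, ev_cat' hB g0, ih, pow_succ']

/-- a valid record -/
structure Good (B : ℕ) (g : ℕ → G) (R : ℕ) : Prop where
  l : B ∣ nL R
  r : B ∣ nR R
  lt : fR R < 2 ^ nR R
  e : ev B g (fL R) = ev B g (fR R)

lemma fL_lt (R : ℕ) : fL R < 2 ^ nL R := by
  rw [fL, low_eq]
  exact Nat.mod_lt _ (by positivity)

lemma rw1_sound (hB : 0 < B) (g0 : g 0 = 1) {u p A na C nc : ℕ} {k : ℕ → Bool} (ha : B ∣ na)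
    (hc : B ∣ nc) (hC : C < 2 ^ nc) (e : ev B g A = ev B g C)
    (h : rw1 u (Nat.mul B p) A na C nc k = true) : ∃ u', k u' = true ∧ ev B g u = ev B g u' := by
  obtain ⟨a, rfl⟩ := ha
  obtain ⟨c, rfl⟩ := hc
  simp only [rw1, force_eq, an_iff, beq_iff, low_eq, shr_eq, shl_eq, Nat.add_eq, Nat.mul_eq] at h
  refine ⟨_, h.2, ?_⟩
  rw [ev_cat hB g0 p (Nat.mod_lt _ (by positivity)), ev_cat hB g0 c hC, ← e, ← h.1,
    ← ev_split hB g0, ← ev_split hB g0]

lemma step_sound (hB : 0 < B) (g0 : g 0 = 1) {i op u v : ℕ} {k : ℕ → ℕ → Bool}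
    (hT : ∀ f < i, Good B g (T f)) (hk : ∀ u v, k u v = true → ev B g u = ev B g v)
    (h : step B T i op u v k = true) : ev B g u = ev B g v := by
  unfold step at h
  rw [force_eq, force_eq] at h
  generalize Nat.land (Nat.shiftRight op 4) 1023 = p at h
  generalize Nat.shiftRight op 14 = f at h
  generalize Nat.land (Nat.shiftRight op 1) 7 = t at h
  rcases t with _ | _ | _ | _ | _ | t
  · simp only [Nat.rec_zero, an_iff, lt_iff, force_eq] at h
    obtain ⟨u', h1, h2⟩ := rw1_sound hB g0 (hT f h.1).r (hT f h.1).l (fL_lt _) (hT f h.1).e.symm h.2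
    exact h2.trans (hk _ _ h1)
  · simp only [Nat.rec_zero, an_iff, lt_iff, force_eq] at h
    obtain ⟨u', h1, h2⟩ := rw1_sound hB g0 (hT f h.1).l (hT f h.1).r (hT f h.1).lt (hT f h.1).e h.2
    exact h2.trans (hk _ _ h1)
  · have := hk _ _ (by simpa only [Nat.rec_add_one, Nat.rec_zero, force_eq] using h)
    rw [ev_invN hB g0, shr_eq, Nat.mul_eq] at this
    rw [ev_split hB g0 p u, this, mul_inv_cancel_left]
  · have := hk _ _ (by simpa only [Nat.rec_add_one, Nat.rec_zero, force_eq] using h)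
    rw [ev_cat' hB g0, ev_invW hB g0, shr_eq, low_eq, Nat.mul_eq] at this
    rw [ev_split hB g0 p u, this, inv_mul_cancel_right]
  · have := hk _ _ (by simpa only [Nat.rec_add_one, Nat.rec_zero, force_eq] using h)
    have h1 : p % 2 ^ B < 2 ^ B := Nat.mod_lt _ (by positivity)
    rw [shl_eq, shl_eq, low_eq, Nat.add_eq, Nat.add_eq, ev_cons hB g0 h1, ev_cons hB g0 h1] at this
    exact mul_left_cancel this
  · have := hk _ _ (by simpa only [Nat.rec_add_one, Nat.rec_zero, force_eq] using h)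
    rw [ev_cat' hB g0, ev_cat' hB g0] at this
    exact mul_right_cancel this

lemma run_sound (hB : 0 < B) (g0 : g 0 = 1) {w i : ℕ} (hT : ∀ f < i, Good B g (T f)) (n : ℕ) :
    ∀ s u v, run B w T i n s u v = true → ev B g u = ev B g v := by
  induction n with
  | zero => intro s u v h; rw [beq_iff.1 h]
  | succ n ih =>
    intro s u v h
    have e : run B w T i (n + 1) s u v = force (low s w) fun op => force (Nat.shiftRight s w)
      fun s' => Nat.rec (step B T i op u v (run B w T i n s'))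
        (fun _ _ => step B T i op v u (run B w T i n s')) (Nat.land op 1) := rfl
    rw [e, force_eq, force_eq] at h
    generalize Nat.land (low s w) 1 = t at h
    cases t with
    | zero => exact step_sound hB g0 hT (ih _) h
    | succ t => exact (step_sound hB g0 hT (ih _) h).symm

lemma rd_sound {i u : ℕ} {s : List ℕ} {k : ℕ → List ℕ → Bool} (hT : ∀ f < i, Good B g (T f))
    (h : rd T i u s k = true) : ∃ r s', k r s' = true ∧ ev B g r = ev B g u := by
  rcases s with _ | ⟨_ | f, s⟩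
  · exact absurd h (by simp [rd])
  · exact ⟨u, s, by simpa only [rd, force_eq, Nat.rec_zero] using h, rfl⟩
  · simp only [rd, force_eq, an_iff, lt_iff, beq_iff] at h
    exact ⟨_, s, h.2.2, h.2.1 ▸ (hT _ h.1).e.symm⟩

lemma exW_sound (hB : 0 < B) (g0 : g 0 = 1) {i : ℕ} {x : ℕ → ℕ} (hT : ∀ f < i, Good B g (T f))
    (e : Ex) : ∀ s k, exW B T i x e s k = true →
      ∃ r s', k r s' = true ∧ ev B g r = e.ev g fun n => ev B g (x n) := by
  induction e with
  | g n =>
    intro s k h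
    simp only [exW, an_iff, lt_iff, force_eq, shl_eq, one_mul, Nat.mul_eq] at h
    refine ⟨_, s, h.2, ?_⟩
    simpa [lv, Ex.ev] using ev_cons hB g0 h.1 0
  | v n => exact fun s k h => ⟨_, s, by simpa only [exW, force_eq] using h, rfl⟩
  | o => exact fun s k h => ⟨0, s, h, ev_zero⟩
  | m a b iha ihb =>
    intro s k h
    obtain ⟨u, s, h, e1⟩ := iha _ _ h
    obtain ⟨v, s, h, e2⟩ := ihb _ _ h
    exact ⟨_, s, force_eq _ _ ▸ h, by rw [ev_cat' hB g0, e1, e2]; rfl⟩
  | i a iha =>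
    intro s k h
    obtain ⟨u, s, h, e1⟩ := iha _ _ h
    exact ⟨_, s, force_eq _ _ ▸ h, by rw [ev_invW hB g0, e1]; rfl⟩
  | j a b iha ihb =>
    intro s k h
    obtain ⟨u, s, h, e1⟩ := iha _ _ h
    obtain ⟨v, s, h, e2⟩ := ihb _ _ h
    rw [force_eq] at h
    obtain ⟨r, s, h, e3⟩ := rd_sound hT h
    exact ⟨r, s, h, by rw [e3, ev_invL hB g0, ev_cat' hB g0, e1, e2, ← mul_assoc]; rfl⟩
  | c a b iha ihb =>
    intro s k h
    obtain ⟨u, s, h, e1⟩ := iha _ _ h
    obtain ⟨v, s, h, e2⟩ := ihb _ _ h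
    rw [force_eq, force_eq] at h
    obtain ⟨r, s, h, e3⟩ := rd_sound hT h
    refine ⟨r, s, h, ?_⟩
    rw [e3, ev_invL hB g0, ev_invL hB g0, ev_cat' hB g0, e1, e2, ← mul_assoc (_ : G)⁻¹ (a.ev _ _)]
    rfl
  | p n a iha =>
    intro s k h
    obtain ⟨u, s, h, e1⟩ := iha _ _ h
    obtain ⟨r, s, h, e3⟩ := rd_sound hT h
    exact ⟨r, s, h, by rw [e3, ev_powW hB g0, e1]; rfl⟩

lemma cm_eq_one {a b : G} : cm a b = 1 ↔ a * b = b * a := by
  rw [cm, inv_mul_eq_one, mul_assoc, eq_inv_mul_iff_mul_eq, eq_comm]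

lemma eqW_sound (hB : 0 < B) (g0 : g 0 = 1) {i : ℕ} {x : ℕ → ℕ} (hT : ∀ f < i, Good B g (T f))
    {q : Eqn} {s : List ℕ} {k : ℕ → ℕ → List ℕ → Bool} (h : eqW B T i x q s k = true) :
    ∃ u v s', k u v s' = true ∧ (ev B g u = ev B g v ↔ q.Holds g fun n => ev B g (x n)) := by
  cases q with
  | E a b =>
    obtain ⟨u, s, h, e1⟩ := exW_sound hB g0 hT _ _ _ h
    obtain ⟨v, s, h, e2⟩ := exW_sound hB g0 hT _ _ _ h
    exact ⟨u, v, s, h, by rw [e1, e2]; rfl⟩
  | C a b =>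
    obtain ⟨u, s, h, e1⟩ := exW_sound hB g0 hT _ _ _ h
    obtain ⟨u', s, h, e1'⟩ := rd_sound hT h
    obtain ⟨v, s, h, e2⟩ := exW_sound hB g0 hT _ _ _ h
    obtain ⟨v', s, h, e2'⟩ := rd_sound hT h
    rw [force_eq, force_eq] at h
    exact ⟨_, _, s, h, by
      rw [ev_cat' hB g0, ev_cat' hB g0, e1', e2', e1, e2]; exact cm_eq_one.symm⟩

lemma prv_sound (hB : 0 < B) (g0 : g 0 = 1) {i : ℕ} {x : ℕ → ℕ} (hT : ∀ f < i, Good B g (T f))
    {q : Eqn} {s : List ℕ} {k : List ℕ → Bool} (h : prv B T i x q s k = true) :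
    (q.Holds g fun n => ev B g (x n)) ∧ ∃ s', k s' = true := by
  obtain ⟨u, v, s, h, e⟩ := eqW_sound hB g0 hT h
  obtain ⟨u', s, h, e1⟩ := rd_sound hT h
  obtain ⟨v', s, h, e2⟩ := rd_sound hT h
  rw [an_iff, beq_iff] at h
  exact ⟨e.1 (by rw [← e1, ← e2, h.1]), s, h.2⟩

lemma prvs_sound (hB : 0 < B) (g0 : g 0 = 1) {i : ℕ} {x : ℕ → ℕ} (hT : ∀ f < i, Good B g (T f))
    {p : Prop} (l : List Eqn) : ∀ s k, prvs B T i x l s k = true →
      Prems g (fun n => ev B g (x n)) l p → p ∧ ∃ s', k s' = true := by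
  induction l with
  | nil => exact fun s k h hp => ⟨hp, s, h⟩
  | cons q l ih =>
    intro s k h hp
    obtain ⟨h1, s, h⟩ := prv_sound hB g0 hT h
    exact ih s k h (hp h1)

lemma nth_holds {laws : List Law} (h : AllL g laws) (j : ℕ) :
    (nth ⟨[], .E .o .o⟩ laws j).Holds g := by
  induction laws generalizing j with
  | nil => exact fun _ => rfl
  | cons l r ih =>
    cases j with
    | zero => exact h.1
    | succ j => exact ih h.2 j

lemma chk_sound (hB : 0 < B) (g0 : g 0 = 1) {w i : ℕ} {P : ℕ → ℕ} {I : ℕ → Ins}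
    {laws : List Law} (hl : AllL g laws) (hT : ∀ f < i, Good B g (T f))
    (h : chk B w T P I laws i = true) : Good B g (T i) := by
  simp only [chk, force_eq, an_iff, beq_iff, lt_iff, shl_eq, one_mul] at h
  obtain ⟨h1, h2, h3, h⟩ := h
  refine ⟨Nat.dvd_of_mod_eq_zero h1, Nat.dvd_of_mod_eq_zero h2, h3, ?_⟩
  generalize Nat.land (P i) 1 = t at h
  cases t with
  | zero => exact run_sound hB g0 hT _ _ _ _ h
  | succ t =>
    have h : insChk B T laws i (fL (T i)) (fR (T i)) (I (Nat.shiftRight (P i) 1)) = true := h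
    generalize I (Nat.shiftRight (P i) 1) = t at h
    obtain ⟨j, x, y, s⟩ := t
    have hj := nth_holds hl j
    unfold insChk at h
    dsimp only at h
    generalize nth ⟨[], .E .o .o⟩ laws j = l at h hj
    obtain ⟨pr, co⟩ := l
    obtain ⟨h4, s, h⟩ := prvs_sound hB g0 hT pr _ _ h (hj _)
    obtain ⟨u, v, s, h, e⟩ := eqW_sound hB g0 hT h
    rw [an_iff, beq_iff, beq_iff] at h
    rw [← h.1, ← h.2]
    exact e.2 h4

lemma allB_sound {f : ℕ → Bool} {d a : ℕ} (h : allB f d a = true) :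
    ∀ i, i / 2 ^ d = a → f i = true := by
  induction d generalizing a with
  | zero => intro i hi; simp at hi; subst hi; exact h
  | succ d ih =>
    have e : allB f (d + 1) a = force (Nat.mul 2 a) fun b =>
      an (allB f d b) (force (Nat.succ b) (allB f d)) := rfl
    rw [e, force_eq, force_eq, an_iff] at h
    intro i hi
    rw [pow_succ, ← Nat.div_div_eq_div_mul] at hi
    rcases Nat.mod_two_eq_zero_or_one (i / 2 ^ d) with h2 | h2
    · exact ih h.1 i (by show _ = 2 * a; omega)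
    · exact ih h.2 i (by show _ = 2 * a + 1; omega)

/-- the first `m` blocks of size `2 ^ d` are checked -/
def Upto (B w : ℕ) (T : ℕ → ℕ) (I : ℕ → Ins) (laws : List Law) (d m : ℕ) : Prop :=
  ∀ i < m * 2 ^ d, ∃ P, chk B w T P I laws i = true

lemma Upto.zero (B w : ℕ) (T : ℕ → ℕ) (I : ℕ → Ins) (laws : List Law) (d : ℕ) :
    Upto B w T I laws d 0 := fun i h => by simp at h

lemma Upto.succ {w d m : ℕ} {P : ℕ → ℕ} {I : ℕ → Ins} {laws : List Law}
    (h : Upto B w T I laws d m) (k : allB (chk B w T P I laws) d m = true) :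
    Upto B w T I laws d (m + 1) := fun i hi => by
  by_cases h1 : i < m * 2 ^ d
  · exact h i h1
  · exact ⟨P, allB_sound k i (Nat.div_eq_of_lt_le (not_lt.1 h1) hi)⟩

/-- all the equations of a list -/
def AllE (g : ℕ → G) : List Eqn → Prop
  | [] => True
  | q :: l => (q.Holds g fun _ => 1) ∧ AllE g l

theorem targets (hB : 0 < B) (g0 : g 0 = 1) {w d m : ℕ} {I : ℕ → Ins} {laws : List Law}
    (hl : AllL g laws) (h : Upto B w T I laws d m) (l : List Eqn) (s : List ℕ)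
    (k : prvs B T (m * 2 ^ d) (fun _ => 0) l s (fun _ => true) = true) : AllE g l := by
  have hT : ∀ i < m * 2 ^ d, Good B g (T i) := fun i => by
    induction i using Nat.strong_induction_on with
    | _ i ih =>
      intro hi
      obtain ⟨P, hP⟩ := h i hi
      exact chk_sound hB g0 hl (fun f hf => ih f hf (hf.trans hi)) hP
  induction l generalizing s with
  | nil => trivial
  | cons q l ih =>
    obtain ⟨h1, s, k⟩ := prv_sound hB g0 hT k
    exact ⟨by simpa using h1, ih s k⟩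

end Pool.Agent.P.MP_9682d1_al.KB
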